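import Pool.Agent.Lib_MP_8178ab_ag.Ana.Defs
import Pool.Agent.Lib_MP_8178ab_ag.SpecVar

/-! # Complex points of affine schemes -/

open CategoryTheory Limits AlgebraicGeometry

namespace MP8178

/-- `Spec B` as a scheme over `ℂ`. -/
noncomputable abbrev specO (B : Type) [CommRing B] [Algebra ℂ B] :
    Over (Spec (CommRingCat.of ℂ)) :=
  Over.mk (Spec.map (CommRingCat.ofHom (algebraMap ℂ B)))

/-- the morphism `Spec B → Spec A` of a homomorphism `A → B` -/
noncomputable def specMapO {A B : Type} [CommRing A] [Algebra ℂ A] [CommRing B] [Algebra ℂ B]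
    (ψ : A →ₐ[ℂ] B) : specO B ⟶ specO A :=
  Over.homMk (Spec.map (CommRingCat.ofHom (ψ : A →+* B))) (by
    change Spec.map _ ≫ Spec.map _ = Spec.map _
    rw [← Spec.map_comp, ← CommRingCat.ofHom_comp]
    congr 2
    exact ψ.comp_algebraMap)

/-- the complex point of `Spec B` of a homomorphism `B → ℂ` -/
noncomputable def algPt {B : Type} [CommRing B] [Algebra ℂ B] (φ : B →ₐ[ℂ] ℂ) :
    ptO ℂ ⟶ specO B :=
  Over.homMk (Spec.map (CommRingCat.ofHom (φ : B →+* ℂ))) (by
    change Spec.map _ ≫ Spec.map _ = 𝟙 _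
    rw [← Spec.map_comp, ← CommRingCat.ofHom_comp, ← Spec.map_id]
    congr 1
    ext a
    exact φ.commutes a)

theorem algPt_comp {A B : Type} [CommRing A] [Algebra ℂ A] [CommRing B] [Algebra ℂ B]
    (ψ : A →ₐ[ℂ] B) (φ : B →ₐ[ℂ] ℂ) : algPt φ ≫ specMapO ψ = algPt (φ.comp ψ) := by
  apply Over.OverMorphism.ext
  change Spec.map _ ≫ Spec.map _ = Spec.map _
  rw [← Spec.map_comp, ← CommRingCat.ofHom_comp]
  rfl

/-- the topology of pointwise convergence on the set of homomorphisms `B → ℂ` -/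
noncomputable scoped instance algTop (B : Type) [CommRing B] [Algebra ℂ B] : TopologicalSpace (B →ₐ[ℂ] ℂ) :=
  TopologicalSpace.induced (fun φ (b : B) => φ b) Pi.topologicalSpace

theorem continuous_alg_apply {B : Type} [CommRing B] [Algebra ℂ B] (b : B) :
    Continuous (fun φ : B →ₐ[ℂ] ℂ => φ b) :=
  (continuous_apply b).comp continuous_induced_dom

theorem continuous_alg_iff {B : Type} [CommRing B] [Algebra ℂ B] {T : Type*} [TopologicalSpace T]
    {f : T → (B →ₐ[ℂ] ℂ)} : Continuous f ↔ ∀ b : B, Continuous fun t => f t b := by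
  rw [continuous_induced_rng]
  exact continuous_pi_iff

instance t2Space_alg (B : Type) [CommRing B] [Algebra ℂ B] : T2Space (B →ₐ[ℂ] ℂ) := by
  refine T2Space.of_injective_continuous (f := fun (φ : B →ₐ[ℂ] ℂ) (b : B) => φ b) ?_
    continuous_induced_dom
  intro φ ψ h
  exact AlgHom.ext fun b => congrFun h b

theorem algPt_bijective (B : Type) [CommRing B] [Algebra ℂ B] :
    Function.Bijective (algPt (B := B)) := by
  constructor
  · intro φ ψ h
    have h1 : Spec.map (CommRingCat.ofHom (φ : B →+* ℂ)) =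
        Spec.map (CommRingCat.ofHom (ψ : B →+* ℂ)) :=
      congrArg (fun x : ptO ℂ ⟶ specO B => x.left) h
    have h2 := Spec.map_injective h1
    ext b
    exact congrArg (fun f : CommRingCat.of B ⟶ CommRingCat.of ℂ => f.hom b) h2
  · intro x
    have hw : x.left ≫ Spec.map (CommRingCat.ofHom (algebraMap ℂ B)) =
        𝟙 (Spec (CommRingCat.of ℂ)) := Over.w x
    have hf : Spec.map (Spec.preimage x.left) = x.left := Spec.map_preimage x.left
    rw [← hf, ← Spec.map_comp, ← Spec.map_id] at hw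
    have h2 := Spec.map_injective hw
    refine ⟨{ (Spec.preimage x.left).hom with
      commutes' := fun a => ?_ }, ?_⟩
    · exact congrArg (fun f : CommRingCat.of ℂ ⟶ CommRingCat.of ℂ => f.hom a) h2
    · apply Over.OverMorphism.ext
      exact hf

theorem algPt_left {B : Type} [CommRing B] [Algebra ℂ B] (φ : B →ₐ[ℂ] ℂ) :
    (algPt φ).left = Spec.map (CommRingCat.ofHom (φ : B →+* ℂ)) := rfl

/-- a function on `Spec B` evaluated at a complex point -/
theorem ev_algPt_top {B : Type} [CommRing B] [Algebra ℂ B] (φ : B →ₐ[ℂ] ℂ) (b : B)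
    (h : ⊤ ≤ (algPt φ).left ⁻¹ᵁ (⊤ : (specO B).left.Opens)) :
    ev (algPt φ) ⊤ h ((Scheme.ΓSpecIso (CommRingCat.of B)).inv.hom b) = φ b := by
  have h1 := Scheme.ΓSpecIso_naturality (CommRingCat.ofHom (φ : B →+* ℂ))
  have h2 : (algPt φ).left.appLE ⊤ ⊤ h = (Spec.map (CommRingCat.ofHom (φ : B →+* ℂ))).appTop :=
    Scheme.Hom.appLE_eq_app (algPt φ).left
  change (((algPt φ).left.appLE ⊤ ⊤ h ≫ (Scheme.ΓSpecIso (CommRingCat.of ℂ)).hom).hom) _ = _
  rw [h2]
  erw [h1]
  simp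

theorem continuous_ev_top {X : Over (Spec (CommRingCat.of ℂ))} (g : Γ(X.left, ⊤)) :
    Continuous (fun x : ptO ℂ ⟶ X => ev x ⊤ le_rfl g) := by
  refine continuous_def.2 fun O hO => ?_
  have : (fun x : ptO ℂ ⟶ X => ev x ⊤ le_rfl g) ⁻¹' O = anSet ⊤ g O := by
    ext x
    exact ⟨fun h => ⟨le_rfl, h⟩, fun ⟨_, h⟩ => h⟩
  rw [this]
  exact isOpen_anSet _ _ hO

/-- evaluation commutes with restriction -/
theorem ev_res {X : Over (Spec (CommRingCat.of ℂ))} (x : ptO ℂ ⟶ X) (U V : X.left.Opens)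
    (i : V ≤ U) (hU : ⊤ ≤ x.left ⁻¹ᵁ U) (hV : ⊤ ≤ x.left ⁻¹ᵁ V) (g : Γ(X.left, U)) :
    ev x U hU g = ev x V hV (X.left.presheaf.map (homOfLE i).op g) := by
  have h1 := Scheme.Hom.map_appLE x.left hV (homOfLE i).op
  have h2 : x.left.appLE U ⊤ hU = X.left.presheaf.map (homOfLE i).op ≫ x.left.appLE V ⊤ hV :=
    h1.symm
  change ((x.left.appLE U ⊤ hU ≫ (Scheme.ΓSpecIso (CommRingCat.of ℂ)).hom).hom) g = _
  rw [h2]
  rfl

theorem le_preimage_basicOpen {B : Type} [CommRing B] [Algebra ℂ B] (φ : B →ₐ[ℂ] ℂ) (f : B) :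
    (⊤ ≤ (algPt φ).left ⁻¹ᵁ (PrimeSpectrum.basicOpen f : (specO B).left.Opens)) ↔ φ f ≠ 0 := by
  constructor
  · intro h h0
    have h1 := h (show IsLocalRing.closedPoint ℂ ∈ (⊤ : (Spec (CommRingCat.of ℂ)).Opens)
      from trivial)
    apply h1
    change φ f ∈ (IsLocalRing.closedPoint ℂ).asIdeal
    rw [h0]
    exact Submodule.zero_mem _
  · intro h p _ hp
    have h1 : φ f ∈ (p : PrimeSpectrum ℂ).asIdeal := hp
    exact p.2.ne_top (Ideal.eq_top_of_isUnit_mem _ h1 (isUnit_iff_ne_zero.2 h))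

/-- the restriction of a global section to a basic open set -/
noncomputable def resB (R : CommRingCat.{0}) (f b : R) :
    Γ(Spec R, PrimeSpectrum.basicOpen f) :=
  ((Scheme.ΓSpecIso R).inv ≫ (Spec R).presheaf.map
    (homOfLE (le_top : PrimeSpectrum.basicOpen f ≤ (⊤ : (Spec R).Opens))).op).hom b

theorem surj_resB (R : CommRingCat.{0}) (f : R) (g : Γ(Spec R, PrimeSpectrum.basicOpen f)) :
    ∃ (n : ℕ) (a : R), g * resB R f f ^ n = resB R f a := by
  obtain ⟨n, a, h⟩ := IsLocalization.Away.surj (R := R)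
    (S := Γ(Spec R, PrimeSpectrum.basicOpen f)) f g
  exact ⟨n, a, h⟩

theorem ev_algPt_basicOpen {B : Type} [CommRing B] [Algebra ℂ B] (φ : B →ₐ[ℂ] ℂ) (f b : B)
    (h : ⊤ ≤ (algPt φ).left ⁻¹ᵁ (PrimeSpectrum.basicOpen f : (specO B).left.Opens)) :
    ev (algPt φ) (PrimeSpectrum.basicOpen f) h (resB (CommRingCat.of B) f b) = φ b := by
  rw [← ev_algPt_top φ b le_rfl, ev_res (algPt φ) ⊤ (PrimeSpectrum.basicOpen f) le_top le_rfl h]
  rfl

theorem continuous_algPt (B : Type) [CommRing B] [Algebra ℂ B] :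
    Continuous (algPt (B := B)) := by
  refine continuous_generateFrom_iff.2 ?_
  rintro _ ⟨U, g, O, hO, rfl⟩
  rw [isOpen_iff_forall_mem_open]
  rintro φ₀ ⟨h, hx⟩
  have hmem : (algPt φ₀).left (IsLocalRing.closedPoint ℂ) ∈ U :=
    h (show IsLocalRing.closedPoint ℂ ∈ (⊤ : (Spec (CommRingCat.of ℂ)).Opens) from trivial)
  obtain ⟨_, ⟨f, rfl⟩, hf, hfU⟩ :=
    (PrimeSpectrum.isTopologicalBasis_basic_opens (R := B)).exists_subset_of_mem_open hmem U.2
  have hfU' : (PrimeSpectrum.basicOpen f : (specO B).left.Opens) ≤ U := hfU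
  have hf0 : φ₀ f ≠ 0 := by
    intro h0
    apply hf
    change φ₀ f ∈ (IsLocalRing.closedPoint ℂ).asIdeal
    rw [h0]
    exact Submodule.zero_mem _
  set g' : Γ((specO B).left, PrimeSpectrum.basicOpen f) :=
    (specO B).left.presheaf.map (homOfLE hfU').op g with hg'
  obtain ⟨n, a, hna⟩ := surj_resB (CommRingCat.of B) f g'
  have key : ∀ φ : B →ₐ[ℂ] ℂ, φ f ≠ 0 → ∀ hφ : ⊤ ≤ (algPt φ).left ⁻¹ᵁ U,
      ev (algPt φ) U hφ g = φ a / φ f ^ n := by
    intro φ hφf hφ
    have hV := (le_preimage_basicOpen φ f).2 hφf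
    rw [ev_res (algPt φ) U (PrimeSpectrum.basicOpen f) hfU' hφ hV, eq_div_iff (pow_ne_zero _ hφf)]
    have h3 := congrArg (ev (algPt φ) (PrimeSpectrum.basicOpen f) hV) hna
    rw [map_mul, map_pow, ev_algPt_basicOpen, ev_algPt_basicOpen] at h3
    exact h3
  refine ⟨{φ | φ f ≠ 0} ∩ (fun φ => φ a / φ f ^ n) ⁻¹' O, ?_, ?_, ?_⟩
  · rintro φ ⟨h1, h2⟩
    have hφ : ⊤ ≤ (algPt φ).left ⁻¹ᵁ U := fun y hy =>
      hfU' ((le_preimage_basicOpen φ f).2 h1 hy)
    refine ⟨hφ, ?_⟩
    rw [key φ h1 hφ]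
    exact h2
  · refine ContinuousOn.isOpen_inter_preimage ?_ ?_ hO
    · intro φ hφ
      exact ((continuous_alg_apply a).continuousAt.div
        ((continuous_alg_apply f).continuousAt.pow n) (pow_ne_zero _ hφ)).continuousWithinAt
    · exact isOpen_ne.preimage (continuous_alg_apply f)
  · refine ⟨hf0, ?_⟩
    have := key φ₀ hf0 h
    rw [Set.mem_preimage, ← this]
    exact hx

/-- The analytic topology on the complex points of an affine scheme is the topology of pointwise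
convergence. -/
theorem isHomeomorph_algPt (B : Type) [CommRing B] [Algebra ℂ B] :
    IsHomeomorph (algPt (B := B)) := by
  let e := Equiv.ofBijective _ (algPt_bijective B)
  have hinv : Continuous e.symm := by
    rw [continuous_alg_iff]
    intro b
    have h1 : (fun x : ptO ℂ ⟶ specO B => (e.symm x) b) =
        fun x => ev x ⊤ le_rfl ((Scheme.ΓSpecIso (CommRingCat.of B)).inv.hom b) := by
      funext x
      obtain ⟨φ, rfl⟩ := e.surjective x
      rw [Equiv.symm_apply_apply]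
      exact (ev_algPt_top φ b le_rfl).symm
    rw [h1]
    exact continuous_ev_top _
  exact (Homeomorph.mk e (continuous_algPt B) hinv).isHomeomorph

/-- Affine neighbourhoods. -/
theorem exists_affine_nhd (X : Over (Spec (CommRingCat.of ℂ))) (v : X.left)
    (U : X.left.Opens) (hv : v ∈ U) :
    ∃ (B : Type) (_ : CommRing B) (_ : Algebra ℂ B) (j : specO B ⟶ X),
      IsOpenImmersion j.left ∧ v ∈ Set.range j.left ∧ Set.range j.left ⊆ U := by
  obtain ⟨_, ⟨W, hW, rfl⟩, hvW, hWU⟩ :=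
    X.left.isBasis_affineOpens.exists_subset_of_mem_open hv U.2
  have hW' : IsAffineOpen W := hW
  let a : CommRingCat.of ℂ ⟶ Γ(X.left, W) :=
    (Scheme.ΓSpecIso (CommRingCat.of ℂ)).inv ≫ X.hom.appLE ⊤ W le_top
  let B : Type := Γ(X.left, W)
  let _ : Algebra ℂ B := a.hom.toAlgebra
  refine ⟨B, inferInstance, inferInstance, Over.homMk hW'.fromSpec ?_, ?_, ?_, ?_⟩
  · change hW'.fromSpec ≫ X.hom = Spec.map a
    rw [← IsAffineOpen.SpecMap_appLE_fromSpec X.hom (isAffineOpen_top _) hW' le_top,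
      IsAffineOpen.fromSpec_top, Scheme.isoSpec_Spec_inv, ← Spec.map_comp]
  · change IsOpenImmersion hW'.fromSpec
    infer_instance
  · change v ∈ Set.range hW'.fromSpec
    rw [IsAffineOpen.range_fromSpec]
    exact hvW
  · change Set.range hW'.fromSpec ⊆ U
    rw [IsAffineOpen.range_fromSpec]
    exact hWU

end MP8178
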