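import Pool.Agent.Lib_MP_8178ab_ag.Ana.Poly

/-! # Growth of the coefficients of factors -/

open Polynomial

namespace MP8178

variable {n : ℕ}

/-- the coefficients of a monic factor are bounded in terms of the coefficients -/
theorem coeff_le_of_dvd {p q : ℂ[X]} (hp : p.Monic) (hq : q.Monic) (hd : q ∣ p) {B : ℝ}
    (hB : 1 ≤ B) (hc : ∀ i, ‖p.coeff i‖ ≤ B) (i : ℕ) :
    ‖q.coeff i‖ ≤ (2 * (p.natDegree + 1) * B) ^ p.natDegree := by
  have hdeg : q.natDegree ≤ p.natDegree := natDegree_le_of_dvd hd hp.ne_zero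
  have hroots : ∀ z ∈ (map (RingHom.id ℂ) q).roots, ‖z‖ ≤ 1 + B := by
    intro z hz
    rw [Polynomial.map_id] at hz
    have hz1 : q.IsRoot z := (mem_roots hq.ne_zero).1 hz
    have hz2 : p.IsRoot z := by
      obtain ⟨r, rfl⟩ := hd
      unfold IsRoot at hz1 ⊢
      rw [eval_mul, hz1, zero_mul]
    have h1 : (‖z‖₊ : NNReal) < cauchyBound p := hz2.norm_lt_cauchyBound hp.ne_zero
    have h2 : (cauchyBound p : ℝ) ≤ 1 + B := by
      have h3 : cauchyBound p ≤ Real.toNNReal B + 1 := by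
        unfold cauchyBound
        rw [hp.leadingCoeff, nnnorm_one, div_one]
        gcongr
        apply Finset.sup_le
        intro j _
        rw [← NNReal.coe_le_coe, Real.coe_toNNReal _ (by linarith)]
        exact hc j
      have h4 : (cauchyBound p : ℝ) ≤ ((Real.toNNReal B + 1 : NNReal) : ℝ) :=
        NNReal.coe_le_coe.2 h3
      rw [NNReal.coe_add, Real.coe_toNNReal _ (by linarith), NNReal.coe_one] at h4
      linarith
    have h5 : ‖z‖ < (cauchyBound p : ℝ) := by exact_mod_cast h1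
    linarith
  have hsp : Splits (map (RingHom.id ℂ) q) := IsAlgClosed.splits _
  have h1 := coeff_le_of_roots_le i hq hsp hroots
  rw [Polynomial.map_id] at h1
  have h2 : (q.natDegree.choose i : ℝ) ≤ 2 ^ q.natDegree := by
    exact_mod_cast Nat.choose_le_two_pow q.natDegree i
  have h3 : (1 + B) ^ (q.natDegree - i) ≤ (2 * B) ^ q.natDegree := by
    calc (1 + B) ^ (q.natDegree - i) ≤ (1 + B) ^ q.natDegree :=
          pow_le_pow_right₀ (by linarith) (Nat.sub_le _ _)
      _ ≤ (2 * B) ^ q.natDegree := by gcongr; linarith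
  rcases Nat.eq_zero_or_pos p.natDegree with h0 | h0
  · rw [h0, pow_zero]
    have h4 : q.natDegree = 0 := by omega
    rw [h4] at h1 h3 h2
    calc ‖q.coeff i‖ ≤ _ := h1
      _ ≤ 1 * 1 := by
        apply mul_le_mul _ _ (by positivity) (by norm_num)
        · simpa using h3
        · simpa using h2
      _ = 1 := one_mul 1
  · calc ‖q.coeff i‖ ≤ (1 + B) ^ (q.natDegree - i) * (q.natDegree.choose i) := h1
      _ ≤ (2 * B) ^ q.natDegree * 2 ^ q.natDegree := by
        apply mul_le_mul h3 h2 (by positivity) (by positivity)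
      _ = (4 * B) ^ q.natDegree := by rw [← mul_pow]; congr 1; ring
      _ ≤ (2 * (p.natDegree + 1) * B) ^ q.natDegree := by
        have : (1 : ℝ) ≤ p.natDegree := by exact_mod_cast h0
        apply pow_le_pow_left₀ (by positivity)
        nlinarith
      _ ≤ (2 * (p.natDegree + 1) * B) ^ p.natDegree := by
        apply pow_le_pow_right₀ _ hdeg
        have : (1 : ℝ) ≤ p.natDegree := by exact_mod_cast h0
        nlinarith

/-- polynomial growth of polynomial functions -/
theorem exists_bound_eval (g : MvPolynomial (Fin n) ℂ) :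
    ∃ (C : ℝ) (M : ℕ), 1 ≤ C ∧ ∀ z : Fin n → ℂ, ‖MvPolynomial.eval z g‖ ≤ C * (1 + ‖z‖) ^ M := by
  induction g using MvPolynomial.induction_on with
  | C a =>
    refine ⟨‖a‖ + 1, 0, by linarith [norm_nonneg a], fun z => ?_⟩
    rw [MvPolynomial.eval_C, pow_zero, mul_one]
    linarith
  | add p q hp hq =>
    obtain ⟨C1, M1, h1, h2⟩ := hp
    obtain ⟨C2, M2, h3, h4⟩ := hq
    refine ⟨C1 + C2, max M1 M2, by linarith, fun z => ?_⟩
    rw [map_add]
    have hz : 1 ≤ 1 + ‖z‖ := by linarith [norm_nonneg z]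
    calc ‖MvPolynomial.eval z p + MvPolynomial.eval z q‖ ≤ _ := norm_add_le _ _
      _ ≤ C1 * (1 + ‖z‖) ^ M1 + C2 * (1 + ‖z‖) ^ M2 := add_le_add (h2 z) (h4 z)
      _ ≤ C1 * (1 + ‖z‖) ^ (max M1 M2) + C2 * (1 + ‖z‖) ^ (max M1 M2) := by
        apply add_le_add
        · exact mul_le_mul_of_nonneg_left (pow_le_pow_right₀ hz (le_max_left _ _)) (by linarith)
        · exact mul_le_mul_of_nonneg_left (pow_le_pow_right₀ hz (le_max_right _ _)) (by linarith)
      _ = (C1 + C2) * (1 + ‖z‖) ^ (max M1 M2) := by ring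
  | mul_X p i hp =>
    obtain ⟨C1, M1, h1, h2⟩ := hp
    refine ⟨C1, M1 + 1, h1, fun z => ?_⟩
    rw [map_mul, MvPolynomial.eval_X, norm_mul]
    have hz : ‖z i‖ ≤ 1 + ‖z‖ := by linarith [norm_le_pi_norm z i]
    calc ‖MvPolynomial.eval z p‖ * ‖z i‖ ≤ (C1 * (1 + ‖z‖) ^ M1) * (1 + ‖z‖) :=
          mul_le_mul (h2 z) hz (norm_nonneg _) (by positivity)
      _ = C1 * (1 + ‖z‖) ^ (M1 + 1) := by ring

/-- a common bound for finitely many coefficients -/
theorem growth_common (m : (MvPolynomial (Fin n) ℂ)[X]) (k : ℕ) :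
    ∃ (C : ℝ) (M : ℕ), 1 ≤ C ∧ ∀ (z : Fin n → ℂ) (i : ℕ), i < k →
      ‖MvPolynomial.eval z (m.coeff i)‖ ≤ C * (1 + ‖z‖) ^ M := by
  induction k with
  | zero => exact ⟨1, 0, le_rfl, fun z i hi => absurd hi (Nat.not_lt_zero i)⟩
  | succ k ih =>
    obtain ⟨C1, M1, h1, h2⟩ := ih
    obtain ⟨C2, M2, h3, h4⟩ := exists_bound_eval (m.coeff k)
    refine ⟨max C1 C2, max M1 M2, le_max_of_le_left h1, fun z i hi => ?_⟩
    have hz : 1 ≤ 1 + ‖z‖ := by linarith [norm_nonneg z]
    rcases Nat.lt_succ_iff_lt_or_eq.1 hi with h | rfl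
    · refine (h2 z i h).trans ?_
      apply mul_le_mul (le_max_left _ _) (pow_le_pow_right₀ hz (le_max_left _ _)) (by positivity)
      exact le_trans (by linarith) (le_max_left _ _)
    · refine (h4 z).trans ?_
      apply mul_le_mul (le_max_right _ _) (pow_le_pow_right₀ hz (le_max_right _ _)) (by positivity)
      exact le_trans (by linarith) (le_max_left _ _)

/-- the coefficients of monic factors of the polynomials `sp m z` have polynomial growth -/
theorem exists_bound_factor {m : (MvPolynomial (Fin n) ℂ)[X]} (hm : m.Monic) :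
    ∃ (C : ℝ) (M : ℕ), 1 ≤ C ∧ ∀ (z : Fin n → ℂ) (q : ℂ[X]), q.Monic → q ∣ sp m z → ∀ i,
      ‖q.coeff i‖ ≤ C * (1 + ‖z‖) ^ M := by
  obtain ⟨C1, M1, h1, h2⟩ := growth_common m (m.natDegree + 1)
  refine ⟨(2 * (m.natDegree + 1) * C1) ^ m.natDegree, M1 * m.natDegree, ?_, ?_⟩
  · apply one_le_pow₀
    have : (0 : ℝ) ≤ m.natDegree := Nat.cast_nonneg _
    nlinarith
  · intro z q hq hd i
    have hz : 1 ≤ 1 + ‖z‖ := by linarith [norm_nonneg z]
    have hz' : 1 ≤ (1 + ‖z‖) ^ M1 := one_le_pow₀ hz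
    have h3 := coeff_le_of_dvd (sp_monic hm z) hq hd (B := C1 * (1 + ‖z‖) ^ M1)
      (by nlinarith) (fun j => by
        rw [sp_coeff]
        by_cases hj : j < m.natDegree + 1
        · exact h2 z j hj
        · rw [coeff_eq_zero_of_natDegree_lt (by omega), map_zero, norm_zero]
          positivity) i
    rw [sp_natDegree hm z] at h3
    refine h3.trans (le_of_eq ?_)
    rw [pow_mul, ← mul_pow]
    congr 1
    ring

end MP8178
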