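import Pool.Agent.Lib_MP_8178ab_ag.Ana.DPath

/-! # Functions which are polynomial of bounded degree in each variable -/

open Polynomial

namespace MP8178

/-- restriction of a polynomial to the hyperplane where the first coordinate is `b` -/
noncomputable def slice {n : ℕ} (h : MvPolynomial (Fin (n + 1)) ℂ) (b : ℂ) :
    MvPolynomial (Fin n) ℂ :=
  (MvPolynomial.finSuccEquiv ℂ n h).eval (MvPolynomial.C b)

theorem eval_slice {n : ℕ} (h : MvPolynomial (Fin (n + 1)) ℂ) (b : ℂ) (z : Fin n → ℂ) :
    MvPolynomial.eval z (slice h b) = MvPolynomial.eval (Fin.cons b z : Fin (n + 1) → ℂ) h := by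
  rw [slice, MvPolynomial.eval_eq_eval_mv_eval', Polynomial.eval_map,
    ← Polynomial.eval₂_id (p := (MvPolynomial.finSuccEquiv ℂ n) h), Polynomial.hom_eval₂,
    RingHom.comp_id, MvPolynomial.eval_C]

theorem exists_finset_slice {n : ℕ} {h : MvPolynomial (Fin (n + 1)) ℂ} (hh : h ≠ 0) (k : ℕ) :
    ∃ s : Finset ℂ, s.card = k ∧ ∀ b ∈ s, slice h b ≠ 0 := by
  have h1 : MvPolynomial.finSuccEquiv ℂ n h ≠ 0 := by
    intro h0
    exact hh ((MvPolynomial.finSuccEquiv ℂ n).injective (by rw [h0, map_zero]))
  have h2 : {b : ℂ | slice h b = 0}.Finite := by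
    have h3 : ((MvPolynomial.finSuccEquiv ℂ n h).roots.toFinset :
        Set (MvPolynomial (Fin n) ℂ)).Finite := Finset.finite_toSet _
    refine (h3.preimage (f := fun b : ℂ => (MvPolynomial.C b : MvPolynomial (Fin n) ℂ))
      (MvPolynomial.C_injective _ _).injOn).subset ?_
    intro b hb
    simp only [Set.mem_preimage, Finset.mem_coe, Multiset.mem_toFinset]
    rw [mem_roots h1]
    exact hb
  have h4 : {b : ℂ | slice h b = 0}ᶜ.Infinite := h2.infinite_compl
  obtain ⟨s, hs, hc⟩ := h4.exists_subset_card_eq k
  exact ⟨s, hc, fun b hb => hs hb⟩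

/-- A continuous function on `h ≠ 0` whose restriction to every coordinate line is a polynomial of
degree at most `M` is a polynomial. -/
theorem exists_mvPolynomial {n : ℕ} {h : MvPolynomial (Fin n) ℂ} (hh : h ≠ 0)
    {F : (Fin n → ℂ) → ℂ} (hF : ContinuousOn F (DS h)) {M : ℕ}
    (hl : ∀ z ∈ DS h, ∀ i, ∃ P : ℂ[X], P.natDegree ≤ M ∧
      ∀ s, Function.update z i s ∈ DS h → F (Function.update z i s) = P.eval s) :
    ∃ G : MvPolynomial (Fin n) ℂ, ∀ z ∈ DS h, F z = MvPolynomial.eval z G := by
  induction n with
  | zero =>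
    refine ⟨MvPolynomial.C (F default), fun z _ => ?_⟩
    rw [MvPolynomial.eval_C, Subsingleton.elim z default]
  | succ n ih =>
    obtain ⟨s, hs, hsb⟩ := exists_finset_slice hh (M + 1)
    have hmem : ∀ (b : ℂ) (z : Fin n → ℂ), z ∈ DS (slice h b) ↔
        (Fin.cons b z : Fin (n + 1) → ℂ) ∈ DS h := by
      intro b z
      change MvPolynomial.eval z (slice h b) ≠ 0 ↔ _
      rw [eval_slice]
      rfl
    have key : ∀ b : ℂ, ∃ G : MvPolynomial (Fin n) ℂ, b ∈ s → ∀ z ∈ DS (slice h b),
        F (Fin.cons b z) = MvPolynomial.eval z G := by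
      intro b
      by_cases hb : b ∈ s
      · obtain ⟨G, hG⟩ := ih (hsb b hb) (F := fun z => F (Fin.cons b z)) (by
          refine hF.comp ?_ ?_
          · exact (continuous_pi fun i => by
              refine Fin.cases ?_ (fun j => ?_) i
              · simpa using continuous_const
              · simpa using continuous_apply j).continuousOn
          · intro z hz
            exact (hmem b z).1 hz) (by
          intro z hz i
          obtain ⟨P, hP, hP'⟩ := hl (Fin.cons b z) ((hmem b z).1 hz) i.succ
          refine ⟨P, hP, fun t ht => ?_⟩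
          have h1 := hP' t
          rw [← Fin.cons_update] at h1
          exact h1 ((hmem b _).1 ht))
        exact ⟨G, fun _ => hG⟩
      · exact ⟨0, fun h => absurd h hb⟩
    choose G hG using key
    let T : MvPolynomial (Fin (n + 1)) ℂ := ∑ b ∈ s, MvPolynomial.rename Fin.succ (G b) *
      Polynomial.aeval (MvPolynomial.X 0 : MvPolynomial (Fin (n + 1)) ℂ) (Lagrange.basis s id b)
    have hT : ∀ (t : ℂ) (z : Fin n → ℂ), MvPolynomial.eval (Fin.cons t z : Fin (n + 1) → ℂ) T =
        ∑ b ∈ s, MvPolynomial.eval z (G b) * (Lagrange.basis s id b).eval t := by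
      intro t z
      rw [map_sum]
      refine Finset.sum_congr rfl fun b _ => ?_
      rw [map_mul, MvPolynomial.eval_rename]
      congr 1
      rw [Polynomial.aeval_def, Polynomial.hom_eval₂]
      have h1 : (MvPolynomial.eval (Fin.cons t z : Fin (n + 1) → ℂ)).comp
          (algebraMap ℂ (MvPolynomial (Fin (n + 1)) ℂ)) = RingHom.id ℂ := by
        ext x
        simp
      rw [h1, MvPolynomial.eval_X, Fin.cons_zero, Polynomial.eval₂_id]
    let D : MvPolynomial (Fin (n + 1)) ℂ := h * ∏ b ∈ s, MvPolynomial.rename Fin.succ (slice h b)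
    have hD : D ≠ 0 := by
      refine mul_ne_zero hh (Finset.prod_ne_zero_iff.2 fun b hb h0 => hsb b hb ?_)
      exact MvPolynomial.rename_injective _ (Fin.succ_injective n) (by rw [h0, map_zero])
    have hDeq : ∀ z ∈ DS D, F z = MvPolynomial.eval z T := by
      intro z hz
      have hz' : MvPolynomial.eval z D ≠ 0 := hz
      rw [map_mul, map_prod, mul_ne_zero_iff, Finset.prod_ne_zero_iff] at hz'
      obtain ⟨hz1, hz2⟩ := hz'
      have hzc : z = Fin.cons (z 0) (Fin.tail z) := (Fin.cons_self_tail z).symm
      obtain ⟨P, hP, hP'⟩ := hl z hz1 0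
      have h1 : ∀ b ∈ s, P.eval b = MvPolynomial.eval (Fin.tail z) (G b) := by
        intro b hb
        have h2 := hz2 b hb
        rw [MvPolynomial.eval_rename] at h2
        have h3 : Fin.tail z ∈ DS (slice h b) := h2
        have h4 : Function.update z 0 b = Fin.cons b (Fin.tail z) := by
          conv_lhs => rw [hzc]
          rw [Fin.update_cons_zero]
        rw [← hP' b (by rw [h4]; exact (hmem b _).1 h3), h4]
        exact hG b hb _ h3
      have h2 : F z = P.eval (z 0) := by
        have := hP' (z 0) (by rw [Function.update_eq_self]; exact hz1)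
        rwa [Function.update_eq_self] at this
      have h3 : P = Lagrange.interpolate s id fun b => P.eval (id b) := by
        refine Lagrange.eq_interpolate Function.injective_id.injOn ?_
        rw [hs]
        refine lt_of_le_of_lt Polynomial.degree_le_natDegree ?_
        exact_mod_cast Nat.lt_succ_of_le hP
      rw [h2]
      conv_lhs => rw [h3]
      conv_rhs => rw [hzc]
      rw [hT, Lagrange.interpolate_apply, Polynomial.eval_finsetSum]
      refine Finset.sum_congr rfl fun b hb => ?_
      rw [Polynomial.eval_mul, Polynomial.eval_C]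
      congr 1
      exact h1 b hb
    refine ⟨T, fun z hz => ?_⟩
    by_contra hne
    have hopen : IsOpen (DS h ∩ (fun z => F z - MvPolynomial.eval z T) ⁻¹' {0}ᶜ) :=
      (hF.sub (continuous_eval T).continuousOn).isOpen_inter_preimage (isOpen_DS h)
        isOpen_compl_singleton
    obtain ⟨w, hw, hwD⟩ := (dense_DS hD).exists_mem_open hopen ⟨z, hz, sub_ne_zero.2 hne⟩
    exact hwD.2 (sub_eq_zero.2 (hDeq w hw))

end MP8178
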