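import Pool.Agent.Lib_MP_2d36f7_ag.MV

/-! # Functions of polynomial growth, holomorphic off a finite set, are polynomials -/

open Polynomial

namespace MP8178

/-- Entire functions of polynomial growth are polynomials. -/
theorem exists_polynomial_of_growth {f : ℂ → ℂ} (hf : Differentiable ℂ f) {C : ℝ} {M : ℕ}
    (hg : ∀ s, ‖f s‖ ≤ C * (1 + ‖s‖) ^ M) :
    ∃ P : ℂ[X], P.natDegree ≤ M ∧ ∀ s, f s = P.eval s := by
  induction M generalizing f C with
  | zero =>
    have hb : Bornology.IsBounded (Set.range f) := by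
      rw [isBounded_iff_forall_norm_le]
      refine ⟨C, ?_⟩
      rintro _ ⟨s, rfl⟩
      simpa using hg s
    refine ⟨Polynomial.C (f 0), by simp, fun s => ?_⟩
    rw [Polynomial.eval_C]
    exact hf.apply_eq_apply_of_bounded hb s 0
  | succ M ih =>
    have hd : Differentiable ℂ (dslope f 0) := by
      rw [← differentiableOn_univ]
      exact (Complex.differentiableOn_dslope Filter.univ_mem).2 hf.differentiableOn
    obtain ⟨K, hK⟩ := (isCompact_closedBall (0 : ℂ) 1).exists_bound_of_continuousOn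
      hd.continuous.continuousOn
    have hC0 : 0 ≤ C := by
      have := (norm_nonneg _).trans (hg 0)
      simpa using this
    have hgrow : ∀ s, ‖dslope f 0 s‖ ≤ max (4 * C) K * (1 + ‖s‖) ^ M := by
      intro s
      have h1 : (1 : ℝ) ≤ (1 + ‖s‖) ^ M := one_le_pow₀ (by linarith [norm_nonneg s])
      by_cases hs : ‖s‖ ≤ 1
      · have h2 := hK s (by simpa using hs)
        have h0 : 0 ≤ max (4 * C) K := le_max_of_le_left (by linarith)
        calc ‖dslope f 0 s‖ ≤ K := h2
          _ ≤ max (4 * C) K := le_max_right _ _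
          _ ≤ max (4 * C) K * (1 + ‖s‖) ^ M := le_mul_of_one_le_right h0 h1
      · push Not at hs
        have hs0 : s ≠ 0 := by
          rintro rfl
          simp at hs
          linarith
        have hspos : 0 < ‖s‖ := by linarith
        rw [dslope_of_ne _ hs0, slope_def_field, sub_zero, norm_div, div_le_iff₀ hspos]
        have h3 : ‖f s - f 0‖ ≤ 2 * C * (1 + ‖s‖) ^ (M + 1) := by
          have h4 := hg s
          have h5 := hg 0
          have h6 : (1 : ℝ) ≤ (1 + ‖s‖) ^ (M + 1) := one_le_pow₀ (by linarith)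
          have h7 : ‖f 0‖ ≤ C * (1 + ‖s‖) ^ (M + 1) := by
            have : ‖f 0‖ ≤ C := by simpa using h5
            exact this.trans (le_mul_of_one_le_right hC0 h6)
          calc ‖f s - f 0‖ ≤ ‖f s‖ + ‖f 0‖ := norm_sub_le _ _
            _ ≤ _ := by linarith
        have h8 : 2 * C * (1 + ‖s‖) ^ (M + 1) ≤ 4 * C * (1 + ‖s‖) ^ M * ‖s‖ := by
          rw [pow_succ]
          have h9 : 0 ≤ C * (1 + ‖s‖) ^ M := by positivity
          nlinarith
        have h10 : 4 * C * (1 + ‖s‖) ^ M * ‖s‖ ≤ max (4 * C) K * (1 + ‖s‖) ^ M * ‖s‖ := by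
          apply mul_le_mul_of_nonneg_right _ hspos.le
          apply mul_le_mul_of_nonneg_right (le_max_left _ _)
          positivity
        linarith
    obtain ⟨P, hP, hPe⟩ := ih hd hgrow
    refine ⟨Polynomial.C (f 0) + X * P, ?_, fun s => ?_⟩
    · refine (natDegree_add_le _ _).trans (max_le (by simp) ?_)
      refine (natDegree_mul_le).trans ?_
      have := natDegree_X_le (R := ℂ)
      omega
    · rw [eval_add, eval_C, eval_mul, eval_X, ← hPe s]
      by_cases hs : s = 0
      · subst hs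
        simp
      · rw [dslope_of_ne _ hs, slope_def_field, sub_zero]
        field_simp
        ring

/-- A function which is holomorphic off a finite set and of polynomial growth is a polynomial. -/
theorem exists_polynomial_off_finite {E : Finset ℂ} {f : ℂ → ℂ}
    (hf : ∀ s ∉ E, DifferentiableAt ℂ f s) {C : ℝ} {M : ℕ}
    (hg : ∀ s ∉ E, ‖f s‖ ≤ C * (1 + ‖s‖) ^ M) :
    ∃ P : ℂ[X], P.natDegree ≤ M ∧ ∀ s ∉ E, f s = P.eval s := by
  have hEc : IsOpen ((E : Set ℂ)ᶜ) := E.finite_toSet.isClosed.isOpen_compl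
  have han : ∀ s ∉ E, AnalyticAt ℂ f s := by
    intro s hs
    have hdo : DifferentiableOn ℂ f ((E : Set ℂ)ᶜ) := fun z hz =>
      (hf z (by simpa using hz)).differentiableWithinAt
    exact hdo.analyticAt (hEc.mem_nhds (by simpa using hs))
  have hbd : ∀ e ∈ E, ∃ K : ℝ, ∀ᶠ s in nhdsWithin e {e}ᶜ, ‖f s‖ ≤ K := by
    intro e _
    have hfin : ((E : Set ℂ) \ {e}).Finite := E.finite_toSet.subset Set.diff_subset
    have h1 : ((E : Set ℂ) \ {e})ᶜ ∈ nhds e := by
      apply hfin.isClosed.isOpen_compl.mem_nhds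
      simp
    have hcont : Filter.Tendsto (fun s : ℂ => C * (1 + ‖s‖) ^ M) (nhds e)
        (nhds (C * (1 + ‖e‖) ^ M)) := by
      apply Continuous.tendsto
      fun_prop
    refine ⟨C * (1 + ‖e‖) ^ M + 1, ?_⟩
    have h2 : ∀ᶠ s in nhds e, C * (1 + ‖s‖) ^ M < C * (1 + ‖e‖) ^ M + 1 :=
      hcont.eventually (gt_mem_nhds (by linarith))
    filter_upwards [nhdsWithin_le_nhds h1, nhdsWithin_le_nhds h2, self_mem_nhdsWithin]
      with s hs1 hs2 hs3
    have hsE : s ∉ E := by
      intro h
      apply hs1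
      exact ⟨by simpa using h, by simpa using hs3⟩
    exact (hg s hsE).trans hs2.le
  obtain ⟨F, hF, hFe⟩ := MP2d36f7.MV_removable E f han hbd
  have hdense : Dense ((E : Set ℂ)ᶜ) := by
    apply Set.Countable.dense_compl ℝ
    exact E.finite_toSet.countable
  have hgF : ∀ s, ‖F s‖ ≤ C * (1 + ‖s‖) ^ M := by
    have hclosed : IsClosed {s : ℂ | ‖F s‖ ≤ C * (1 + ‖s‖) ^ M} := by
      apply isClosed_le
      · exact hF.continuous.norm
      · fun_prop
    have hsub : ((E : Set ℂ)ᶜ) ⊆ {s : ℂ | ‖F s‖ ≤ C * (1 + ‖s‖) ^ M} := by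
      intro s hs
      have hs' : s ∉ E := by simpa using hs
      simp only [Set.mem_setOf_eq]
      rw [hFe s hs']
      exact hg s hs'
    intro s
    have := hclosed.closure_subset_iff.2 hsub (hdense s)
    exact this
  obtain ⟨P, hP, hPe⟩ := exists_polynomial_of_growth hF hgF
  exact ⟨P, hP, fun s hs => by rw [← hFe s hs, hPe s]⟩

end MP8178
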