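import Pool.Agent.Lib_MP_8178ab_ag.Ana.QA
import Pool.Agent.Lib_MP_8178ab_ag.Ana.Growth
import Pool.Agent.Lib_MP_8178ab_ag.Ana.Liouville
import Pool.Agent.Lib_MP_8178ab_ag.Ana.Interp

/-! # The coefficients of `qA A z` are polynomial functions of `z` -/

open Polynomial

namespace MP8178

variable {n : ℕ}

theorem lineP_update (h : MvPolynomial (Fin n) ℂ) (z : Fin n → ℂ) (j : Fin n) (s : ℂ) :
    (lineP h (Function.update z j 0) (Function.update z j 1)).eval s
      = MvPolynomial.eval (Function.update z j s) h := by
  rw [lineP_eval]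
  congr 2
  ext i
  by_cases hi : i = j
  · subst hi
    simp
  · simp [Function.update_of_ne hi]

/-- the coefficients of `qA A z` are polynomial functions of `z` -/
theorem exists_coeff_qA {h : MvPolynomial (Fin n) ℂ} (hh : h ≠ 0)
    {m : (MvPolynomial (Fin n) ℂ)[X]} (hm : m.Monic)
    {A : Set ((Fin n → ℂ) × ℂ)} (hA : LocA h m A) (i : ℕ) :
    ∃ G : MvPolynomial (Fin n) ℂ, ∀ z ∈ DS h, (qA A z).coeff i = MvPolynomial.eval z G := by
  obtain ⟨a, h1, h2⟩ := qA_props hh hA
  obtain ⟨C₀, M, hC, hb⟩ := exists_bound_factor hm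
  refine exists_mvPolynomial (M := M) hh (h2 i).continuousOn fun z hz j => ?_
  let P : ℂ[X] := lineP h (Function.update z j 0) (Function.update z j 1)
  have hP : P ≠ 0 := by
    intro h0
    have h3 := lineP_update h z j (z j)
    rw [Function.update_eq_self] at h3
    have h4 : P.eval (z j) = 0 := by rw [h0, eval_zero]
    exact hz (h3.symm.trans h4)
  have hE : ∀ s, s ∉ P.roots.toFinset ↔ Function.update z j s ∈ DS h := by
    intro s
    rw [Multiset.mem_toFinset, mem_roots hP, IsRoot.def]
    show ¬ (P.eval s = 0) ↔ MvPolynomial.eval (Function.update z j s) h ≠ 0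
    rw [← lineP_update h z j s]
  have hd : ∀ s ∉ P.roots.toFinset,
      DifferentiableAt ℂ (fun s => (qA A (Function.update z j s)).coeff i) s := by
    intro s hs
    have hs' := (hE s).1 hs
    have e1 : DifferentiableAt ℂ (fun z => (qA A z).coeff i) (Function.update z j s) :=
      (h2 i).differentiableAt ((isOpen_DS h).mem_nhds hs')
    have e2 : DifferentiableAt ℂ (fun s : ℂ => Function.update z j s) s := by
      rw [differentiableAt_pi]
      intro k
      by_cases hk : k = j
      · subst hk
        simp only [Function.update_self]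
        exact differentiableAt_id
      · simp only [Function.update_of_ne hk]
        exact differentiableAt_const _
    exact DifferentiableAt.comp s e1 e2
  have hg : ∀ s ∉ P.roots.toFinset, ‖(qA A (Function.update z j s)).coeff i‖
      ≤ C₀ * (1 + ‖z‖) ^ M * (1 + ‖s‖) ^ M := by
    intro s hs
    have hs' := (hE s).1 hs
    obtain ⟨f1, -, f3, -⟩ := h1 _ hs'
    refine (hb _ _ f1 f3 i).trans ?_
    rw [mul_assoc, ← mul_pow]
    refine mul_le_mul_of_nonneg_left ?_ (by linarith)
    refine pow_le_pow_left₀ (by positivity) ?_ M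
    have : ‖Function.update z j s‖ ≤ ‖z‖ + ‖s‖ := by
      rw [pi_norm_le_iff_of_nonneg (by positivity)]
      intro k
      by_cases hk : k = j
      · subst hk
        rw [Function.update_self]
        linarith [norm_nonneg z]
      · rw [Function.update_of_ne hk]
        linarith [norm_le_pi_norm z k, norm_nonneg s]
    nlinarith [norm_nonneg z, norm_nonneg s, mul_nonneg (norm_nonneg z) (norm_nonneg s)]
  obtain ⟨R, hR, hR2⟩ := exists_polynomial_off_finite hd hg
  exact ⟨R, hR, fun s hs => hR2 s ((hE s).2 hs)⟩

end MP8178
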