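import Pool.Agent.Lib_MP_8178ab_ag.Ana.Aff
import Pool.Agent.Lib_MP_8178ab_ag.Coord
import Pool.Agent.Lib_MP_8178ab_ag.EtaleDomain
import Pool.Agent.Lib_MP_8178ab_ag.GComp

/-! # Neighbourhoods which are spectra of domains étale over polynomial rings -/

open CategoryTheory Limits AlgebraicGeometry

namespace MP8178

/-- Every point of a smooth variety has an affine neighbourhood which is the spectrum of a domain
étale over a polynomial ring. -/
theorem exists_etale_domain_nhd (X : Var ℂ) (v : X.obj.left) :
    ∃ (n : ℕ) (B : Type) (_ : CommRing B) (_ : Algebra (MvPolynomial (Fin n) ℂ) B)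
      (_ : Algebra.Etale (MvPolynomial (Fin n) ℂ) B) (_ : Algebra ℂ B)
      (_ : IsScalarTower ℂ (MvPolynomial (Fin n) ℂ) B) (_ : IsDomain B)
      (j : specO B ⟶ X.obj), IsOpenImmersion j.left ∧ v ∈ Set.range j.left := by
  obtain ⟨n, A, _, _, _, _, _, _, j, hj, w, hw⟩ := exists_etale_coordinates X v
  have hft : Algebra.FiniteType (MvPolynomial (Fin n) ℂ) A := inferInstance
  have hNA : IsNoetherianRing A := Algebra.FiniteType.isNoetherianRing (MvPolynomial (Fin n) ℂ) A
  let w' : PrimeSpectrum A := w
  have hop : IsOpen (connectedComponent w') := isOpen_connectedComponent_of_noetherian w'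
  obtain ⟨e, he, hC⟩ := PrimeSpectrum.isClopen_iff.1
    (⟨isClosed_connectedComponent, hop⟩ : IsClopen (connectedComponent w'))
  let B := Localization.Away e
  have : IsScalarTower (MvPolynomial (Fin n) ℂ) A B := inferInstance
  have hBA : Algebra.Etale A B := Algebra.Etale.of_isLocalizationAway e
  have hBR : Algebra.Etale (MvPolynomial (Fin n) ℂ) B :=
    Algebra.Etale.comp (MvPolynomial (Fin n) ℂ) A B
  have htow : IsScalarTower ℂ (MvPolynomial (Fin n) ℂ) B := by
    refine IsScalarTower.of_algebraMap_eq fun c => ?_
    rw [IsScalarTower.algebraMap_apply ℂ A B, IsScalarTower.algebraMap_apply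
      (MvPolynomial (Fin n) ℂ) A B, IsScalarTower.algebraMap_apply ℂ (MvPolynomial (Fin n) ℂ) A]
  have hemb : Topology.IsOpenEmbedding (PrimeSpectrum.comap (algebraMap A B)) :=
    PrimeSpectrum.localization_away_isOpenEmbedding B e
  have hrange : Set.range (PrimeSpectrum.comap (algebraMap A B)) = connectedComponent w' := by
    rw [PrimeSpectrum.localization_away_comap_range B e, hC]
  have hconn : ConnectedSpace (PrimeSpectrum B) := by
    have h1 : ConnectedSpace (Set.range (PrimeSpectrum.comap (algebraMap A B))) := by
      rw [hrange]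
      exact isConnected_iff_connectedSpace.mp isConnected_connectedComponent
    let E := hemb.isEmbedding.toHomeomorph
    exact E.symm.surjective.connectedSpace E.symm.continuous
  have hdom : IsDomain B := isDomain_of_etale (k := ℂ) n B hconn
  refine ⟨n, B, inferInstance, inferInstance, hBR, inferInstance, htow, hdom,
    specMapO (IsScalarTower.toAlgHom ℂ A B) ≫ j, ?_, ?_⟩
  · have h1 : IsOpenImmersion (specMapO (IsScalarTower.toAlgHom ℂ A B)).left := by
      change IsOpenImmersion (Spec.map (CommRingCat.ofHom (algebraMap A B)))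
      exact IsOpenImmersion.of_isLocalization e
    exact MorphismProperty.comp_mem @IsOpenImmersion _ _ h1 hj
  · have h2 : w' ∈ Set.range (PrimeSpectrum.comap (algebraMap A B)) := by
      rw [hrange]
      exact mem_connectedComponent
    obtain ⟨u, hu⟩ := h2
    refine ⟨u, ?_⟩
    rw [← hw]
    change j.left ((Spec.map (CommRingCat.ofHom (algebraMap A B))) u) = j.left w
    congr 1

end MP8178
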