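import Pool.Agent.Lib_MP_8178ab_ag.Ana.Defs
import Pool.Agent.Lib_MP_8178ab_ag.GComp

/-! # Open immersions induce open embeddings on complex points -/

open CategoryTheory Limits AlgebraicGeometry

namespace MP8178

variable {X Y : Over (Spec (CommRingCat.of ℂ))}

/-- The points of an open subscheme. -/
theorem exists_lift_pt (j : X ⟶ Y) (hj : IsOpenImmersion j.left) (y : ptO ℂ ⟶ Y)
    (hy : y.left (IsLocalRing.closedPoint ℂ) ∈ Set.range j.left) :
    ∃ x : ptO ℂ ⟶ X, x ≫ j = y := by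
  have hr : Set.range y.left ⊆ Set.range j.left := by
    rintro _ ⟨z, rfl⟩
    have : z = IsLocalRing.closedPoint ℂ :=
      Subsingleton.elim (α := PrimeSpectrum ℂ) _ _
    rwa [this]
  refine ⟨Over.homMk (IsOpenImmersion.lift j.left y.left hr) ?_, ?_⟩
  · rw [← Over.w j, ← Category.assoc, IsOpenImmersion.lift_fac]
    exact Over.w y
  · apply Over.OverMorphism.ext
    exact IsOpenImmersion.lift_fac _ _ _

/-- `ev` is compatible with restriction. -/
theorem openImm_ev_map (x : ptO ℂ ⟶ X) {U V : X.left.Opens} (i : Opposite.op V ⟶ Opposite.op U)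
    (h : ⊤ ≤ x.left ⁻¹ᵁ U) (h' : ⊤ ≤ x.left ⁻¹ᵁ V) (g : Γ(X.left, V)) :
    ev x U h (X.left.presheaf.map i g) = ev x V h' g := by
  have h1 : X.left.presheaf.map i ≫ x.left.appLE U ⊤ h = x.left.appLE V ⊤ h' :=
    Scheme.Hom.map_appLE x.left h i
  change (x.left.appLE U ⊤ h ≫ (Scheme.ΓSpecIso (CommRingCat.of ℂ)).hom).hom
    ((X.left.presheaf.map i).hom g) = (x.left.appLE V ⊤ h' ≫ (Scheme.ΓSpecIso (CommRingCat.of ℂ)).hom).hom g
  rw [← h1]
  rfl

theorem openImm_le_iff (j : X ⟶ Y) (hj : IsOpenImmersion j.left) (x : ptO ℂ ⟶ X)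
    (U : X.left.Opens) :
    ⊤ ≤ (x ≫ j).left ⁻¹ᵁ (j.left ''ᵁ U) ↔ ⊤ ≤ x.left ⁻¹ᵁ U := by
  have h1 : (x ≫ j).left ⁻¹ᵁ (j.left ''ᵁ U) = x.left ⁻¹ᵁ U := by
    rw [Over.comp_left, Scheme.Hom.comp_preimage, Scheme.Hom.preimage_image_eq]
  rw [h1]

theorem openImm_mem_iff (j : X ⟶ Y) (hj : IsOpenImmersion j.left) (x : ptO ℂ ⟶ X)
    (U : X.left.Opens) (g : Γ(X.left, U)) (O : Set ℂ) :
    (x ≫ j) ∈ anSet (j.left ''ᵁ U) ((j.left.appIso U).inv g) O ↔ x ∈ anSet U g O := by
  have key : ∀ (h : ⊤ ≤ (x ≫ j).left ⁻¹ᵁ (j.left ''ᵁ U)) (h' : ⊤ ≤ x.left ⁻¹ᵁ U),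
      ev (x ≫ j) (j.left ''ᵁ U) h ((j.left.appIso U).inv g) = ev x U h' g := by
    intro h h'
    rw [ev_comp]
    have h2 : j.left.app (j.left ''ᵁ U) ((j.left.appIso U).inv g) =
        X.left.presheaf.map (eqToHom (Scheme.Hom.preimage_image_eq j.left U)).op g := by
      have h3 := Scheme.Hom.appIso_inv_app j.left U
      exact congrArg (fun f => f.hom g) h3
    rw [h2]
    exact openImm_ev_map x _ _ _ g
  constructor
  · rintro ⟨h, hx⟩
    have h' := (openImm_le_iff j hj x U).1 h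
    exact ⟨h', by rwa [key h h'] at hx⟩
  · rintro ⟨h', hx⟩
    have h := (openImm_le_iff j hj x U).2 h'
    exact ⟨h, by rwa [key h h']⟩

/-- Open immersions induce open embeddings on complex points. -/
theorem isOpenEmbedding_comp (j : X ⟶ Y) (hj : IsOpenImmersion j.left) :
    Topology.IsOpenEmbedding (fun x : ptO ℂ ⟶ X => x ≫ j) := by
  have hmono : Mono j.left := inferInstance
  have hinj : Function.Injective (fun x : ptO ℂ ⟶ X => x ≫ j) := by
    intro x y hxy
    apply Over.OverMorphism.ext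
    have h1 : x.left ≫ j.left = y.left ≫ j.left := congrArg (fun f => f.left) hxy
    exact (cancel_mono j.left).1 h1
  refine Topology.IsOpenEmbedding.of_continuous_injective_isOpenMap (continuous_comp j) hinj ?_
  have hbas : ∀ (U : X.left.Opens) (g : Γ(X.left, U)) (O : Set ℂ),
      (fun x : ptO ℂ ⟶ X => x ≫ j) '' (anSet U g O) =
        anSet (j.left ''ᵁ U) ((j.left.appIso U).inv g) O := by
    intro U g O
    ext y
    constructor
    · rintro ⟨x, hx, rfl⟩
      exact (openImm_mem_iff j hj x U g O).2 hx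
    · intro hy
      obtain ⟨h, -⟩ := id hy
      have hy' : y.left (IsLocalRing.closedPoint ℂ) ∈ Set.range j.left := by
        have h1 : y.left (IsLocalRing.closedPoint ℂ) ∈ j.left ''ᵁ U :=
          h (Set.mem_univ (IsLocalRing.closedPoint ℂ))
        obtain ⟨z, -, hz⟩ := h1
        exact ⟨z, hz⟩
      obtain ⟨x, rfl⟩ := exists_lift_pt j hj y hy'
      exact ⟨x, (openImm_mem_iff j hj x U g O).1 hy, rfl⟩
  have huniv : (Set.univ : Set (ptO ℂ ⟶ X)) = anSet ⊤ 0 Set.univ := by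
    ext x
    simp only [Set.mem_univ, true_iff]
    exact ⟨le_rfl, Set.mem_univ _⟩
  intro S hS
  have hS' : TopologicalSpace.GenerateOpen
    {S | ∃ (U : X.left.Opens) (g : Γ(X.left, U)) (O : Set ℂ), IsOpen O ∧ S = anSet U g O} S := hS
  induction hS' with
  | basic s hs =>
    obtain ⟨U, g, O, hO, rfl⟩ := hs
    rw [hbas]
    exact isOpen_anSet _ _ hO
  | univ =>
    rw [huniv, hbas]
    exact isOpen_anSet _ _ isOpen_univ
  | inter s t hs ht ihs iht =>
    rw [Set.image_inter hinj]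
    exact (ihs hs).inter (iht ht)
  | sUnion C hC ih =>
    rw [Set.image_sUnion]
    refine isOpen_sUnion ?_
    rintro _ ⟨s, hs, rfl⟩
    exact ih s hs (hC s hs)

end MP8178
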