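import Pool.Agent.Lib_MP_8178ab_ag.Ana.EtaleConn
import Pool.Agent.Lib_MP_8178ab_ag.Ana.OpenImm
import Pool.Agent.Lib_MP_8178ab_ag.Ana.EtaleNhd
import Pool.Agent.Lib_MP_8178ab_ag.GFib

/-! # The complex points of a connected smooth variety form a path connected space -/

open CategoryTheory Limits AlgebraicGeometry

namespace MP8178

/-- Every point of a smooth variety has a Zariski open neighbourhood whose complex points are
joined to each other. -/
theorem exists_joined_nhd (X : Var ℂ) (v : X.obj.left) :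
    ∃ U : X.obj.left.Opens, v ∈ U ∧ ∀ x y : Pt X, x.left (IsLocalRing.closedPoint ℂ) ∈ U →
      y.left (IsLocalRing.closedPoint ℂ) ∈ U → Joined x y := by
  obtain ⟨n, B, _, _, _, _, _, _, j, hj, hv⟩ := exists_etale_domain_nhd X v
  refine ⟨j.left.opensRange, hv, fun x y hx hy => ?_⟩
  obtain ⟨x₀, rfl⟩ := exists_lift_pt j hj x hx
  obtain ⟨y₀, rfl⟩ := exists_lift_pt j hj y hy
  obtain ⟨φ, rfl⟩ := (algPt_bijective B).2 x₀
  obtain ⟨ψ, rfl⟩ := (algPt_bijective B).2 y₀
  have hpc : PathConnectedSpace (B →ₐ[ℂ] ℂ) := pathConnectedSpace_of_etale (n := n)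
  exact ((PathConnectedSpace.joined φ ψ).map (isHomeomorph_algPt B).continuous).map
    (continuous_comp j)

/-- The complex points of a connected smooth variety form a path connected space. -/
theorem joined_pt (X : Var ℂ) (hX : ConnectedSpace X.obj.left) (x y : Pt X) : Joined x y := by
  choose N hN hJ using exists_joined_nhd X
  let S : Set X.obj.left := ⋃ v ∈ {v | ∃ z : Pt X,
    z.left (IsLocalRing.closedPoint ℂ) ∈ N v ∧ Joined x z}, (N v : Set X.obj.left)
  let T : Set X.obj.left := ⋃ v ∈ {v | ∃ z : Pt X,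
    z.left (IsLocalRing.closedPoint ℂ) ∈ N v ∧ ¬ Joined x z}, (N v : Set X.obj.left)
  have hS : IsOpen S := isOpen_biUnion fun v _ => (N v).isOpen
  have hT : IsOpen T := isOpen_biUnion fun v _ => (N v).isOpen
  have hST : Sᶜ = T := by
    ext w
    constructor
    · intro hw
      obtain ⟨z, hz⟩ := exists_pt X (N w) ⟨w, hN w⟩
      refine Set.mem_biUnion (x := w) ⟨z, hz, fun hxz => hw ?_⟩ (hN w)
      exact Set.mem_biUnion (x := w) ⟨z, hz, hxz⟩ (hN w)
    · intro hw hw'
      simp only [T, S, Set.mem_iUnion, Set.mem_ofPred_eq, exists_prop] at hw hw'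
      obtain ⟨v, ⟨z, hz, hxz⟩, hwv⟩ := hw
      obtain ⟨v', ⟨z', hz', hxz'⟩, hwv'⟩ := hw'
      obtain ⟨u, hu⟩ := exists_pt X (N v ⊓ N v') ⟨w, hwv, hwv'⟩
      exact hxz (hxz'.trans ((hJ v' z' u hz' hu.2).trans (hJ v u z hu.1 hz)))
  have hcl : IsClopen S := by
    refine ⟨?_, hS⟩
    rw [← isOpen_compl_iff, hST]
    exact hT
  have hne : S.Nonempty :=
    ⟨x.left (IsLocalRing.closedPoint ℂ), Set.mem_biUnion
      (x := x.left (IsLocalRing.closedPoint ℂ)) ⟨x, hN _, Joined.refl x⟩ (hN _)⟩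
  have hu : S = Set.univ := hcl.eq_univ hne
  have hy : y.left (IsLocalRing.closedPoint ℂ) ∈ S := hu ▸ Set.mem_univ _
  simp only [S, Set.mem_iUnion, Set.mem_ofPred_eq, exists_prop] at hy
  obtain ⟨v, ⟨z, hz, hxz⟩, hyv⟩ := hy
  exact hxz.trans (hJ v z y hz hyv)

end MP8178
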