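import Pool.Agent.Lib_MP_8178ab_ag.Ana.Poly
import Pool.Agent.Lib_MP_8178ab_ag.Ana.Aff

/-! # Coordinates of complex points -/

open Polynomial

namespace MP8178

section

variable {n : ℕ} {B : Type} [CommRing B] [Algebra ℂ B] [Algebra (MvPolynomial (Fin n) ℂ) B]
  [IsScalarTower ℂ (MvPolynomial (Fin n) ℂ) B]

/-- the coordinates of a complex point -/
noncomputable def coords (φ : B →ₐ[ℂ] ℂ) : Fin n → ℂ := fun i =>
  φ (algebraMap (MvPolynomial (Fin n) ℂ) B (MvPolynomial.X i))

theorem apply_algebraMap_eq (φ : B →ₐ[ℂ] ℂ) (g : MvPolynomial (Fin n) ℂ) :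
    φ (algebraMap (MvPolynomial (Fin n) ℂ) B g) = MvPolynomial.eval (coords φ) g := by
  have h : φ.comp (IsScalarTower.toAlgHom ℂ (MvPolynomial (Fin n) ℂ) B) =
      MvPolynomial.aeval (coords φ) := by
    refine MvPolynomial.algHom_ext fun i => ?_
    rw [MvPolynomial.aeval_X]
    rfl
  exact DFunLike.congr_fun h g

end

end MP8178
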