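import Pool.Agent.Lib_MP_8178ab_ag.Ana.OpenImm
import Pool.Agent.Lib_MP_8178ab_ag.Ana.Aff

/-! # Affine opens as spectra of algebras over the complex numbers -/

open CategoryTheory Limits AlgebraicGeometry

namespace MP8178

namespace FromSpec

/-- the structure map of the ring of functions on an open set -/
noncomputable def gMap (X : Over (Spec (CommRingCat.of ℂ))) (W : X.left.Opens) :
    CommRingCat.of ℂ ⟶ Γ(X.left, W) :=
  (Scheme.ΓSpecIso (CommRingCat.of ℂ)).inv ≫ X.hom.appLE ⊤ W le_top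

/-- the algebra structure of the ring of functions on an open set -/
noncomputable abbrev gAlg (X : Over (Spec (CommRingCat.of ℂ))) (W : X.left.Opens) :
    Algebra ℂ Γ(X.left, W) := (gMap X W).hom.toAlgebra

theorem fromSpec_hom (X : Over (Spec (CommRingCat.of ℂ))) {W : X.left.Opens}
    (hW : IsAffineOpen W) : hW.fromSpec ≫ X.hom = Spec.map (gMap X W) := by
  rw [← IsAffineOpen.SpecMap_appLE_fromSpec X.hom (isAffineOpen_top _) hW le_top,
    IsAffineOpen.fromSpec_top, Scheme.isoSpec_Spec_inv, ← Spec.map_comp]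
  rfl

theorem gMap_appLE {X' X : Over (Spec (CommRingCat.of ℂ))} (f : X' ⟶ X) (U : X.left.Opens)
    (V : X'.left.Opens) (e : V ≤ f.left ⁻¹ᵁ U) :
    gMap X U ≫ f.left.appLE U V e = gMap X' V := by
  rw [gMap, gMap, Category.assoc, Scheme.Hom.appLE_comp_appLE]
  have h : f.left ≫ X.hom = X'.hom := Over.w f
  simp only [h]

/-- The homomorphism of algebras of a morphism. -/
theorem exists_algHom {X' X : Over (Spec (CommRingCat.of ℂ))} (f : X' ⟶ X) (U : X.left.Opens)
    (V : X'.left.Opens) (e : V ≤ f.left ⁻¹ᵁ U) :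
    letI := gAlg X U
    letI := gAlg X' V
    ∃ ψ : Γ(X.left, U) →ₐ[ℂ] Γ(X'.left, V),
      (ψ : Γ(X.left, U) →+* Γ(X'.left, V)) = (f.left.appLE U V e).hom := by
  let := gAlg X U
  let := gAlg X' V
  refine ⟨{ (f.left.appLE U V e).hom with commutes' := ?_ }, rfl⟩
  intro c
  change (gMap X U ≫ f.left.appLE U V e).hom c = (gMap X' V).hom c
  rw [gMap_appLE]

/-- an affine open set as the spectrum of an algebra -/
noncomputable def jO (X : Over (Spec (CommRingCat.of ℂ))) {W : X.left.Opens}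
    (hW : IsAffineOpen W) :
    letI := gAlg X W
    specO Γ(X.left, W) ⟶ X :=
  letI := gAlg X W
  Over.homMk hW.fromSpec (fromSpec_hom X hW)

theorem jO_isOpenImmersion (X : Over (Spec (CommRingCat.of ℂ))) {W : X.left.Opens}
    (hW : IsAffineOpen W) : IsOpenImmersion (jO X hW).left := by
  change IsOpenImmersion hW.fromSpec
  infer_instance

theorem jO_range (X : Over (Spec (CommRingCat.of ℂ))) {W : X.left.Opens}
    (hW : IsAffineOpen W) : Set.range (jO X hW).left = (W : Set X.left) := by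
  change Set.range hW.fromSpec = _
  rw [IsAffineOpen.range_fromSpec]

theorem jO_comp {X' X : Over (Spec (CommRingCat.of ℂ))} (f : X' ⟶ X) {U : X.left.Opens}
    {V : X'.left.Opens} (hU : IsAffineOpen U) (hV : IsAffineOpen V) (e : V ≤ f.left ⁻¹ᵁ U) :
    letI := gAlg X U
    letI := gAlg X' V
    ∀ ψ : Γ(X.left, U) →ₐ[ℂ] Γ(X'.left, V),
      (ψ : Γ(X.left, U) →+* Γ(X'.left, V)) = (f.left.appLE U V e).hom →
      jO X' hV ≫ f = specMapO ψ ≫ jO X hU := by
  intro ψ hψ
  apply Over.OverMorphism.ext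
  change hV.fromSpec ≫ f.left = Spec.map (CommRingCat.ofHom (ψ : Γ(X.left, U) →+* Γ(X'.left, V))) ≫
    hU.fromSpec
  rw [hψ, ← IsAffineOpen.SpecMap_appLE_fromSpec f.left hU hV e]
  rfl

end FromSpec

end MP8178
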