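import Pool.Agent.Lib_MP_8178ab_ag.Ana.StdEtale
import Pool.Agent.Lib_MP_8178ab_ag.Ana.OpenImm
import Pool.Agent.Lib_MP_8178ab_ag.Ana.FromSpec

/-! # Étale morphisms induce local homeomorphisms on complex points -/

open CategoryTheory Limits AlgebraicGeometry

namespace MP8178

namespace EtaleAux

theorem isOpenEmbedding_away {B : Type} [CommRing B] [Algebra ℂ B] (f : B) :
    Topology.IsOpenEmbedding (fun χ : Localization.Away f →ₐ[ℂ] ℂ =>
      χ.comp (IsScalarTower.toAlgHom ℂ B (Localization.Away f))) := by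
  have h1 : IsOpenImmersion
      (specMapO (IsScalarTower.toAlgHom ℂ B (Localization.Away f))).left := by
    change IsOpenImmersion (Spec.map (CommRingCat.ofHom (algebraMap B (Localization.Away f))))
    exact IsOpenImmersion.of_isLocalization f
  have h2 := (isOpenEmbedding_comp _ h1).comp
    (isHomeomorph_algPt (Localization.Away f)).isOpenEmbedding
  have h3 : ((fun x : ptO ℂ ⟶ specO (Localization.Away f) =>
      x ≫ specMapO (IsScalarTower.toAlgHom ℂ B (Localization.Away f))) ∘ algPt) =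
      algPt ∘ (fun χ : Localization.Away f →ₐ[ℂ] ℂ =>
        χ.comp (IsScalarTower.toAlgHom ℂ B (Localization.Away f))) := by
    funext χ
    exact algPt_comp _ _
  rw [h3] at h2
  exact Topology.IsOpenEmbedding.of_comp _ (isHomeomorph_algPt B).isOpenEmbedding h2

theorem mem_range_away {B : Type} [CommRing B] [Algebra ℂ B] (f : B) (φ : B →ₐ[ℂ] ℂ)
    (hφ : φ f ≠ 0) :
    φ ∈ Set.range (fun χ : Localization.Away f →ₐ[ℂ] ℂ =>
      χ.comp (IsScalarTower.toAlgHom ℂ B (Localization.Away f))) := by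
  have hu : ∀ y : Submonoid.powers f, IsUnit (φ y) := by
    rintro ⟨_, n, rfl⟩
    rw [map_pow]
    exact (IsUnit.mk0 _ hφ).pow n
  refine ⟨IsLocalization.liftAlgHom (M := Submonoid.powers f) (f := φ) hu, ?_⟩
  ext b
  simp

theorem isLocalHomeomorph_of_local {S T : Type*} [TopologicalSpace S] [TopologicalSpace T]
    {g : S → T} (h : ∀ x : S, ∃ (U : Type) (_ : TopologicalSpace U) (f : U → S),
      IsLocalHomeomorph f ∧ IsLocalHomeomorph (g ∘ f) ∧ x ∈ Set.range f) :
    IsLocalHomeomorph g := by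
  intro x
  obtain ⟨U, _, f, hf, hgf, u, rfl⟩ := h x
  exact IsLocalHomeomorphOn.of_comp_right (hgf.isLocalHomeomorphOn (s := Set.univ))
    hf.isLocalHomeomorphOn (f u) ⟨u, trivial, rfl⟩

end EtaleAux

open EtaleAux in
/-- The affine case. -/
theorem isLocalHomeomorph_etale_alg (A B : Type) [CommRing A] [CommRing B] [Algebra ℂ A]
    [Algebra A B] [Algebra ℂ B] [IsScalarTower ℂ A B] [Algebra.Etale A B] :
    IsLocalHomeomorph (fun φ : B →ₐ[ℂ] ℂ => φ.comp (IsScalarTower.toAlgHom ℂ A B)) := by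
  refine isLocalHomeomorph_of_local fun φ => ?_
  have hp : (RingHom.ker (φ : B →+* ℂ)).IsPrime := RingHom.ker_isPrime _
  obtain ⟨f, hf, hst⟩ := Algebra.IsEtaleAt.exists_isStandardEtale (R := A)
    (RingHom.ker (φ : B →+* ℂ))
  have hf' : φ f ≠ 0 := fun h => hf h
  refine ⟨Localization.Away f →ₐ[ℂ] ℂ, inferInstance, _,
    (isOpenEmbedding_away f).isLocalHomeomorph, ?_, mem_range_away f φ hf'⟩
  have htow : IsScalarTower ℂ A (Localization.Away f) := by
    refine IsScalarTower.of_algebraMap_eq fun c => ?_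
    rw [IsScalarTower.algebraMap_apply ℂ B (Localization.Away f),
      IsScalarTower.algebraMap_apply A B (Localization.Away f),
      IsScalarTower.algebraMap_apply ℂ A B]
  have h := isLocalHomeomorph_stdEtale A (Localization.Away f)
  convert h using 1
  funext χ
  ext a
  simp only [Function.comp_apply, AlgHom.comp_apply, IsScalarTower.coe_toAlgHom']
  rw [← IsScalarTower.algebraMap_apply A B (Localization.Away f)]

open FromSpec in
/-- Affine local form of étale morphisms. -/
theorem exists_affine_etale {X' X : Over (Spec (CommRingCat.of ℂ))} (f : X' ⟶ X)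
    (hf : Etale f.left) (v : X'.left) :
    ∃ (A B : Type) (_ : CommRing A) (_ : Algebra ℂ A) (_ : CommRing B) (_ : Algebra ℂ B)
      (_ : Algebra A B) (_ : IsScalarTower ℂ A B) (_ : Algebra.Etale A B)
      (j : specO A ⟶ X) (j' : specO B ⟶ X'),
      IsOpenImmersion j.left ∧ IsOpenImmersion j'.left ∧
      v ∈ Set.range j'.left ∧ j' ≫ f = specMapO (IsScalarTower.toAlgHom ℂ A B) ≫ j := by
  obtain ⟨U, hU, hv, -⟩ := (TopologicalSpace.Opens.isBasis_iff_nbhd.1
    (Scheme.isBasis_affineOpens X.left)) (show f.left v ∈ (⊤ : X.left.Opens) from trivial)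
  have hU' : IsAffineOpen U := hU
  obtain ⟨V, hV, hv', e⟩ := (TopologicalSpace.Opens.isBasis_iff_nbhd.1
    (Scheme.isBasis_affineOpens X'.left)) (show v ∈ f.left ⁻¹ᵁ U from hv)
  have hV' : IsAffineOpen V := hV
  let := gAlg X U
  let := gAlg X' V
  obtain ⟨ψ, hψ⟩ := exists_algHom f U V e
  let : Algebra Γ(X.left, U) Γ(X'.left, V) := (f.left.appLE U V e).hom.toAlgebra
  have htow : IsScalarTower ℂ Γ(X.left, U) Γ(X'.left, V) := by
    refine IsScalarTower.of_algebraMap_eq fun c => ?_
    have := ψ.commutes c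
    rw [← this]
    exact congrArg (fun g : Γ(X.left, U) →+* Γ(X'.left, V) => g (algebraMap ℂ _ c)) hψ
  have het : Algebra.Etale Γ(X.left, U) Γ(X'.left, V) := hf.etale_appLE hU' hV' e
  have hψ' : IsScalarTower.toAlgHom ℂ Γ(X.left, U) Γ(X'.left, V) = ψ := by
    ext a
    exact (congrArg (fun g : Γ(X.left, U) →+* Γ(X'.left, V) => g a) hψ).symm
  refine ⟨Γ(X.left, U), Γ(X'.left, V), inferInstance, inferInstance, inferInstance,
    inferInstance, inferInstance, htow, het, jO X hU', jO X' hV', jO_isOpenImmersion X hU',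
    jO_isOpenImmersion X' hV', ?_, ?_⟩
  · rw [jO_range]
    exact hv'
  · rw [hψ']
    exact jO_comp f hU' hV' e ψ hψ

open EtaleAux in
theorem isLocalHomeomorph_comp {X' X : Over (Spec (CommRingCat.of ℂ))} (f : X' ⟶ X)
    (hf : Etale f.left) : IsLocalHomeomorph (fun x : ptO ℂ ⟶ X' => x ≫ f) := by
  refine isLocalHomeomorph_of_local fun x => ?_
  obtain ⟨A, B, _, _, _, _, _, _, _, j, j', hj, hj', hv, hcomm⟩ :=
    exists_affine_etale f hf (x.left (IsLocalRing.closedPoint ℂ))
  have hJ := (isOpenEmbedding_comp j hj).comp (isHomeomorph_algPt A).isOpenEmbedding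
  have hJ' := (isOpenEmbedding_comp j' hj').comp (isHomeomorph_algPt B).isOpenEmbedding
  obtain ⟨b, hb⟩ := exists_lift_pt j' hj' x hv
  obtain ⟨φ, rfl⟩ := (algPt_bijective B).2 b
  refine ⟨B →ₐ[ℂ] ℂ, inferInstance, _, hJ'.isLocalHomeomorph, ?_, ⟨φ, hb⟩⟩
  have h := hJ.isLocalHomeomorph.comp (isLocalHomeomorph_etale_alg A B)
  convert h using 1
  funext χ
  change (algPt χ ≫ j') ≫ f = algPt (χ.comp (IsScalarTower.toAlgHom ℂ A B)) ≫ j
  rw [Category.assoc, hcomm, ← Category.assoc, algPt_comp]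

end MP8178
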