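import Pool.Agent.Lib_MP_8178ab_ag.Ana.DPath
import Pool.Agent.Lib_MP_8178ab_ag.Ana.Etale
import Pool.Agent.Lib_MP_8178ab_ag.Ana.CoordsDef

/-! # Étale coordinates of complex points -/

open Polynomial

namespace MP8178

section

variable {n : ℕ} {B : Type} [CommRing B] [Algebra ℂ B] [Algebra (MvPolynomial (Fin n) ℂ) B]
  [IsScalarTower ℂ (MvPolynomial (Fin n) ℂ) B]

/-- the complex points of affine space -/
noncomputable def affHomeo (n : ℕ) : (MvPolynomial (Fin n) ℂ →ₐ[ℂ] ℂ) ≃ₜ (Fin n → ℂ) where
  toFun φ := fun i => φ (MvPolynomial.X i)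
  invFun z := MvPolynomial.aeval z
  left_inv φ := by
    apply MvPolynomial.algHom_ext
    intro i
    simp
  right_inv z := by
    funext i
    simp
  continuous_toFun := continuous_pi fun i => continuous_alg_apply _
  continuous_invFun := by
    rw [continuous_alg_iff]
    intro p
    exact MvPolynomial.continuous_eval p

/-- the coordinates define a local homeomorphism to `ℂⁿ` for an étale algebra -/
theorem isLocalHomeomorph_coords [Algebra.Etale (MvPolynomial (Fin n) ℂ) B] :
    IsLocalHomeomorph (coords : (B →ₐ[ℂ] ℂ) → (Fin n → ℂ)) := by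
  have h1 := isLocalHomeomorph_etale_alg (MvPolynomial (Fin n) ℂ) B
  have h2 := (affHomeo n).isLocalHomeomorph.comp h1
  exact h2

/-- every point of an étale algebra is joined to a point with `h ≠ 0` -/
theorem exists_joined_DS [Algebra.Etale (MvPolynomial (Fin n) ℂ) B]
    {h : MvPolynomial (Fin n) ℂ} (hh : h ≠ 0) (φ : B →ₐ[ℂ] ℂ) :
    ∃ ψ : B →ₐ[ℂ] ℂ, coords ψ ∈ DS h ∧ Joined φ ψ := by
  obtain ⟨e, he, hce⟩ := (isLocalHomeomorph_coords (n := n) (B := B)) φ
  have hφ : coords (n := n) φ ∈ e.target := by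
    rw [hce]
    exact e.map_source he
  obtain ⟨r, hr, hball⟩ := Metric.isOpen_iff.1 e.open_target _ hφ
  obtain ⟨z, hz1, hz2⟩ := (dense_DS hh).exists_mem_open Metric.isOpen_ball
    ⟨coords (n := n) φ, Metric.mem_ball_self hr⟩
  refine ⟨e.symm z, ?_, ?_⟩
  · have : coords (e.symm z) = z := by
      rw [hce]
      exact e.right_inv (hball hz2)
    rw [this]
    exact hz1
  · have hconv : IsPathConnected (Metric.ball (coords (n := n) φ) r) :=
      (convex_ball (coords (n := n) φ) r).isPathConnected ⟨coords (n := n) φ, Metric.mem_ball_self hr⟩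
    have him : IsPathConnected (e.symm '' Metric.ball (coords (n := n) φ) r) :=
      hconv.image' (e.continuousOn_symm.mono hball)
    have h1 : φ ∈ e.symm '' Metric.ball (coords (n := n) φ) r := by
      refine ⟨coords (n := n) φ, Metric.mem_ball_self hr, ?_⟩
      rw [hce]
      exact e.left_inv he
    exact (him.joinedIn _ h1 _ ⟨z, hz2, rfl⟩).joined

end

end MP8178
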