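import Pool.Agent.Lib_MP_8178ab_ag.Ana.Aff

/-! # Integral homomorphisms induce closed maps on complex points -/

open CategoryTheory Limits AlgebraicGeometry

namespace MP8178

section finiteAlg

open Polynomial Filter Topology

theorem fa_root {p : ℂ[X]} (hp : p.Monic) {B : ℝ} (hB : 0 ≤ B)
    (hc : ∀ i, i < p.natDegree → ‖p.coeff i‖ ≤ B) {z : ℂ} (hz : p.IsRoot z) : ‖z‖ ≤ 1 + B := by
  have h1 : (‖z‖₊ : NNReal) < cauchyBound p := hz.norm_lt_cauchyBound hp.ne_zero
  have h2 : (cauchyBound p : ℝ) ≤ 1 + B := by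
    have h3 : cauchyBound p ≤ Real.toNNReal B + 1 := by
      unfold cauchyBound
      rw [hp.leadingCoeff, nnnorm_one, div_one]
      gcongr
      apply Finset.sup_le
      intro j hj
      rw [← NNReal.coe_le_coe, Real.coe_toNNReal _ hB]
      exact hc j (Finset.mem_range.1 hj)
    have h4 : (cauchyBound p : ℝ) ≤ ((Real.toNNReal B + 1 : NNReal) : ℝ) :=
      NNReal.coe_le_coe.2 h3
    rw [NNReal.coe_add, Real.coe_toNNReal _ hB, NNReal.coe_one] at h4
    linarith
  have h5 : ‖z‖ < (cauchyBound p : ℝ) := by exact_mod_cast h1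
  linarith

theorem fa_closed {A B : Type} [CommRing A] [Algebra ℂ A] [CommRing B]
    [Algebra ℂ B] (ψ : A →ₐ[ℂ] B) (h : (ψ : A →+* B).IsIntegral) :
    IsClosedMap (fun φ : B →ₐ[ℂ] ℂ => φ.comp ψ) := by
  intro Z hZ
  rw [isClosed_iff_ultrafilter]
  intro x u hu hmem
  classical
  -- a section over the image of `Z`
  obtain ⟨y0, φ0, hφ0, -⟩ := u.nonempty_of_mem hmem
  have hsec : ∀ y : A →ₐ[ℂ] ℂ, ∃ φ : B →ₐ[ℂ] ℂ,
      y ∈ (fun φ : B →ₐ[ℂ] ℂ => φ.comp ψ) '' Z → φ ∈ Z ∧ φ.comp ψ = y := by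
    intro y
    by_cases hy : y ∈ (fun φ : B →ₐ[ℂ] ℂ => φ.comp ψ) '' Z
    · obtain ⟨φ, h1, h2⟩ := hy
      exact ⟨φ, fun _ => ⟨h1, h2⟩⟩
    · exact ⟨φ0, fun h => absurd h hy⟩
  choose s hs using hsec
  have hev : ∀ᶠ y in (u : Filter (A →ₐ[ℂ] ℂ)), s y ∈ Z ∧ (s y).comp ψ = y :=
    mem_of_superset hmem fun y hy => hs y hy
  -- convergence of the coordinates
  have hA : ∀ a : A, Tendsto (fun y : A →ₐ[ℂ] ℂ => y a) u (𝓝 (x a)) := fun a =>
    ((continuous_alg_apply a).tendsto x).mono_left hu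
  have hlim : ∀ b : B, ∃ c : ℂ, Tendsto (fun y : A →ₐ[ℂ] ℂ => s y b) u (𝓝 c) := by
    intro b
    obtain ⟨q, hq, hqb⟩ := h b
    have hbd : ∀ᶠ y in (u : Filter (A →ₐ[ℂ] ℂ)),
        ∀ i ∈ Finset.range q.natDegree, ‖y (q.coeff i)‖ < ‖x (q.coeff i)‖ + 1 := by
      rw [eventually_all_finset]
      intro i _
      exact ((hA (q.coeff i)).norm).eventually (gt_mem_nhds (lt_add_one _))
    set C : ℝ := ∑ i ∈ Finset.range q.natDegree, (‖x (q.coeff i)‖ + 1) with hC
    have hC0 : 0 ≤ C := Finset.sum_nonneg fun i _ => by positivity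
    have hball : ∀ᶠ y in (u : Filter (A →ₐ[ℂ] ℂ)), s y b ∈ Metric.closedBall (0 : ℂ) (1 + C) := by
      filter_upwards [hev, hbd] with y hy1 hy2
      rw [mem_closedBall_zero_iff]
      have hm : (q.map (y : A →+* ℂ)).Monic := hq.map _
      apply fa_root hm hC0
      · intro i hi
        rw [hq.natDegree_map] at hi
        rw [coeff_map]
        refine (hy2 i (Finset.mem_range.2 hi)).le.trans ?_
        exact Finset.single_le_sum (f := fun i => ‖x (q.coeff i)‖ + 1)
          (fun j _ => by positivity) (Finset.mem_range.2 hi)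
      · unfold IsRoot
        rw [Polynomial.eval_map]
        have e1 : (y : A →+* ℂ) = (s y : B →+* ℂ).comp (ψ : A →+* B) := by
          ext a
          exact (DFunLike.congr_fun hy1.2 a).symm
        rw [e1]
        have e2 := hom_eval₂ q (ψ : A →+* B) (s y : B →+* ℂ) b
        rw [hqb, map_zero] at e2
        exact e2.symm
    obtain ⟨c, _, hc⟩ := (isCompact_closedBall (0 : ℂ) (1 + C)).ultrafilter_le_nhds
      (u.map fun y : A →ₐ[ℂ] ℂ => s y b) (le_principal_iff.2 hball)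
    exact ⟨c, hc⟩
  choose L hL using hlim
  have hL1 : L 1 = 1 := tendsto_nhds_unique (hL 1) (by simp)
  have hL0 : L 0 = 0 := tendsto_nhds_unique (hL 0) (by simp)
  have hLm : ∀ a b, L (a * b) = L a * L b := fun a b =>
    tendsto_nhds_unique (hL (a * b)) (by
      simp only [map_mul]
      exact (hL a).mul (hL b))
  have hLa : ∀ a b, L (a + b) = L a + L b := fun a b =>
    tendsto_nhds_unique (hL (a + b)) (by
      simp only [map_add]
      exact (hL a).add (hL b))
  have hLc : ∀ c : ℂ, L (algebraMap ℂ B c) = algebraMap ℂ ℂ c := fun c =>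
    tendsto_nhds_unique (hL (algebraMap ℂ B c)) (by
      simp only [AlgHom.commutes]
      exact tendsto_const_nhds)
  let Λ : B →ₐ[ℂ] ℂ :=
    { toFun := L
      map_one' := hL1
      map_mul' := hLm
      map_zero' := hL0
      map_add' := hLa
      commutes' := hLc }
  have hconv : Tendsto s u (𝓝 Λ) := by
    rw [nhds_induced, tendsto_comap_iff, tendsto_pi_nhds]
    exact hL
  have hΛZ : Λ ∈ Z := hZ.mem_of_tendsto hconv (hev.mono fun y hy => hy.1)
  refine ⟨Λ, hΛZ, ?_⟩
  apply AlgHom.ext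
  intro a
  refine tendsto_nhds_unique (hL (ψ a)) ?_
  refine (hA a).congr' ?_
  filter_upwards [hev] with y hy
  exact (DFunLike.congr_fun hy.2 a).symm

end finiteAlg

/-- Integral homomorphisms induce closed maps on complex points. -/
theorem isClosedMap_alg_of_integral {A B : Type} [CommRing A] [Algebra ℂ A] [CommRing B]
    [Algebra ℂ B] (ψ : A →ₐ[ℂ] B) (h : (ψ : A →+* B).IsIntegral) :
    IsClosedMap (fun φ : B →ₐ[ℂ] ℂ => φ.comp ψ) :=
  fa_closed ψ h

end MP8178
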