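import Pool.Agent.Lib_MP_8178ab_ag.Ana.OpenImm
import Pool.Agent.Lib_MP_8178ab_ag.Ana.FiniteAlg
import Pool.Agent.Lib_MP_8178ab_ag.Ana.FromSpec

/-! # Finite morphisms induce closed maps on complex points -/

open CategoryTheory Limits AlgebraicGeometry

namespace MP8178

open FromSpec in
/-- Affine local form of finite morphisms. -/
theorem exists_affine_finite {X' X : Over (Spec (CommRingCat.of ℂ))} (f : X' ⟶ X)
    (hf : IsFinite f.left) (v : X.left) :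
    ∃ (A B : Type) (_ : CommRing A) (_ : Algebra ℂ A) (_ : CommRing B) (_ : Algebra ℂ B)
      (ψ : A →ₐ[ℂ] B) (j : specO A ⟶ X) (j' : specO B ⟶ X'),
      (ψ : A →+* B).Finite ∧ IsOpenImmersion j.left ∧ IsOpenImmersion j'.left ∧
      v ∈ Set.range j.left ∧ j' ≫ f = specMapO ψ ≫ j ∧
      Set.range j'.left = f.left ⁻¹' Set.range j.left := by
  obtain ⟨U, hU, hv, -⟩ := (TopologicalSpace.Opens.isBasis_iff_nbhd.1
    (Scheme.isBasis_affineOpens X.left)) (show v ∈ (⊤ : X.left.Opens) from trivial)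
  have hU' : IsAffineOpen U := hU
  have hV : IsAffineOpen (f.left ⁻¹ᵁ U) := hU'.preimage f.left
  let := gAlg X U
  let := gAlg X' (f.left ⁻¹ᵁ U)
  obtain ⟨ψ, hψ⟩ := exists_algHom f U (f.left ⁻¹ᵁ U) le_rfl
  refine ⟨Γ(X.left, U), Γ(X'.left, f.left ⁻¹ᵁ U), inferInstance, inferInstance, inferInstance,
    inferInstance, ψ, jO X hU', jO X' hV, ?_, jO_isOpenImmersion X hU', jO_isOpenImmersion X' hV,
    ?_, jO_comp f hU' hV le_rfl ψ hψ, ?_⟩
  · rw [hψ, Scheme.Hom.appLE_eq_app]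
    exact hf.finite_app U hU'
  · rw [jO_range]
    exact hv
  · rw [jO_range, jO_range]
    rfl

theorem isClosedMap_comp {X' X : Over (Spec (CommRingCat.of ℂ))} (f : X' ⟶ X)
    (hf : IsFinite f.left) : IsClosedMap (fun x : ptO ℂ ⟶ X' => x ≫ f) := by
  intro C hC
  rw [← isOpen_compl_iff, isOpen_iff_mem_nhds]
  intro x hx
  obtain ⟨A, B, _, _, _, _, ψ, j, j', hψ, hj, hj', hv, hcomm, hrange⟩ :=
    exists_affine_finite f hf (x.left (IsLocalRing.closedPoint ℂ))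
  have hJ := (isOpenEmbedding_comp j hj).comp (isHomeomorph_algPt A).isOpenEmbedding
  have hJ' : Continuous fun φ : B →ₐ[ℂ] ℂ => algPt φ ≫ j' :=
    (continuous_comp j').comp (isHomeomorph_algPt B).continuous
  have hcl := isClosedMap_alg_of_integral ψ hψ.to_isIntegral _ (hC.preimage hJ')
  have key : ∀ φ : A →ₐ[ℂ] ℂ, algPt φ ≫ j ∈ (fun x : ptO ℂ ⟶ X' => x ≫ f) '' C →
      φ ∈ (fun φ : B →ₐ[ℂ] ℂ => φ.comp ψ) '' ((fun φ : B →ₐ[ℂ] ℂ => algPt φ ≫ j') ⁻¹' C) := by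
    rintro φ ⟨y, hy, hyφ⟩
    have hy1 : f.left (y.left (IsLocalRing.closedPoint ℂ)) =
        j.left ((algPt φ).left (IsLocalRing.closedPoint ℂ)) := by
      have := congrArg (fun z : ptO ℂ ⟶ X => z.left (IsLocalRing.closedPoint ℂ)) hyφ
      exact this
    have hy2 : y.left (IsLocalRing.closedPoint ℂ) ∈ Set.range j'.left := by
      rw [hrange, Set.mem_preimage, hy1]
      exact ⟨_, rfl⟩
    obtain ⟨z, hz⟩ := exists_lift_pt j' hj' y hy2
    obtain ⟨χ, rfl⟩ := (algPt_bijective B).2 z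
    refine ⟨χ, ?_, ?_⟩
    · change algPt χ ≫ j' ∈ C
      rw [hz]
      exact hy
    · apply hJ.injective
      change algPt (χ.comp ψ) ≫ j = algPt φ ≫ j
      rw [← hyφ, ← hz]
      change algPt (χ.comp ψ) ≫ j = (algPt χ ≫ j') ≫ f
      rw [Category.assoc, hcomm, ← algPt_comp, Category.assoc]
  obtain ⟨a, ha⟩ := exists_lift_pt j hj x hv
  obtain ⟨φ₀, rfl⟩ := (algPt_bijective A).2 a
  have hop := hJ.isOpenMap _ hcl.isOpen_compl
  refine Filter.mem_of_superset (hop.mem_nhds ⟨φ₀, ?_, ha⟩) ?_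
  · rintro ⟨χ, hχ, hχφ⟩
    apply hx
    refine ⟨algPt χ ≫ j', hχ, ?_⟩
    change (algPt χ ≫ j') ≫ f = x
    rw [← ha, ← hχφ, Category.assoc, hcomm, ← Category.assoc, algPt_comp]
  · rintro _ ⟨φ, hφ, rfl⟩ hC'
    exact hφ (key φ hC')

end MP8178
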