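import Pool.Agent.Lib_MP_8178ab_ag.Ana.Prod

/-! # The complex points of a separated scheme form a Hausdorff space -/

open CategoryTheory Limits AlgebraicGeometry

namespace MP8178

namespace Haus

variable (X : Over (Spec (CommRingCat.of ℂ)))

/-- The product `X ×_ℂ X`. -/
noncomputable abbrev XX : Over (Spec (CommRingCat.of ℂ)) :=
  Over.mk (pullback.fst X.hom X.hom ≫ X.hom)

/-- first projection -/
noncomputable abbrev p1 : XX X ⟶ X := Over.homMk (pullback.fst X.hom X.hom) rfl

/-- second projection -/
noncomputable abbrev p2 : XX X ⟶ X :=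
  Over.homMk (pullback.snd X.hom X.hom) pullback.condition.symm

theorem isLimit_XX : Nonempty (IsLimit (BinaryFan.mk (p1 X) (p2 X))) := by
  refine ⟨BinaryFan.IsLimit.mk _ (fun {T} f g => Over.homMk (pullback.lift f.left g.left
    (by rw [Over.w, Over.w])) ?_) ?_ ?_ ?_⟩
  · change pullback.lift f.left g.left _ ≫ pullback.fst X.hom X.hom ≫ X.hom = T.hom
    rw [pullback.lift_fst_assoc, Over.w]
  · intro T f g
    apply Over.OverMorphism.ext
    exact pullback.lift_fst _ _ _
  · intro T f g
    apply Over.OverMorphism.ext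
    exact pullback.lift_snd _ _ _
  · intro T f g m hf hg
    apply Over.OverMorphism.ext
    change m.left = pullback.lift f.left g.left _
    refine pullback.hom_ext ?_ ?_
    · rw [pullback.lift_fst, ← hf]
      rfl
    · rw [pullback.lift_snd, ← hg]
      rfl

/-- The complement of the diagonal. -/
noncomputable def W (h : IsSeparated X.hom) : (XX X).left.Opens :=
  ⟨(Set.range (pullback.diagonal X.hom))ᶜ,
    ((Scheme.Hom.isClosedEmbedding (pullback.diagonal X.hom)).isClosed_range).isOpen_compl⟩

theorem mem_anSet_W (h : IsSeparated X.hom) (z : ptO ℂ ⟶ XX X) :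
    z ∈ anSet (W X h) 0 Set.univ ↔ z ≫ p1 X ≠ z ≫ p2 X := by
  have key : z ∈ anSet (W X h) 0 Set.univ ↔
      z.left (IsLocalRing.closedPoint ℂ) ∉ Set.range (pullback.diagonal X.hom) := by
    constructor
    · rintro ⟨h1, _⟩
      exact h1 (Set.mem_univ (IsLocalRing.closedPoint ℂ : Spec (CommRingCat.of ℂ)))
    · intro h1
      refine ⟨?_, Set.mem_univ _⟩
      intro y _
      have hs : Subsingleton (PrimeSpectrum ℂ) := inferInstance
      have : y = (IsLocalRing.closedPoint ℂ : PrimeSpectrum ℂ) := hs.elim _ _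
      rw [this]
      exact h1
  rw [key, not_iff_not]
  constructor
  · rintro ⟨x, hx⟩
    obtain ⟨w, hw⟩ := Scheme.Pullback.exists_preimage_pullback
      (f := z.left) (g := pullback.diagonal X.hom) (IsLocalRing.closedPoint ℂ) x hx.symm
    have hred : IsReduced (ptO ℂ).left := by
      change IsReduced (Spec (CommRingCat.of ℂ))
      infer_instance
    have hsurj : Surjective (pullback.fst z.left (pullback.diagonal X.hom)) := by
      refine ⟨fun y => ⟨w, ?_⟩⟩
      have hs : Subsingleton (PrimeSpectrum ℂ) := inferInstance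
      exact hs.elim _ _
    have hiso : IsIso (pullback.fst z.left (pullback.diagonal X.hom)) :=
      isIso_of_isClosedImmersion_of_surjective _
    have hz : z.left = inv (pullback.fst z.left (pullback.diagonal X.hom)) ≫
        pullback.snd z.left (pullback.diagonal X.hom) ≫ pullback.diagonal X.hom := by
      rw [← pullback.condition, IsIso.inv_hom_id_assoc]
    apply Over.OverMorphism.ext
    change z.left ≫ pullback.fst X.hom X.hom = z.left ≫ pullback.snd X.hom X.hom
    rw [hz]
    simp only [Category.assoc, pullback.diagonal_fst, pullback.diagonal_snd]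
  · intro hz
    have h1 : z.left ≫ pullback.fst X.hom X.hom = z.left ≫ pullback.snd X.hom X.hom :=
      congrArg (fun f => f.left) hz
    have h2 : z.left = (z.left ≫ pullback.fst X.hom X.hom) ≫ pullback.diagonal X.hom := by
      refine pullback.hom_ext ?_ ?_
      · rw [Category.assoc, pullback.diagonal_fst, Category.comp_id]
      · rw [Category.assoc, pullback.diagonal_snd, Category.comp_id, h1]
    rw [h2]
    exact ⟨_, (Scheme.Hom.comp_apply _ _ _).symm⟩

end Haus

theorem t2Space_pt (X : Over (Spec (CommRingCat.of ℂ))) (h : IsSeparated X.hom) :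
    T2Space (ptO ℂ ⟶ X) := by
  rw [t2_iff_isClosed_diagonal]
  have hh := isHomeomorph_prod (Haus.p1 X) (Haus.p2 X) (Haus.isLimit_XX X)
  rw [← hh.isQuotientMap.isClosed_preimage]
  rw [← isOpen_compl_iff]
  have : ((fun z : ptO ℂ ⟶ Haus.XX X => ((z ≫ Haus.p1 X, z ≫ Haus.p2 X) :
      (ptO ℂ ⟶ X) × (ptO ℂ ⟶ X))) ⁻¹' Set.diagonal (ptO ℂ ⟶ X))ᶜ =
      anSet (Haus.W X h) 0 Set.univ := by
    ext z
    rw [Haus.mem_anSet_W]
    simp only [Set.mem_compl_iff, Set.mem_preimage, Set.mem_diagonal_iff, ne_eq]
  rw [this]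
  exact isOpen_anSet _ _ isOpen_univ

end MP8178
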