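import Pool.Agent.Lib_MP_8178ab_ag.Ana.Etale
import Pool.Agent.Lib_MP_8178ab_ag.Ana.Finite
import Pool.Agent.Lib_MP_8178ab_ag.Ana.Haus
import Pool.Agent.Lib_MP_8178ab_ag.GFib

/-! # Finite étale morphisms induce covering maps; products; the lifting property -/

open CategoryTheory Limits AlgebraicGeometry

namespace MP8178

section

variable {E B : Type*} [TopologicalSpace E] [TopologicalSpace B] {p : E → B}

theorem map_cast_eq {x y : E} {x₀ y₀ : B} (f : C(E, B)) (hx : x₀ = f x) (hy : y₀ = f y)
    (a : Path.Homotopic.Quotient x y) (b : Path.Homotopic.Quotient x₀ y₀)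
    (h : (a.map f) = b.cast hx.symm hy.symm) : (a.map f).cast hx hy = b := by
  subst hx hy
  rw [h]
  simp

/-- unique lifting of homotopy classes of paths along a covering map -/
theorem existsUnique_lift_of_isCoveringMap (cov : IsCoveringMap p) (x' : E) (x y : B)
    (hx : p x' = x) (a : Path.Homotopic.Quotient x y) :
    ∃! b : (Σ y' : E, Path.Homotopic.Quotient x' y'), ∃ hy : p b.1 = y,
      (b.2.map ⟨p, cov.continuous⟩).cast hx.symm hy.symm = a := by
  subst hx
  refine ⟨⟨(cov.monodromy a ⟨x', rfl⟩).1, cov.liftPathQuotient a ⟨x', rfl⟩⟩,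
    ⟨(cov.monodromy a ⟨x', rfl⟩).2, ?_⟩, ?_⟩
  · apply map_cast_eq
    exact cov.map_liftPathQuotient a ⟨x', rfl⟩
  · rintro ⟨y', b⟩ ⟨hy, hb⟩
    dsimp only at hy hb
    subst hy
    have hb' : b.map ⟨p, cov.continuous⟩ = a := by
      rw [← hb, Path.Homotopic.Quotient.cast_rfl_rfl]
    subst hb'
    have hm : (cov.monodromy (b.map ⟨p, cov.continuous⟩) ⟨x', rfl⟩) = ⟨y', rfl⟩ :=
      cov.monodromy_map b
    have hl := cov.map_liftPathQuotient (b.map ⟨p, cov.continuous⟩) ⟨x', rfl⟩
    revert hl
    generalize cov.liftPathQuotient (b.map ⟨p, cov.continuous⟩) ⟨x', rfl⟩ = c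
    revert c
    rw [hm]
    intro c hc
    have h1 : c.map ⟨p, cov.continuous⟩ = b.map ⟨p, cov.continuous⟩ :=
      hc.trans (Path.Homotopic.Quotient.cast_rfl_rfl _)
    have h2 : c = b := cov.injective_path_homotopic_map _ _ h1
    rw [h2]

/-- homotopy classes of paths in a product -/
theorem bijective_prod {Z X Y : Type*} [TopologicalSpace Z] [TopologicalSpace X]
    [TopologicalSpace Y] (p : C(Z, X)) (q : C(Z, Y))
    (h : IsHomeomorph fun z => (p z, q z)) (z z' : Z) :
    Function.Bijective (fun a : Path.Homotopic.Quotient z z' =>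
      (a.map p, a.map q)) := by
  let e : Z ≃ₜ X × Y := h.homeomorph _
  have he : ∀ z, e z = (p z, q z) := fun z => rfl
  have hs : ∀ w, (p (e.symm w), q (e.symm w)) = w := fun w => e.apply_symm_apply w
  constructor
  · intro a b hab
    induction a using Path.Homotopic.Quotient.ind with
    | mk a =>
      induction b using Path.Homotopic.Quotient.ind with
      | mk b =>
        simp only [Prod.mk.injEq, ← Path.Homotopic.Quotient.mk_map,
          Path.Homotopic.Quotient.eq] at hab
        rw [Path.Homotopic.Quotient.eq]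
        obtain ⟨⟨F⟩, ⟨G⟩⟩ := hab
        have H := (Path.Homotopic.prodHomotopy F G).map ⟨e.symm, e.symm.continuous⟩
        refine ⟨(H.pathCast (e.symm_apply_apply z).symm (e.symm_apply_apply z').symm).cast ?_ ?_⟩
        · ext t
          exact (e.symm_apply_apply _)
        · ext t
          exact (e.symm_apply_apply _)
  · rintro ⟨a, b⟩
    induction a using Path.Homotopic.Quotient.ind with
    | mk a =>
      induction b using Path.Homotopic.Quotient.ind with
      | mk b =>
        refine ⟨Path.Homotopic.Quotient.mk (((a.prod b).map e.symm.continuous).cast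
          (e.symm_apply_apply z).symm (e.symm_apply_apply z').symm), ?_⟩
        simp only [← Path.Homotopic.Quotient.mk_map, Prod.mk.injEq]
        constructor
        · refine congrArg _ (Path.ext (funext fun t => ?_))
          exact congrArg Prod.fst (hs (a t, b t))
        · refine congrArg _ (Path.ext (funext fun t => ?_))
          exact congrArg Prod.snd (hs (a t, b t))

end

theorem isCoveringMap_comp {X' X : Var ℂ} (f : X'.obj ⟶ X.obj)
    (hf : IsFinite f.left) (he : Etale f.left) :
    IsCoveringMap (fun x : Pt X' => x ≫ f) := by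
  have := t2Space_pt X'.obj X'.separated
  rw [isCoveringMap_iff_isCoveringMapOn_univ]
  refine (isClosedMap_comp f hf).isCoveringMapOn_of_isLocalHomeomorphOn ?_ ?_
  · intro x _
    exact Set.finite_coe_iff.1 (finite_fiber f hf x)
  · exact (isLocalHomeomorph_comp f he).isLocalHomeomorphOn

theorem piTop_prod {X Y Z : Var ℂ} (p : Z.obj ⟶ X.obj) (q : Z.obj ⟶ Y.obj)
    (h : Nonempty (IsLimit (BinaryFan.mk p q))) (z z' : Pt Z) :
    Function.Bijective (fun a : piTop.Hom Z z z' =>
      ((piTop.map p rfl rfl a : piTop.Hom X (z ≫ p) (z' ≫ p)),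
        (piTop.map q rfl rfl a : piTop.Hom Y (z ≫ q) (z' ≫ q)))) := by
  have key := bijective_prod (ptMap p) (ptMap q) (isHomeomorph_prod p q h) z z'
  have heq : (fun a : piTop.Hom Z z z' =>
      ((piTop.map p rfl rfl a : piTop.Hom X (z ≫ p) (z' ≫ p)),
        (piTop.map q rfl rfl a : piTop.Hom Y (z ≫ q) (z' ≫ q)))) =
      (fun a : Path.Homotopic.Quotient z z' => (a.map (ptMap p), a.map (ptMap q))) := by
    funext a
    exact Prod.ext (Path.Homotopic.Quotient.cast_rfl_rfl _)
      (Path.Homotopic.Quotient.cast_rfl_rfl _)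
  rw [heq]
  exact key

theorem piTop_lift {X' X : Var ℂ} (f : X'.obj ⟶ X.obj) (hf : IsFinite f.left)
    (he : Etale f.left) (x' : Pt X') (x y : Pt X) (hx : x' ≫ f = x) (a : piTop.Hom X x y) :
    ∃! b : (Σ y' : Pt X', piTop.Hom X' x' y'), ∃ hy : b.1 ≫ f = y,
      piTop.map f hx hy b.2 = a := by
  have hc := isCoveringMap_comp f hf he
  exact existsUnique_lift_of_isCoveringMap hc x' x y hx a

end MP8178
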