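import Pool.Agent.Lib_MP_8178ab_ag.Ana.Poly
import Pool.Agent.Lib_MP_2d36f7_ag.PathConn

/-! # The complement of a hypersurface in `ℂⁿ` is dense and path connected -/

open Polynomial

namespace MP8178

variable {n : ℕ}

/-- the restriction of a polynomial to a complex line -/
noncomputable def lineP (h : MvPolynomial (Fin n) ℂ) (z₀ z₁ : Fin n → ℂ) : ℂ[X] :=
  MvPolynomial.aeval (fun i => C (z₀ i) + X * C (z₁ i - z₀ i)) h

theorem lineP_eval (h : MvPolynomial (Fin n) ℂ) (z₀ z₁ : Fin n → ℂ) (t : ℂ) :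
    (lineP h z₀ z₁).eval t = MvPolynomial.eval (fun i => z₀ i + t * (z₁ i - z₀ i)) h := by
  unfold lineP
  induction h using MvPolynomial.induction_on with
  | C a => simp
  | add p q hp hq => rw [map_add, eval_add, hp, hq, map_add]
  | mul_X p i hp =>
    rw [map_mul, eval_mul, hp, map_mul, MvPolynomial.aeval_X, MvPolynomial.eval_X]
    simp

theorem lineP_finite {h : MvPolynomial (Fin n) ℂ} {z₀ z₁ : Fin n → ℂ} (h₁ : z₁ ∈ DS h) :
    {t : ℂ | (lineP h z₀ z₁).eval t = 0}.Finite := by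
  have hne : lineP h z₀ z₁ ≠ 0 := by
    intro h0
    have := lineP_eval h z₀ z₁ 1
    rw [h0, eval_zero] at this
    apply h₁
    rw [this]
    congr 2
    ext i
    ring
  refine (Finset.finite_toSet (lineP h z₀ z₁).roots.toFinset).subset fun t ht => ?_
  simp only [Finset.mem_coe, Multiset.mem_toFinset]
  exact (mem_roots hne).2 ht

theorem exists_mem_DS {h : MvPolynomial (Fin n) ℂ} (hh : h ≠ 0) : ∃ z, z ∈ DS h := by
  by_contra hc
  push Not at hc
  apply hh
  apply MvPolynomial.funext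
  intro z
  have := hc z
  unfold DS at this
  simpa using this

theorem dense_DS {h : MvPolynomial (Fin n) ℂ} (hh : h ≠ 0) : Dense (DS h) := by
  intro z₀
  obtain ⟨z₁, h₁⟩ := exists_mem_DS hh
  let γ : ℂ → (Fin n → ℂ) := fun t i => z₀ i + t * (z₁ i - z₀ i)
  have hγ : Continuous γ := by
    refine continuous_pi fun i => ?_
    fun_prop
  have hf := lineP_finite (z₀ := z₀) h₁
  have hd : Dense {t : ℂ | (lineP h z₀ z₁).eval t = 0}ᶜ := hf.countable.dense_compl ℝ
  have h0 : (0 : ℂ) ∈ closure {t : ℂ | (lineP h z₀ z₁).eval t = 0}ᶜ := hd 0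
  have h2 : γ 0 ∈ closure (γ '' {t : ℂ | (lineP h z₀ z₁).eval t = 0}ᶜ) :=
    image_closure_subset_closure_image hγ ⟨0, h0, rfl⟩
  have h3 : γ 0 = z₀ := by
    ext i
    simp [γ]
  rw [h3] at h2
  refine closure_mono ?_ h2
  rintro _ ⟨t, ht, rfl⟩
  intro hc
  exact ht ((lineP_eval h z₀ z₁ t).trans hc)

theorem isPathConnected_DS {h : MvPolynomial (Fin n) ℂ} (hh : h ≠ 0) :
    IsPathConnected (DS h) := by
  obtain ⟨z, hz⟩ := exists_mem_DS hh
  rw [isPathConnected_iff]
  refine ⟨⟨z, hz⟩, fun z₀ h₀ z₁ h₁ => ?_⟩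
  let γ : ℂ → (Fin n → ℂ) := fun t i => z₀ i + t * (z₁ i - z₀ i)
  have hγ : Continuous γ := by
    refine continuous_pi fun i => ?_
    fun_prop
  have hf := lineP_finite (z₀ := z₀) h₁
  have hp : IsPathConnected {t : ℂ | (lineP h z₀ z₁).eval t = 0}ᶜ := by
    refine hf.countable.isPathConnected_compl_of_one_lt_rank ?_
    rw [Complex.rank_real_complex]
    norm_num
  have e0 : γ 0 = z₀ := by
    ext i
    simp [γ]
  have e1 : γ 1 = z₁ := by
    ext i
    simp [γ]
  have hp2 : IsPathConnected (γ '' {t : ℂ | (lineP h z₀ z₁).eval t = 0}ᶜ) := hp.image hγ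
  have m0 : z₀ ∈ γ '' {t : ℂ | (lineP h z₀ z₁).eval t = 0}ᶜ := by
    refine ⟨0, ?_, e0⟩
    intro hc
    apply h₀
    have := (lineP_eval h z₀ z₁ 0).symm.trans hc
    rw [← this]
    congr 2
    ext i
    ring
  have m1 : z₁ ∈ γ '' {t : ℂ | (lineP h z₀ z₁).eval t = 0}ᶜ := by
    refine ⟨1, ?_, e1⟩
    intro hc
    apply h₁
    have := (lineP_eval h z₀ z₁ 1).symm.trans hc
    rw [← this]
    congr 2
    ext i
    ring
  refine (hp2.joinedIn z₀ m0 z₁ m1).mono ?_
  rintro _ ⟨t, ht, rfl⟩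
  intro hc
  exact ht ((lineP_eval h z₀ z₁ t).trans hc)

end MP8178
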