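import Pool.Agent.Lib_MP_8178ab_ag.Strict

/-!
# The analytic topology on the complex points of a scheme over `ℂ`, and the topological
fundamental groupoid
-/

open CategoryTheory Limits AlgebraicGeometry

namespace MP8178

section

variable {X Y : Over (Spec (CommRingCat.of ℂ))}

/-- The value at the complex point `x` of a regular function on a Zariski open set `U`
containing `x`. -/
noncomputable def ev (x : ptO ℂ ⟶ X) (U : X.left.Opens) (h : ⊤ ≤ x.left ⁻¹ᵁ U) :
    Γ(X.left, U) →+* ℂ :=
  (x.left.appLE U ⊤ h ≫ (Scheme.ΓSpecIso (CommRingCat.of ℂ)).hom).hom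

/-- The set of complex points `x` of the Zariski open set `U` with `g(x) ∈ O`. -/
def anSet (U : X.left.Opens) (g : Γ(X.left, U)) (O : Set ℂ) : Set (ptO ℂ ⟶ X) :=
  {x | ∃ h : ⊤ ≤ x.left ⁻¹ᵁ U, ev x U h g ∈ O}

/-- The analytic topology on `X(ℂ)`: it is generated by the sets `{x ∈ U(ℂ) | g(x) ∈ O}`, for
`U` Zariski open in `X`, `g` a regular function on `U` and `O` open in `ℂ`. -/
instance anTop (X : Over (Spec (CommRingCat.of ℂ))) : TopologicalSpace (ptO ℂ ⟶ X) :=
  TopologicalSpace.generateFrom
    {S | ∃ (U : X.left.Opens) (g : Γ(X.left, U)) (O : Set ℂ), IsOpen O ∧ S = anSet U g O}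

theorem isOpen_anSet (U : X.left.Opens) (g : Γ(X.left, U)) {O : Set ℂ} (hO : IsOpen O) :
    IsOpen (anSet U g O) :=
  TopologicalSpace.isOpen_generateFrom_of_mem ⟨U, g, O, hO, rfl⟩

theorem ev_comp (x : ptO ℂ ⟶ X) (f : X ⟶ Y) (U : Y.left.Opens)
    (h : ⊤ ≤ (x ≫ f).left ⁻¹ᵁ U) (g : Γ(Y.left, U)) :
    ev (x ≫ f) U h g = ev x (f.left ⁻¹ᵁ U) h (f.left.app U g) := by
  have h1 : (x ≫ f).left.appLE U ⊤ h = f.left.app U ≫ x.left.appLE _ ⊤ h := by
    exact Scheme.Hom.comp_appLE x.left f.left U ⊤ h
  change ((x ≫ f).left.appLE U ⊤ h ≫ (Scheme.ΓSpecIso (CommRingCat.of ℂ)).hom).hom g = _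
  rw [h1]
  rfl

/-- Morphisms are continuous for the analytic topology. -/
theorem continuous_comp (f : X ⟶ Y) : Continuous (fun x : ptO ℂ ⟶ X => x ≫ f) := by
  refine continuous_generateFrom_iff.2 ?_
  rintro _ ⟨U, g, O, hO, rfl⟩
  have : (fun x : ptO ℂ ⟶ X => x ≫ f) ⁻¹' anSet U g O = anSet (f.left ⁻¹ᵁ U) (f.left.app U g) O := by
    ext x
    constructor
    · rintro ⟨h, hx⟩
      exact ⟨h, by rwa [ev_comp] at hx⟩
    · rintro ⟨h, hx⟩
      exact ⟨h, (ev_comp x f U h g).symm ▸ hx⟩
  rw [this]
  exact isOpen_anSet _ _ hO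

/-- The continuous map `X(ℂ) → Y(ℂ)` of a morphism. -/
noncomputable def ptMap (f : X ⟶ Y) : C(ptO ℂ ⟶ X, ptO ℂ ⟶ Y) :=
  ⟨fun x => x ≫ f, continuous_comp f⟩

end

/-- The topological fundamental groupoid: `Hom X x y` is the set of homotopy classes of paths in
`X(ℂ)` from `x` to `y`, for the analytic topology. -/
noncomputable def piTop : GrpdFunctor ℂ where
  Hom _ x y := Path.Homotopic.Quotient x y
  one _ x := Path.Homotopic.Quotient.refl x
  comp a b := a.trans b
  inv a := a.symm
  map f _ _ _ _ hx hy a := (a.map (ptMap f)).cast hx.symm hy.symm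
  one_comp a := by
    induction a using Path.Homotopic.Quotient.ind with
    | mk p => exact Quotient.sound ⟨Path.Homotopy.reflTrans p⟩
  comp_one a := by
    induction a using Path.Homotopic.Quotient.ind with
    | mk p => exact Quotient.sound ⟨Path.Homotopy.transRefl p⟩
  assoc a b c := by
    induction a using Path.Homotopic.Quotient.ind with
    | mk p =>
      induction b using Path.Homotopic.Quotient.ind with
      | mk q =>
        induction c using Path.Homotopic.Quotient.ind with
        | mk r => exact Quotient.sound ⟨Path.Homotopy.transAssoc p q r⟩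
  inv_comp a := by
    induction a using Path.Homotopic.Quotient.ind with
    | mk p => exact Quotient.sound ⟨(Path.Homotopy.reflSymmTrans p).symm⟩
  comp_inv a := by
    induction a using Path.Homotopic.Quotient.ind with
    | mk p => exact Quotient.sound ⟨(Path.Homotopy.reflTransSymm p).symm⟩
  map_one f x x' hx := by
    subst hx
    rfl
  map_comp f x y z x' y' z' hx hy hz a b := by
    subst hx hy hz
    induction a using Path.Homotopic.Quotient.ind with
    | mk p =>
      induction b using Path.Homotopic.Quotient.ind with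
      | mk q =>
        change Path.Homotopic.Quotient.mk _ = Path.Homotopic.Quotient.mk _
        congr 1
        exact Path.map_trans p q (ptMap f).continuous
  map_id a := by
    induction a using Path.Homotopic.Quotient.ind with
    | mk p =>
      change Path.Homotopic.Quotient.mk _ = Path.Homotopic.Quotient.mk _
      refine congrArg _ (Path.ext (funext fun t => ?_))
      exact Category.comp_id (p t)
  map_map f g x y x' y' x'' y'' hx hy hx' hy' h h' a := by
    subst hx hy hx' hy'
    induction a using Path.Homotopic.Quotient.ind with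
    | mk p =>
      change Path.Homotopic.Quotient.mk _ = Path.Homotopic.Quotient.mk _
      refine congrArg _ (Path.ext (funext fun t => ?_))
      exact (Category.assoc (p t) f g).symm

end MP8178
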