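import Pool.Agent.Lib_MP_8178ab_ag.Ana.Poly

/-! # Generic form of an étale domain over a polynomial ring -/

open Polynomial

namespace MP8178

section general

variable {R B K L : Type} [CommRing R] [IsDomain R] [CommRing B] [IsDomain B] [Algebra R B]
  [Field K] [Algebra R K] [IsFractionRing R K] [Field L] [Algebra B L] [IsFractionRing B L]
  [Algebra K L] [Algebra R L] [IsScalarTower R K L] [IsScalarTower R B L]

/-- clearing denominators -/
theorem exists_clear (q : K[X]) : ∃ (s : R) (p : R[X]), s ≠ 0 ∧
    p.map (algebraMap R K) = C (algebraMap R K s) * q := by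
  obtain ⟨b, hb, hbp⟩ := IsLocalization.integerNormalization_spec (nonZeroDivisors R) q
  refine ⟨b, IsLocalization.integerNormalization (nonZeroDivisors R) q,
    nonZeroDivisors.ne_zero hb, ?_⟩
  rw [hbp, Algebra.smul_def]
  rfl

/-- a primitive element inside `B`, integral over `R`. -/
theorem exists_primitive_generic
    [FiniteDimensional K L] [Algebra.IsSeparable K L] :
    ∃ θ : B, IsIntegral R θ ∧ ∀ b : B, ∃ (s : R) (p : R[X]), s ≠ 0 ∧
      algebraMap R B s * b = aeval θ p := by
  obtain ⟨α, hα⟩ := Field.exists_primitive_element K L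
  have hinjL : Function.Injective (algebraMap B L) := IsFractionRing.injective B L
  have hinjK : Function.Injective (algebraMap R K) := IsFractionRing.injective R K
  have halgL : ∀ b : L, IsAlgebraic R b := fun b =>
    (IsFractionRing.isAlgebraic_iff R K L).2 (Algebra.IsAlgebraic.isAlgebraic b)
  have halg : ∀ b : B, IsAlgebraic R b := fun b =>
    (isAlgebraic_algebraMap_iff hinjL).1 (halgL (algebraMap B L b))
  obtain ⟨x, y, hy, rfl⟩ := IsFractionRing.div_surjective B α
  obtain ⟨r, hr, y', hy'⟩ := (halg y).exists_nonzero_dvd hy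
  obtain ⟨r', hr', hint⟩ := (halg (x * y')).exists_integral_multiple
  refine ⟨r' • (x * y'), hint, fun b => ?_⟩
  have hθ : algebraMap B L (r' • (x * y')) =
      algebraMap K L (algebraMap R K (r' * r)) * (algebraMap B L x / algebraMap B L y) := by
    have hy0 : algebraMap B L y ≠ 0 := by
      intro h0
      exact nonZeroDivisors.ne_zero hy (hinjL (by rw [h0, map_zero]))
    have h1 : algebraMap B L (algebraMap R B r) = algebraMap B L y * algebraMap B L y' := by
      rw [hy', map_mul]
    rw [Algebra.smul_def, map_mul, map_mul, ← IsScalarTower.algebraMap_apply R K L, map_mul,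
      IsScalarTower.algebraMap_apply R B L r, IsScalarTower.algebraMap_apply R B L r', h1]
    field_simp
  set θ : B := r' • (x * y') with hθdef
  set α : L := algebraMap B L x / algebraMap B L y with hαdef
  have hc : algebraMap R K (r' * r) ≠ 0 := by
    intro h0
    have := hinjK (h0.trans (map_zero _).symm)
    exact mul_ne_zero hr' hr this
  -- `b = aeval α q`
  have hb : algebraMap B L b ∈ (IntermediateField.adjoin K {α}) := by rw [hα]; trivial
  have hb' : algebraMap B L b ∈ Algebra.adjoin K {α} := by
    rw [← IntermediateField.adjoin_simple_toSubalgebra_of_isAlgebraic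
      (Algebra.IsAlgebraic.isAlgebraic α)]
    exact hb
  rw [Algebra.adjoin_singleton_eq_range_aeval] at hb'
  obtain ⟨q, hq⟩ := hb'
  change aeval α q = algebraMap B L b at hq
  set q' : K[X] := q.comp (C (algebraMap R K (r' * r))⁻¹ * X) with hq'
  have hq2 : aeval (algebraMap B L θ) q' = algebraMap B L b := by
    rw [hq', aeval_comp, ← hq]
    congr 1
    rw [map_mul, aeval_C, aeval_X, hθ, ← mul_assoc, ← map_mul, inv_mul_cancel₀ hc, map_one,
      one_mul]
  obtain ⟨s, p, hs, hp⟩ := exists_clear (R := R) q'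
  refine ⟨s, p, hs, hinjL ?_⟩
  rw [← aeval_algebraMap_apply, map_mul, ← hq2, ← IsScalarTower.algebraMap_apply R B L,
    ← aeval_map_algebraMap K _ p, hp, map_mul, aeval_C, ← IsScalarTower.algebraMap_apply R K L]

/-- separability clears denominators -/
theorem exists_bezout {m : R[X]} (hs : (m.map (algebraMap R K)).Separable) :
    ∃ (r : R) (u v : R[X]), r ≠ 0 ∧ u * m + v * derivative m = C r := by
  obtain ⟨a, b, hab⟩ := hs
  obtain ⟨s, u, hs0, hu⟩ := exists_clear (R := R) a
  obtain ⟨t, v, ht0, hv⟩ := exists_clear (R := R) b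
  refine ⟨s * t, C t * u, C s * v, mul_ne_zero hs0 ht0, ?_⟩
  refine Polynomial.map_injective (algebraMap R K) (IsFractionRing.injective R K) ?_
  rw [Polynomial.map_add, Polynomial.map_mul, Polynomial.map_mul, Polynomial.map_mul,
    Polynomial.map_mul, hu, hv, map_C, map_C, map_C, ← derivative_map, map_mul, C_mul]
  linear_combination (C (algebraMap R K s) * C (algebraMap R K t)) * hab

omit [IsDomain B] in
/-- a common denominator for finitely many generators -/
theorem exists_denominator [Algebra.FiniteType R B] {θ : B}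
    (h : ∀ b : B, ∃ (s : R) (p : R[X]), s ≠ 0 ∧ algebraMap R B s * b = aeval θ p) (r : R)
    (hr : r ≠ 0) : ∃ s : R, s ≠ 0 ∧ r ∣ s ∧ ∀ b : B, ∃ (k : ℕ) (p : R[X]),
      algebraMap R B s ^ k * b = aeval θ p := by
  classical
  obtain ⟨S, hS⟩ := Algebra.FiniteType.out (R := R) (A := B)
  choose s p hs hp using h
  refine ⟨r * ∏ b ∈ S, s b, mul_ne_zero hr (Finset.prod_ne_zero_iff.2 fun b _ => hs b),
    dvd_mul_right _ _, ?_⟩
  have hdvd : ∀ x ∈ S, s x ∣ r * ∏ b ∈ S, s b := fun x hx =>
    (Finset.dvd_prod_of_mem s hx).trans (dvd_mul_left _ _)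
  generalize r * ∏ b ∈ S, s b = D at hdvd ⊢
  intro b
  have hb : b ∈ Algebra.adjoin R (S : Set B) := by rw [hS]; trivial
  induction hb using Algebra.adjoin_induction with
  | mem x hx =>
    obtain ⟨c, hc⟩ := hdvd x hx
    refine ⟨1, C c * p x, ?_⟩
    rw [pow_one, hc, map_mul, map_mul, aeval_C, mul_right_comm, hp x, mul_comm]
  | algebraMap a => exact ⟨0, C a, by simp⟩
  | add x y _ _ hx hy =>
    obtain ⟨k, p1, h1⟩ := hx
    obtain ⟨l, p2, h2⟩ := hy
    refine ⟨k + l, C (D ^ l) * p1 + C (D ^ k) * p2, ?_⟩
    rw [map_add, map_mul, map_mul, aeval_C, aeval_C, ← h1, ← h2, map_pow, map_pow]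
    ring
  | mul x y _ _ hx hy =>
    obtain ⟨k, p1, h1⟩ := hx
    obtain ⟨l, p2, h2⟩ := hy
    refine ⟨k + l, p1 * p2, ?_⟩
    rw [map_mul, ← h1, ← h2]
    ring

end general

/-- A domain `B` étale over `R = ℂ[z₁, …, zₙ]` contains an element `θ`, integral over `R` with
minimal polynomial `m`, such that `B` and `R[θ]` agree after inverting some `h ≠ 0` in `R`, and
`m` is separable at every point of `h ≠ 0`. -/
theorem exists_generic_form (n : ℕ) (B : Type) [CommRing B] [IsDomain B]
    [Algebra (MvPolynomial (Fin n) ℂ) B] [Algebra.Etale (MvPolynomial (Fin n) ℂ) B] :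
    ∃ (θ : B) (m : (MvPolynomial (Fin n) ℂ)[X]) (h : MvPolynomial (Fin n) ℂ),
      m.Monic ∧ Irreducible m ∧ h ≠ 0 ∧ aeval θ m = 0 ∧
      (∀ p : (MvPolynomial (Fin n) ℂ)[X], aeval θ p = 0 → m ∣ p) ∧
      (∀ b : B, ∃ (k : ℕ) (p : (MvPolynomial (Fin n) ℂ)[X]),
        algebraMap (MvPolynomial (Fin n) ℂ) B h ^ k * b = aeval θ p) ∧
      ∀ z ∈ DS h, (sp m z).Separable := by
  let R := MvPolynomial (Fin n) ℂ
  have hflat : Module.Flat R B := inferInstanceAs (Module.Flat (MvPolynomial (Fin n) ℂ) B)
  have hinj : Function.Injective (algebraMap R B) := FaithfulSMul.algebraMap_injective _ _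
  let K := FractionRing R
  let L := FractionRing B
  have hfs : FaithfulSMul R L := by
    refine (faithfulSMul_iff_algebraMap_injective R L).2 ?_
    rw [IsScalarTower.algebraMap_eq R B L]
    exact (IsFractionRing.injective B L).comp hinj
  let _ : Algebra K L := FractionRing.liftAlgebra R L
  have hst : IsScalarTower R K L := inferInstance
  have h1 : Algebra.FormallyUnramified B L :=
    Algebra.FormallyUnramified.of_isLocalization (nonZeroDivisors B)
  have h2 : Algebra.FormallyUnramified R L := 
    have : Algebra.FormallyUnramified R B :=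
      inferInstanceAs (Algebra.FormallyUnramified (MvPolynomial (Fin n) ℂ) B)
    Algebra.FormallyUnramified.comp R B L
  have h3 : Algebra.FormallyUnramified K L := Algebra.FormallyUnramified.of_restrictScalars R K L
  have hft : Algebra.FiniteType R B :=
    inferInstanceAs (Algebra.FiniteType (MvPolynomial (Fin n) ℂ) B)
  have h4 : Algebra.EssFiniteType B L := Algebra.EssFiniteType.of_isLocalization L
    (nonZeroDivisors B)
  have h5 : Algebra.EssFiniteType R L := Algebra.EssFiniteType.comp R B L
  have h6 : Algebra.EssFiniteType K L := Algebra.EssFiniteType.of_comp R K L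
  have h7 : FiniteDimensional K L := Algebra.FormallyUnramified.finite_of_free K L
  have h8 : Algebra.IsSeparable K L := Algebra.FormallyUnramified.isSeparable K L
  obtain ⟨θ, hθ, hgen⟩ := exists_primitive_generic (R := R) (B := B) (K := K) (L := L)
  have htf : Module.IsTorsionFree R B := inferInstance
  have hmap : minpoly K (algebraMap B L θ) = (minpoly R θ).map (algebraMap R K) :=
    minpoly.isIntegrallyClosed_eq_field_fractions K L hθ
  have hsep : ((minpoly R θ).map (algebraMap R K)).Separable := by
    rw [← hmap]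
    exact Algebra.IsSeparable.isSeparable K _
  obtain ⟨r, u, v, hr, huv⟩ := exists_bezout (R := R) (K := K) hsep
  obtain ⟨h, hh, hrh, hB⟩ := exists_denominator hgen r hr
  refine ⟨θ, minpoly R θ, h, minpoly.monic hθ, minpoly.irreducible hθ, hh, minpoly.aeval R θ,
    fun p hp => minpoly.isIntegrallyClosed_dvd hθ hp, hB, ?_⟩
  intro z hz
  obtain ⟨c, hc⟩ := hrh
  have hrz : MvPolynomial.eval z r ≠ 0 := by
    intro h0
    refine hz ?_
    rw [hc, map_mul, h0, zero_mul]
  have h9 := congrArg (Polynomial.map (MvPolynomial.eval z)) huv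
  rw [Polynomial.map_add, Polynomial.map_mul, Polynomial.map_mul, map_C, ← derivative_map] at h9
  refine ⟨C (MvPolynomial.eval z r)⁻¹ * u.map (MvPolynomial.eval z),
    C (MvPolynomial.eval z r)⁻¹ * v.map (MvPolynomial.eval z), ?_⟩
  change _ * (minpoly R θ).map (MvPolynomial.eval z) + _ *
    derivative ((minpoly R θ).map (MvPolynomial.eval z)) = 1
  rw [mul_assoc, mul_assoc, ← mul_add, h9, ← C_mul, inv_mul_cancel₀ hrz, C_1]

end MP8178
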