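import Pool.Agent.Lib_MP_8178ab_ag.Ana.Poly
import Pool.Agent.Lib_MP_8178ab_ag.Ana.CoordsDef

/-! # Parametrisation of the complex points by a hypersurface -/

open Polynomial

namespace MP8178

section

variable {n : ℕ}

theorem continuous_eval_sp (p : (MvPolynomial (Fin n) ℂ)[X]) :
    Continuous fun w : (Fin n → ℂ) × ℂ => (sp p w.1).eval w.2 := by
  have h : (fun w : (Fin n → ℂ) × ℂ => (sp p w.1).eval w.2) =
      fun w => ∑ i ∈ Finset.range (p.natDegree + 1), MvPolynomial.eval w.1 (p.coeff i) * w.2 ^ i := by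
    funext w
    rw [eval_eq_sum_range' (p := sp p w.1) (n := p.natDegree + 1)
      (lt_of_le_of_lt natDegree_map_le (Nat.lt_succ_self p.natDegree))]
    exact Finset.sum_congr rfl fun i _ => by rw [sp_coeff]
  rw [h]
  exact continuous_finsetSum _ fun i _ =>
    ((continuous_eval (p.coeff i)).comp continuous_fst).mul (continuous_snd.pow i)

theorem eval_sp_eq_of_dvd {m p q : (MvPolynomial (Fin n) ℂ)[X]} (h : m ∣ p - q)
    {w : (Fin n → ℂ) × ℂ} (hw : (sp m w.1).eval w.2 = 0) :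
    (sp p w.1).eval w.2 = (sp q w.1).eval w.2 := by
  obtain ⟨c, hc⟩ := h
  have h1 : sp p w.1 - sp q w.1 = sp m w.1 * sp c w.1 := by
    rw [sp, sp, sp, sp, ← Polynomial.map_sub, hc, Polynomial.map_mul]
  have h2 := congrArg (Polynomial.eval w.2) h1
  rw [eval_sub, eval_mul, hw, zero_mul] at h2
  exact sub_eq_zero.1 h2

variable {B : Type} [CommRing B] [Algebra ℂ B] [Algebra (MvPolynomial (Fin n) ℂ) B]
  [IsScalarTower ℂ (MvPolynomial (Fin n) ℂ) B]

theorem apply_aeval (φ : B →ₐ[ℂ] ℂ) (θ : B) (p : (MvPolynomial (Fin n) ℂ)[X]) :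
    φ (aeval θ p) = (sp p (coords φ)).eval (φ θ) := by
  rw [sp, eval_map, aeval_def]
  have h : (MvPolynomial.eval (coords φ) : MvPolynomial (Fin n) ℂ →+* ℂ) =
      (φ : B →+* ℂ).comp (algebraMap (MvPolynomial (Fin n) ℂ) B) :=
    RingHom.ext fun g => (apply_algebraMap_eq φ g).symm
  rw [h]
  exact Polynomial.hom_eval₂ p (algebraMap (MvPolynomial (Fin n) ℂ) B) (φ : B →+* ℂ) θ

/-- The continuous map `WS h m → B(ℂ)`; its image consists of the points with `h ≠ 0`. -/
theorem exists_map_WS {θ : B} {m : (MvPolynomial (Fin n) ℂ)[X]} {h : MvPolynomial (Fin n) ℂ}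
    (hθ : aeval θ m = 0) (hmin : ∀ p : (MvPolynomial (Fin n) ℂ)[X], aeval θ p = 0 → m ∣ p)
    (hinj : Function.Injective (algebraMap (MvPolynomial (Fin n) ℂ) B)) [IsDomain B]
    (hB : ∀ b : B, ∃ (k : ℕ) (p : (MvPolynomial (Fin n) ℂ)[X]),
      algebraMap (MvPolynomial (Fin n) ℂ) B h ^ k * b = aeval θ p) :
    ∃ Φ : WS h m → (B →ₐ[ℂ] ℂ), Continuous Φ ∧
      ∀ φ : B →ₐ[ℂ] ℂ, coords φ ∈ DS h → ∃ w, Φ w = φ := by
  choose k p hp using hB
  let F : WS h m → B → ℂ := fun w b =>
    (sp (p b) w.1.1).eval w.1.2 / MvPolynomial.eval w.1.1 h ^ k b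
  have hF : ∀ (w : WS h m) (b : B) (l : ℕ) (q : (MvPolynomial (Fin n) ℂ)[X]),
      algebraMap (MvPolynomial (Fin n) ℂ) B h ^ l * b = aeval θ q →
      F w b = (sp q w.1.1).eval w.1.2 / MvPolynomial.eval w.1.1 h ^ l := by
    intro w b l q hq
    have hw : MvPolynomial.eval w.1.1 h ≠ 0 := w.2.1
    have h1 : m ∣ C (h ^ l) * p b - C (h ^ k b) * q := by
      refine hmin _ ?_
      rw [map_sub, map_mul, map_mul, aeval_C, aeval_C, ← hp, ← hq, map_pow, map_pow]
      ring
    have h2 := eval_sp_eq_of_dvd h1 w.2.2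
    rw [sp, sp, Polynomial.map_mul, Polynomial.map_mul, map_C, map_C, eval_mul, eval_mul, eval_C,
      eval_C, map_pow, map_pow] at h2
    change _ / _ = _
    rw [div_eq_div_iff (pow_ne_zero _ hw) (pow_ne_zero _ hw), mul_comm]
    exact h2.trans (mul_comm _ _)
  have hmul : ∀ w a b, F w (a * b) = F w a * F w b := by
    intro w a b
    rw [hF w (a * b) (k a + k b) (p a * p b) (by rw [map_mul, ← hp, ← hp]; ring)]
    change _ = _ / _ * (_ / _)
    rw [div_mul_div_comm, pow_add, sp, Polynomial.map_mul, eval_mul]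
    rfl
  have hadd : ∀ w a b, F w (a + b) = F w a + F w b := by
    intro w a b
    have hw : MvPolynomial.eval w.1.1 h ≠ 0 := w.2.1
    rw [hF w (a + b) (k a + k b) (C (h ^ k b) * p a + C (h ^ k a) * p b) (by
      rw [map_add, map_mul, map_mul, aeval_C, aeval_C, ← hp, ← hp, map_pow, map_pow]; ring)]
    change _ = _ / _ + _ / _
    rw [div_add_div _ _ (pow_ne_zero _ hw) (pow_ne_zero _ hw), pow_add, sp, Polynomial.map_add,
      Polynomial.map_mul, Polynomial.map_mul, map_C, map_C, eval_add, eval_mul, eval_mul, eval_C,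
      eval_C, map_pow, map_pow, mul_comm (eval w.1.2 (sp (p a) w.1.1))]
    rfl
  have hconst : ∀ w (c : ℂ), F w (algebraMap ℂ B c) = c := by
    intro w c
    rw [hF w _ 0 (C (MvPolynomial.C c)) (by
      rw [pow_zero, one_mul, aeval_C, IsScalarTower.algebraMap_apply ℂ (MvPolynomial (Fin n) ℂ) B]
      rfl)]
    rw [sp, map_C, eval_C, MvPolynomial.eval_C, pow_zero, div_one]
  let Φ : WS h m → (B →ₐ[ℂ] ℂ) := fun w =>
    { toFun := F w
      map_one' := by rw [← map_one (algebraMap ℂ B), hconst]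
      map_mul' := hmul w
      map_zero' := by rw [← map_zero (algebraMap ℂ B), hconst]
      map_add' := hadd w
      commutes' := hconst w }
  refine ⟨Φ, ?_, ?_⟩
  · refine continuous_alg_iff.2 fun b => ?_
    refine Continuous.div ((continuous_eval_sp (p b)).comp continuous_subtype_val)
      (((continuous_eval h).comp (continuous_fst.comp continuous_subtype_val)).pow _) ?_
    intro w
    exact pow_ne_zero _ w.2.1
  · intro φ hφ
    have hw : (coords φ, φ θ) ∈ WS h m := by
      refine ⟨hφ, ?_⟩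
      rw [← apply_aeval, hθ, map_zero]
    refine ⟨⟨_, hw⟩, AlgHom.ext fun b => ?_⟩
    change (sp (p b) (coords φ)).eval (φ θ) / MvPolynomial.eval (coords φ) h ^ k b = φ b
    rw [div_eq_iff (pow_ne_zero _ hφ), ← apply_aeval, ← hp, map_mul, map_pow, apply_algebraMap_eq,
      mul_comm]

end

end MP8178
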