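import Pool.Agent.Lib_MP_8178ab_ag.Ana.WConn
import Pool.Agent.Lib_MP_8178ab_ag.Ana.GenForm
import Pool.Agent.Lib_MP_8178ab_ag.Ana.Coords
import Pool.Agent.Lib_MP_8178ab_ag.Ana.MapWS

/-! # The complex points of a domain étale over a polynomial ring form a path connected space -/

open Polynomial

namespace MP8178

section

variable {n : ℕ} {B : Type} [CommRing B] [Algebra ℂ B] [Algebra (MvPolynomial (Fin n) ℂ) B]
  [IsScalarTower ℂ (MvPolynomial (Fin n) ℂ) B]

/-- The complex points of a domain étale over `ℂ[z₁, …, zₙ]` form a path connected space. -/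
theorem pathConnectedSpace_of_etale [Algebra.Etale (MvPolynomial (Fin n) ℂ) B] [IsDomain B] :
    PathConnectedSpace (B →ₐ[ℂ] ℂ) := by
  obtain ⟨θ, m, h, hm, hi, hh, hθ, hmin, hB, hs⟩ := exists_generic_form n B
  have hinj : Function.Injective (algebraMap (MvPolynomial (Fin n) ℂ) B) := by
    have : Module.Flat (MvPolynomial (Fin n) ℂ) B := inferInstance
    exact FaithfulSMul.algebraMap_injective _ _
  obtain ⟨Φ, hΦ, hsurj⟩ := exists_map_WS (h := h) hθ hmin hinj hB
  have hW : IsPathConnected (WS h m) := isPathConnected_WS hh hm hi hs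
  have : PathConnectedSpace (WS h m) := isPathConnected_iff_pathConnectedSpace.1 hW
  obtain ⟨w⟩ : Nonempty (WS h m) := inferInstance
  refine ⟨⟨Φ w⟩, fun φ ψ => ?_⟩
  obtain ⟨φ', h1, h2⟩ := exists_joined_DS hh φ
  obtain ⟨ψ', h3, h4⟩ := exists_joined_DS hh ψ
  obtain ⟨u, rfl⟩ := hsurj φ' h1
  obtain ⟨v, rfl⟩ := hsurj ψ' h3
  exact h2.trans (((PathConnectedSpace.joined u v).map hΦ).trans h4.symm)

end

end MP8178
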