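import Pool.Agent.Lib_MP_8178ab_ag.Ana.Poly

/-! # Families of monic factors with polynomial coefficients -/

open Polynomial

namespace MP8178

variable {n : ℕ}

/-- a polynomial which vanishes where `h ≠ 0` is zero -/
theorem eq_zero_of_DS {h : MvPolynomial (Fin n) ℂ} (hh : h ≠ 0) {g : MvPolynomial (Fin n) ℂ}
    (hg : ∀ z ∈ DS h, MvPolynomial.eval z g = 0) : g = 0 := by
  have h1 : h * g = 0 := by
    apply MvPolynomial.funext
    intro z
    rw [map_mul, map_zero]
    by_cases hz : MvPolynomial.eval z h = 0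
    · rw [hz, zero_mul]
    · rw [hg z hz, mul_zero]
  exact (mul_eq_zero.1 h1).resolve_left hh

/-- If `m` is irreducible, a family of nonconstant monic factors of the polynomials `sp m z`, with
coefficients polynomial in `z`, is the family `sp m z`. -/
theorem eq_sp_of_factor {h : MvPolynomial (Fin n) ℂ} (hh : h ≠ 0)
    {m : (MvPolynomial (Fin n) ℂ)[X]} (hm : m.Monic) (hi : Irreducible m)
    {q : (Fin n → ℂ) → ℂ[X]} {a : ℕ} (ha : a ≠ 0)
    (hq : ∀ z ∈ DS h, (q z).Monic ∧ (q z).natDegree = a ∧ q z ∣ sp m z)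
    (hc : ∀ i, ∃ G : MvPolynomial (Fin n) ℂ, ∀ z ∈ DS h, (q z).coeff i = MvPolynomial.eval z G) :
    ∀ z ∈ DS h, q z = sp m z := by
  choose G hG using hc
  let P : (MvPolynomial (Fin n) ℂ)[X] := ∑ i ∈ Finset.range a, C (G i) * X ^ i
  have hPdeg : P.degree < a := by
    refine (degree_sum_le _ _).trans_lt ?_
    rw [Finset.sup_lt_iff (by exact_mod_cast WithBot.bot_lt_coe a)]
    intro i hi
    refine (degree_C_mul_X_pow_le i (G i)).trans_lt ?_
    exact_mod_cast Finset.mem_range.1 hi
  have hQm : (X ^ a + P).Monic := monic_X_pow_add hPdeg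
  have hQd : (X ^ a + P).natDegree = a := by
    apply natDegree_eq_of_degree_eq_some
    rw [degree_add_eq_left_of_degree_lt (by rw [degree_X_pow]; exact hPdeg), degree_X_pow]
  have hPc : ∀ i < a, P.coeff i = G i := by
    intro i hi
    simp only [P, finsetSum_coeff, coeff_C_mul, coeff_X_pow, mul_ite, mul_one, mul_zero]
    rw [Finset.sum_ite_eq, if_pos (Finset.mem_range.2 hi)]
  have hQz : ∀ z ∈ DS h, sp (X ^ a + P) z = q z := by
    intro z hz
    obtain ⟨h1, h2, -⟩ := hq z hz
    ext i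
    rcases lt_trichotomy i a with hi | hi | hi
    · rw [sp_coeff, coeff_add, coeff_X_pow, if_neg hi.ne, zero_add, hPc i hi, hG i z hz]
    · have a1 := (sp_monic hQm z).coeff_natDegree
      have a2 := h1.coeff_natDegree
      rw [sp_natDegree hQm, hQd] at a1
      rw [h2] at a2
      rw [hi, a1, a2]
    · rw [coeff_eq_zero_of_natDegree_lt (by rw [sp_natDegree hQm, hQd]; exact hi),
        coeff_eq_zero_of_natDegree_lt (by rw [h2]; exact hi)]
  have hmod : m %ₘ (X ^ a + P) = 0 := by
    ext1 i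
    rw [coeff_zero]
    refine eq_zero_of_DS hh fun z hz => ?_
    rw [← sp_coeff]
    have : sp (m %ₘ (X ^ a + P)) z = 0 := by
      unfold sp
      rw [map_modByMonic _ hQm]
      have h3 := hQz z hz
      have h4 := (hq z hz).2.2
      unfold sp at h3 h4
      rw [h3]
      exact (modByMonic_eq_zero_iff_dvd (hq z hz).1).2 h4
    rw [this, coeff_zero]
  have hdvd := (modByMonic_eq_zero_iff_dvd hQm).1 hmod
  obtain ⟨c, hc⟩ := hdvd
  have hcm : c.Monic := hQm.of_mul_monic_left (hc ▸ hm)
  have hQu : ¬ IsUnit (X ^ a + P) := by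
    intro hu
    have := hQm.isUnit_iff.1 hu
    rw [this, natDegree_one] at hQd
    exact ha hQd.symm
  have hcu : IsUnit c := (hi.isUnit_or_isUnit hc).resolve_left hQu
  have hc1 : c = 1 := hcm.isUnit_iff.1 hcu
  rw [hc1, mul_one] at hc
  intro z hz
  rw [hc, hQz z hz]

end MP8178
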