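import Pool.Agent.Lib_MP_8178ab_ag.Ana.Conn
import Pool.Agent.Lib_MP_8178ab_ag.Ana.Cover
import Pool.Agent.Lib_MP_8178ab_ag.Final

/-! # The topological fundamental groupoid is `π₁`-like -/

open CategoryTheory Limits AlgebraicGeometry

namespace MP8178

theorem isPiOneLike_piTop : IsPiOneLike piTop where
  prod p q h z z' := piTop_prod p q h z z'
  conn X hX x y := by
    obtain ⟨γ⟩ := joined_pt X hX x y
    exact ⟨Path.Homotopic.Quotient.mk γ⟩
  lift f hf he x' x y hx a := piTop_lift f hf he x' x y hx a

end MP8178
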