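import Pool.Agent.Lib_MP_8178ab_ag.Ana.LocRoots

/-! # Path components of `WS h m` are open and closed parts -/

open Polynomial

namespace MP8178

variable {n : ℕ}

theorem locRoots_root_iff {m : (MvPolynomial (Fin n) ℂ)[X]} {z₀ : Fin n → ℂ}
    {N : Set (Fin n → ℂ)} {τ : Fin m.natDegree → (Fin n → ℂ) → ℂ} (hL : LocRoots m z₀ N τ)
    {z : Fin n → ℂ} (hz : z ∈ N) (t : ℂ) : (sp m z).eval t = 0 ↔ ∃ i, τ i z = t := by
  rw [hL.prod z hz, eval_prod, Finset.prod_eq_zero_iff]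
  constructor
  · rintro ⟨i, _, hi⟩
    rw [eval_sub, eval_X, eval_C, sub_eq_zero] at hi
    exact ⟨i, hi.symm⟩
  · rintro ⟨i, hi⟩
    exact ⟨i, Finset.mem_univ i, by rw [eval_sub, eval_X, eval_C, hi, sub_self]⟩

theorem locRoots_sheet {h : MvPolynomial (Fin n) ℂ} {m : (MvPolynomial (Fin n) ℂ)[X]}
    {z₀ : Fin n → ℂ} {N : Set (Fin n → ℂ)} {τ : Fin m.natDegree → (Fin n → ℂ) → ℂ}
    (hL : LocRoots m z₀ N τ) (hN : N ⊆ DS h) (i : Fin m.natDegree) {z z' : Fin n → ℂ}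
    (hz : z ∈ N) (hz' : z' ∈ N) : JoinedIn (WS h m) (z, τ i z) (z', τ i z') := by
  have hc : ContinuousOn (fun z => (z, τ i z)) N :=
    continuousOn_id.prodMk (hL.diff i).continuousOn
  have h1 := hL.pathConn.image' hc
  have h2 := h1.joinedIn (z, τ i z) ⟨z, hz, rfl⟩ (z', τ i z') ⟨z', hz', rfl⟩
  refine h2.mono ?_
  rintro _ ⟨y, hy, rfl⟩
  exact ⟨hN hy, (locRoots_root_iff hL hy _).2 ⟨i, rfl⟩⟩

/-- the path component of a point of `WS h m` is an open and closed part -/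
theorem locA_joinedIn {h : MvPolynomial (Fin n) ℂ} {m : (MvPolynomial (Fin n) ℂ)[X]}
    (hm : m.Monic) (hs : ∀ z ∈ DS h, (sp m z).Separable) (w₀ : (Fin n → ℂ) × ℂ) :
    LocA h m {w | JoinedIn (WS h m) w₀ w} := by
  classical
  refine ⟨fun w hw => hw.target_mem, fun z₀ hz₀ => ?_⟩
  obtain ⟨N, τ, hN, hL⟩ := exists_locRoots hm z₀ (hs z₀ hz₀) (isOpen_DS h) hz₀
  refine ⟨N, τ, Finset.univ.filter (fun i => JoinedIn (WS h m) w₀ (z₀, τ i z₀)), hN, hL, ?_⟩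
  intro z hz t
  constructor
  · intro hw
    have hw' : JoinedIn (WS h m) w₀ (z, t) := hw
    obtain ⟨i, hi⟩ := (locRoots_root_iff hL hz t).1 hw'.target_mem.2
    refine ⟨i, ?_, hi⟩
    rw [Finset.mem_filter]
    refine ⟨Finset.mem_univ i, ?_⟩
    rw [← hi] at hw'
    exact hw'.trans (locRoots_sheet hL hN i hz hL.mem)
  · rintro ⟨i, hi, rfl⟩
    rw [Finset.mem_filter] at hi
    exact hi.2.trans (locRoots_sheet hL hN i hL.mem hz)

end MP8178
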