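import Pool.Agent.Lib_MP_8178ab_ag.Ana.Poly
import Pool.Agent.Lib_MP_2d36f7_ag.Coef

/-! # Local holomorphic roots -/

open Polynomial

namespace MP8178

variable {n : ℕ}

theorem differentiable_eval (h : MvPolynomial (Fin n) ℂ) :
    Differentiable ℂ fun z : Fin n → ℂ => MvPolynomial.eval z h := by
  induction h using MvPolynomial.induction_on with
  | C a => simp
  | add p q hp hq =>
    simp only [map_add]
    exact hp.add hq
  | mul_X p i hp =>
    simp only [map_mul, MvPolynomial.eval_X]
    exact hp.mul (differentiable_apply i)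

/-- the roots of a separable monic polynomial -/
theorem exists_roots_of_separable {p : ℂ[X]} (hp : p.Monic) (hs : p.Separable) {d : ℕ}
    (hd : p.natDegree = d) :
    ∃ x : Fin d → ℂ, Function.Injective x ∧ p = ∏ i, (X - C (x i)) := by
  classical
  have hn := nodup_roots hs
  have hsp := IsAlgClosed.splits p
  have hcard : p.roots.toFinset.card = d := by
    rw [Multiset.toFinset_card_of_nodup hn, ← hd]
    exact (splits_iff_card_roots.1 hsp)
  let e := p.roots.toFinset.equivFinOfCardEq hcard
  refine ⟨fun i => (e.symm i : ℂ), fun i j hij => e.symm.injective (Subtype.ext hij), ?_⟩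
  have h1 : p = (p.roots.map fun a => X - C a).prod := by
    have := hsp.eq_prod_roots
    rw [hp.leadingCoeff, C_1, one_mul] at this
    exact this
  have h2 : ∏ i : Fin d, (X - C ((e.symm i : ℂ))) = ∏ r ∈ p.roots.toFinset, (X - C r) := by
    rw [Equiv.prod_comp e.symm (fun r : p.roots.toFinset => (X - C (r : ℂ)))]
    exact Finset.prod_coe_sort p.roots.toFinset (fun r => X - C r)
  rw [h2]
  conv_lhs => rw [h1]
  rw [Finset.prod, Multiset.toFinset_val, Multiset.dedup_eq_self.2 hn]

/-- every point `z₀` where `sp m z₀` is separable has a small neighbourhood over which the roots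
may be chosen holomorphically -/
theorem exists_locRoots {m : (MvPolynomial (Fin n) ℂ)[X]} (hm : m.Monic) (z₀ : Fin n → ℂ)
    (hs : (sp m z₀).Separable) {U : Set (Fin n → ℂ)} (hU : IsOpen U) (hz : z₀ ∈ U) :
    ∃ (N : Set (Fin n → ℂ)) (τ : Fin m.natDegree → (Fin n → ℂ) → ℂ), N ⊆ U ∧
      LocRoots m z₀ N τ := by
  obtain ⟨x, hx, hp⟩ := exists_roots_of_separable (sp_monic hm z₀) hs (sp_natDegree hm z₀)
  obtain ⟨Φ, hΦ, hΦx, hΦr, -⟩ := MP2d36f7.coef_localInv (x := x) hx
  let c : (Fin n → ℂ) → (Fin m.natDegree → ℂ) := fun z i => MvPolynomial.eval z (m.coeff i)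
  have hc : Differentiable ℂ c := differentiable_pi.2 fun i => differentiable_eval _
  have hc0 : c z₀ = MP2d36f7.coef x := by
    funext i
    show MvPolynomial.eval z₀ (m.coeff i) = (∏ j, (X - C (x j)) : ℂ[X]).coeff i
    rw [← hp, sp_coeff]
  have h1 : ∀ᶠ w in nhds (MP2d36f7.coef x), DifferentiableAt ℂ Φ w := by
    filter_upwards [hΦ.eventually_analyticAt] with w hw
    exact hw.differentiableAt
  have h2 : ∀ᶠ w in nhds (MP2d36f7.coef x), Φ w ∈ MP2d36f7.Inj m.natDegree := by
    refine hΦ.continuousAt.eventually_mem ?_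
    rw [hΦx]
    exact (MP2d36f7.isOpen_Inj _).mem_nhds hx
  have h3 : ∀ᶠ w in nhds (MP2d36f7.coef x), DifferentiableAt ℂ Φ w ∧
      Φ w ∈ MP2d36f7.Inj m.natDegree ∧ MP2d36f7.coef (Φ w) = w :=
    h1.and (h2.and hΦr)
  rw [← hc0] at h3
  have h4 := hc.continuous.continuousAt.eventually h3
  have h5 := h4.and (hU.eventually_mem hz)
  obtain ⟨ε, hε, hball⟩ := Metric.eventually_nhds_iff_ball.1 h5
  refine ⟨Metric.ball z₀ ε, fun i z => Φ (c z) i, fun z hz => (hball z hz).2, ?_⟩
  refine ⟨Metric.isOpen_ball, Metric.mem_ball_self hε,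
    (convex_ball z₀ ε).isPathConnected ⟨z₀, Metric.mem_ball_self hε⟩, ?_, ?_, ?_⟩
  · intro i z hz
    have hd : DifferentiableAt ℂ (fun z => Φ (c z)) z :=
      DifferentiableAt.comp z (hball z hz).1.1 (hc z)
    exact (differentiableAt_pi.1 hd i).differentiableWithinAt
  · intro z hz
    have hco := (hball z hz).1.2.2
    have e1 : (∏ i, (X - C (Φ (c z) i)) : ℂ[X]).Monic :=
      monic_prod_of_monic _ _ fun _ _ => monic_X_sub_C _
    have e2 : (∏ i, (X - C (Φ (c z) i)) : ℂ[X]).natDegree = m.natDegree := by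
      rw [natDegree_finsetProd_X_sub_C_eq_card]
      simp
    ext i
    rcases lt_trichotomy i m.natDegree with hi | hi | hi
    · have := congrFun hco ⟨i, hi⟩
      rw [sp_coeff]
      exact this.symm
    · have a1 := (sp_monic hm z).coeff_natDegree
      have a2 := e1.coeff_natDegree
      rw [sp_natDegree hm] at a1
      rw [e2] at a2
      rw [hi, a1, a2]
    · rw [coeff_eq_zero_of_natDegree_lt (by rw [sp_natDegree hm]; exact hi),
        coeff_eq_zero_of_natDegree_lt (by rw [e2]; exact hi)]
  · intro z hz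
    exact (hball z hz).1.2.1

end MP8178
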