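import Mathlib

/-!
# Polynomials over a polynomial ring: notation

`sp m z` is the specialisation at `z ∈ ℂⁿ` of a polynomial `m` with coefficients in
`ℂ[z₁, …, zₙ]`; `DS h` is the set `h ≠ 0` in `ℂⁿ`, and `WS h m` is the set of pairs `(z, t)`
with `h(z) ≠ 0` and `m_z(t) = 0`.
-/

open Polynomial

namespace MP8178

variable {n : ℕ}

/-- specialisation at `z` -/
noncomputable def sp (m : (MvPolynomial (Fin n) ℂ)[X]) (z : Fin n → ℂ) : ℂ[X] :=
  m.map (MvPolynomial.eval z)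

/-- the set `h ≠ 0` -/
def DS (h : MvPolynomial (Fin n) ℂ) : Set (Fin n → ℂ) := {z | MvPolynomial.eval z h ≠ 0}

/-- the hypersurface `m_z(t) = 0` over `h ≠ 0` -/
def WS (h : MvPolynomial (Fin n) ℂ) (m : (MvPolynomial (Fin n) ℂ)[X]) :
    Set ((Fin n → ℂ) × ℂ) :=
  {w | w.1 ∈ DS h ∧ (sp m w.1).eval w.2 = 0}

theorem continuous_eval (h : MvPolynomial (Fin n) ℂ) :
    Continuous fun z : Fin n → ℂ => MvPolynomial.eval z h := by
  exact MvPolynomial.continuous_eval h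

theorem isOpen_DS (h : MvPolynomial (Fin n) ℂ) : IsOpen (DS h) :=
  isOpen_ne.preimage (continuous_eval h)

theorem sp_monic {m : (MvPolynomial (Fin n) ℂ)[X]} (hm : m.Monic) (z : Fin n → ℂ) :
    (sp m z).Monic := hm.map _

theorem sp_natDegree {m : (MvPolynomial (Fin n) ℂ)[X]} (hm : m.Monic) (z : Fin n → ℂ) :
    (sp m z).natDegree = m.natDegree := hm.natDegree_map _

theorem sp_coeff (m : (MvPolynomial (Fin n) ℂ)[X]) (z : Fin n → ℂ) (i : ℕ) :
    (sp m z).coeff i = MvPolynomial.eval z (m.coeff i) := coeff_map _ _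

/-- `τ` is a holomorphic ordering of the roots of `sp m z` over the open set `N`, and these roots
are distinct. -/
structure LocRoots (m : (MvPolynomial (Fin n) ℂ)[X]) (z₀ : Fin n → ℂ) (N : Set (Fin n → ℂ))
    (τ : Fin m.natDegree → (Fin n → ℂ) → ℂ) : Prop where
  isOpen : IsOpen N
  mem : z₀ ∈ N
  pathConn : IsPathConnected N
  diff : ∀ i, DifferentiableOn ℂ (τ i) N
  prod : ∀ z ∈ N, sp m z = ∏ i, (X - C (τ i z))
  inj : ∀ z ∈ N, Function.Injective fun i => τ i z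

/-- `A` is an open and closed part of the covering `WS h m` of `DS h`: over small open sets it
consists of some of the sheets. -/
structure LocA (h : MvPolynomial (Fin n) ℂ) (m : (MvPolynomial (Fin n) ℂ)[X])
    (A : Set ((Fin n → ℂ) × ℂ)) : Prop where
  sub : A ⊆ WS h m
  loc : ∀ z₀ ∈ DS h, ∃ (N : Set (Fin n → ℂ)) (τ : Fin m.natDegree → (Fin n → ℂ) → ℂ)
    (J : Finset (Fin m.natDegree)), N ⊆ DS h ∧ LocRoots m z₀ N τ ∧
      ∀ z ∈ N, ∀ t, (z, t) ∈ A ↔ ∃ i ∈ J, τ i z = t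

/-- the monic polynomial whose roots are the `t` with `(z, t) ∈ A`. -/
noncomputable def qA (A : Set ((Fin n → ℂ) × ℂ)) (z : Fin n → ℂ) : ℂ[X] :=
  ∏ᶠ t ∈ {t | (z, t) ∈ A}, (X - C t)

end MP8178
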