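import Pool.Agent.Lib_MP_8178ab_ag.Ana.OpenImm
import Pool.Agent.Lib_MP_8178ab_ag.Ana.Aff

/-! # Complex points of products -/

open CategoryTheory Limits AlgebraicGeometry TensorProduct

namespace MP8178

namespace ProdAux

/-- the homomorphism on the tensor product -/
noncomputable def lft {A B : Type} [CommRing A] [Algebra ℂ A] [CommRing B] [Algebra ℂ B]
    (w : (A →ₐ[ℂ] ℂ) × (B →ₐ[ℂ] ℂ)) : A ⊗[ℂ] B →ₐ[ℂ] ℂ :=
  Algebra.TensorProduct.lift w.1 w.2 fun _ _ => mul_comm _ _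

theorem lft_left {A B : Type} [CommRing A] [Algebra ℂ A] [CommRing B] [Algebra ℂ B]
    (w : (A →ₐ[ℂ] ℂ) × (B →ₐ[ℂ] ℂ)) :
    (lft w).comp Algebra.TensorProduct.includeLeft = w.1 := by
  ext a
  simp [lft]

theorem lft_right {A B : Type} [CommRing A] [Algebra ℂ A] [CommRing B] [Algebra ℂ B]
    (w : (A →ₐ[ℂ] ℂ) × (B →ₐ[ℂ] ℂ)) :
    (lft w).comp Algebra.TensorProduct.includeRight = w.2 := by
  ext a
  simp [lft]

theorem continuous_lft {A B : Type} [CommRing A] [Algebra ℂ A] [CommRing B] [Algebra ℂ B] :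
    Continuous (lft : (A →ₐ[ℂ] ℂ) × (B →ₐ[ℂ] ℂ) → (A ⊗[ℂ] B →ₐ[ℂ] ℂ)) := by
  rw [continuous_alg_iff]
  intro t
  induction t using TensorProduct.induction_on with
  | zero => simpa using continuous_const
  | tmul a b =>
    have h1 : (fun w : (A →ₐ[ℂ] ℂ) × (B →ₐ[ℂ] ℂ) => lft w (a ⊗ₜ[ℂ] b)) =
        fun w => w.1 a * w.2 b := by
      funext w
      simp [lft]
    rw [h1]
    exact ((continuous_alg_apply a).comp continuous_fst).mul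
      ((continuous_alg_apply b).comp continuous_snd)
  | add s t hs ht =>
    simp only [map_add]
    exact hs.add ht

theorem isHomeomorph_alg_prod {A B : Type} [CommRing A] [Algebra ℂ A] [CommRing B] [Algebra ℂ B] :
    IsHomeomorph (fun φ : A ⊗[ℂ] B →ₐ[ℂ] ℂ =>
      ((φ.comp Algebra.TensorProduct.includeLeft, φ.comp Algebra.TensorProduct.includeRight) :
        (A →ₐ[ℂ] ℂ) × (B →ₐ[ℂ] ℂ))) := by
  rw [isHomeomorph_iff_exists_inverse]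
  refine ⟨?_, lft, ?_, ?_, continuous_lft⟩
  · refine Continuous.prodMk ?_ ?_
    · rw [continuous_alg_iff]
      intro a
      exact continuous_alg_apply _
    · rw [continuous_alg_iff]
      intro a
      exact continuous_alg_apply _
  · intro φ
    apply Algebra.TensorProduct.ext
    · exact lft_left _
    · exact lft_right _
  · intro w
    exact Prod.ext (lft_left w) (lft_right w)

end ProdAux

open ProdAux in
/-- `(X × Y)(ℂ)` is homeomorphic to `X(ℂ) × Y(ℂ)`. -/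
theorem isHomeomorph_prod {X Y Z : Over (Spec (CommRingCat.of ℂ))} (p : Z ⟶ X) (q : Z ⟶ Y)
    (h : Nonempty (IsLimit (BinaryFan.mk p q))) :
    IsHomeomorph (fun z : ptO ℂ ⟶ Z => ((z ≫ p, z ≫ q) : (ptO ℂ ⟶ X) × (ptO ℂ ⟶ Y))) := by
  obtain ⟨h⟩ := h
  have hinj : Function.Injective
      (fun z : ptO ℂ ⟶ Z => ((z ≫ p, z ≫ q) : (ptO ℂ ⟶ X) × (ptO ℂ ⟶ Y))) := by
    intro z w hzw
    have h1 := congrArg Prod.fst hzw
    have h2 := congrArg Prod.snd hzw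
    exact BinaryFan.IsLimit.hom_ext h h1 h2
  have hsurj : Function.Surjective
      (fun z : ptO ℂ ⟶ Z => ((z ≫ p, z ≫ q) : (ptO ℂ ⟶ X) × (ptO ℂ ⟶ Y))) := by
    rintro ⟨x, y⟩
    obtain ⟨l, hl⟩ := BinaryFan.IsLimit.lift' h x y
    exact ⟨l, Prod.ext hl.1 hl.2⟩
  have hcont : Continuous
      (fun z : ptO ℂ ⟶ Z => ((z ≫ p, z ≫ q) : (ptO ℂ ⟶ X) × (ptO ℂ ⟶ Y))) :=
    (continuous_comp p).prodMk (continuous_comp q)
  refine ⟨hcont, ?_, hinj, hsurj⟩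
  intro N hN
  rw [isOpen_iff_mem_nhds]
  rintro _ ⟨z₀, hz₀, rfl⟩
  obtain ⟨A, _, _, jA, hjA, hxA, -⟩ :=
    exists_affine_nhd X ((z₀ ≫ p).left (IsLocalRing.closedPoint ℂ)) ⊤ trivial
  obtain ⟨B, _, _, jB, hjB, hxB, -⟩ :=
    exists_affine_nhd Y ((z₀ ≫ q).left (IsLocalRing.closedPoint ℂ)) ⊤ trivial
  obtain ⟨a, ha⟩ := exists_lift_pt jA hjA _ hxA
  obtain ⟨b, hb⟩ := exists_lift_pt jB hjB _ hxB
  obtain ⟨φ, rfl⟩ := (algPt_bijective A).2 a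
  obtain ⟨ψ, rfl⟩ := (algPt_bijective B).2 b
  obtain ⟨J, hJ1, hJ2⟩ := BinaryFan.IsLimit.lift' h
    (specMapO (Algebra.TensorProduct.includeLeft : A →ₐ[ℂ] A ⊗[ℂ] B) ≫ jA)
    (specMapO (Algebra.TensorProduct.includeRight : B →ₐ[ℂ] A ⊗[ℂ] B) ≫ jB)
  have hJ1' : J ≫ p = specMapO (Algebra.TensorProduct.includeLeft : A →ₐ[ℂ] A ⊗[ℂ] B) ≫ jA := hJ1
  have hJ2' : J ≫ q = specMapO (Algebra.TensorProduct.includeRight : B →ₐ[ℂ] A ⊗[ℂ] B) ≫ jB := hJ2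
  -- the composite `(A ⊗ B)(ℂ) → Z(ℂ) → X(ℂ) × Y(ℂ)` is an open embedding
  have hcomp : ∀ χ : A ⊗[ℂ] B →ₐ[ℂ] ℂ,
      (((algPt χ ≫ J) ≫ p, (algPt χ ≫ J) ≫ q) : (ptO ℂ ⟶ X) × (ptO ℂ ⟶ Y)) =
      (algPt (χ.comp Algebra.TensorProduct.includeLeft) ≫ jA,
        algPt (χ.comp Algebra.TensorProduct.includeRight) ≫ jB) := by
    intro χ
    rw [Category.assoc, hJ1', ← Category.assoc, algPt_comp, Category.assoc, hJ2',
      ← Category.assoc, algPt_comp]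
  have hemb : Topology.IsOpenEmbedding (fun χ : A ⊗[ℂ] B →ₐ[ℂ] ℂ =>
      (((algPt χ ≫ J) ≫ p, (algPt χ ≫ J) ≫ q) : (ptO ℂ ⟶ X) × (ptO ℂ ⟶ Y))) := by
    have e1 := ((isOpenEmbedding_comp jA hjA).comp (isHomeomorph_algPt A).isOpenEmbedding).prodMap
      ((isOpenEmbedding_comp jB hjB).comp (isHomeomorph_algPt B).isOpenEmbedding)
    have e2 := e1.comp (isHomeomorph_alg_prod (A := A) (B := B)).isOpenEmbedding
    convert e2 using 1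
    funext χ
    exact hcomp χ
  have hopen : IsOpen ((fun χ : A ⊗[ℂ] B →ₐ[ℂ] ℂ =>
      (((algPt χ ≫ J) ≫ p, (algPt χ ≫ J) ≫ q) : (ptO ℂ ⟶ X) × (ptO ℂ ⟶ Y))) ''
      {χ | algPt χ ≫ J ∈ N}) := by
    refine hemb.isOpenMap _ ?_
    exact hN.preimage ((continuous_comp J).comp (isHomeomorph_algPt (A ⊗[ℂ] B)).continuous)
  refine Filter.mem_of_superset (hopen.mem_nhds ?_) ?_
  · have hz : algPt (lft (φ, ψ)) ≫ J = z₀ := by
      apply hinj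
      change (((algPt (lft (φ, ψ)) ≫ J) ≫ p, (algPt (lft (φ, ψ)) ≫ J) ≫ q) :
        (ptO ℂ ⟶ X) × (ptO ℂ ⟶ Y)) = (z₀ ≫ p, z₀ ≫ q)
      rw [hcomp, lft_left, lft_right, ha, hb]
    refine ⟨lft (φ, ψ), ?_, ?_⟩
    · change algPt (lft (φ, ψ)) ≫ J ∈ N
      rw [hz]
      exact hz₀
    · change (((algPt (lft (φ, ψ)) ≫ J) ≫ p, (algPt (lft (φ, ψ)) ≫ J) ≫ q) :
        (ptO ℂ ⟶ X) × (ptO ℂ ⟶ Y)) = (z₀ ≫ p, z₀ ≫ q)
      rw [hz]
  · rintro _ ⟨χ, hχ, rfl⟩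
    exact ⟨algPt χ ≫ J, hχ, rfl⟩

end MP8178
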