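import Pool.Agent.Lib_MP_8178ab_ag.Ana.DPath

/-! # The polynomial of a part of the roots -/

open Polynomial

namespace MP8178

variable {n : ℕ}

theorem qA_eq_prod {m : (MvPolynomial (Fin n) ℂ)[X]} {A : Set ((Fin n → ℂ) × ℂ)}
    {z₀ : Fin n → ℂ} {N : Set (Fin n → ℂ)} {τ : Fin m.natDegree → (Fin n → ℂ) → ℂ}
    {J : Finset (Fin m.natDegree)} (hL : LocRoots m z₀ N τ)
    (hJ : ∀ z ∈ N, ∀ t, (z, t) ∈ A ↔ ∃ i ∈ J, τ i z = t) {z : Fin n → ℂ} (hz : z ∈ N) :
    qA A z = ∏ i ∈ J, (X - C (τ i z)) := by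
  have h1 : {t | (z, t) ∈ A} = (fun i => τ i z) '' (J : Set (Fin m.natDegree)) := by
    ext t
    rw [Set.mem_image]
    constructor
    · intro ht
      obtain ⟨i, hi, h⟩ := (hJ z hz t).1 ht
      exact ⟨i, hi, h⟩
    · rintro ⟨i, hi, h⟩
      exact (hJ z hz t).2 ⟨i, hi, h⟩
  unfold qA
  rw [h1, finprod_mem_image ((hL.inj z hz).injOn), finprod_mem_coe_finset]

theorem diff_coeff_prod {ι : Type*} [DecidableEq ι] {N : Set (Fin n → ℂ)} (J : Finset ι)
    (τ : ι → (Fin n → ℂ) → ℂ) (hτ : ∀ i, DifferentiableOn ℂ (τ i) N) (k : ℕ) :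
    DifferentiableOn ℂ (fun z => (∏ i ∈ J, (X - C (τ i z)) : ℂ[X]).coeff k) N := by
  induction J using Finset.induction_on generalizing k with
  | empty =>
    simp only [Finset.prod_empty]
    exact differentiableOn_const _
  | insert a s ha ih =>
    simp only [Finset.prod_insert ha, sub_mul, coeff_sub, coeff_C_mul]
    cases k with
    | zero =>
      simp only [coeff_X_mul_zero]
      exact (differentiableOn_const _).sub ((hτ a).mul (ih 0))
    | succ k =>
      simp only [coeff_X_mul]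
      exact (ih k).sub ((hτ a).mul (ih (k + 1)))

/-- The polynomial `qA A z` is monic of constant degree, divides `sp m z`, has the expected roots
and its coefficients are holomorphic functions of `z`. -/
theorem qA_props {h : MvPolynomial (Fin n) ℂ} (hh : h ≠ 0) {m : (MvPolynomial (Fin n) ℂ)[X]}
    {A : Set ((Fin n → ℂ) × ℂ)} (hA : LocA h m A) :
    ∃ a : ℕ, (∀ z ∈ DS h, (qA A z).Monic ∧ (qA A z).natDegree = a ∧ qA A z ∣ sp m z ∧
      ∀ t, (qA A z).eval t = 0 ↔ (z, t) ∈ A) ∧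
      ∀ i, DifferentiableOn ℂ (fun z => (qA A z).coeff i) (DS h) := by
  classical
  obtain ⟨z₁, hz₁⟩ := (isPathConnected_DS hh).nonempty
  have hdeg : ∀ z ∈ DS h, (qA A z).natDegree = (qA A z₁).natDegree := by
    intro z hz
    refine (isPathConnected_DS hh).isConnected.isPreconnected.constant
      (f := fun z => (qA A z).natDegree) ?_ hz hz₁
    intro z₀ hz₀
    obtain ⟨N, τ, J, hN, hL, hJ⟩ := hA.loc z₀ hz₀
    have h1 : ∀ z ∈ N, (qA A z).natDegree = J.card := by
      intro z hz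
      rw [qA_eq_prod hL hJ hz, natDegree_prod_of_monic _ _ (fun i _ => monic_X_sub_C _)]
      simp
    have h2 : (fun z => (qA A z).natDegree) =ᶠ[nhds z₀] fun _ => J.card := by
      filter_upwards [hL.isOpen.mem_nhds hL.mem] with z hz
      exact h1 z hz
    exact (h2.continuousAt).continuousWithinAt
  refine ⟨(qA A z₁).natDegree, fun z hz => ?_, fun k z₀ hz₀ => ?_⟩
  · refine ⟨?_, hdeg z hz, ?_, ?_⟩
    · obtain ⟨N, τ, J, hN, hL, hJ⟩ := hA.loc z hz
      rw [qA_eq_prod hL hJ hL.mem]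
      exact monic_prod_of_monic _ _ (fun i _ => monic_X_sub_C _)
    · obtain ⟨N, τ, J, hN, hL, hJ⟩ := hA.loc z hz
      rw [qA_eq_prod hL hJ hL.mem, hL.prod z hL.mem]
      exact Finset.prod_dvd_prod_of_subset _ _ _ (Finset.subset_univ J)
    · intro t
      obtain ⟨N, τ, J, hN, hL, hJ⟩ := hA.loc z hz
      rw [qA_eq_prod hL hJ hL.mem, eval_prod, Finset.prod_eq_zero_iff, hJ z hL.mem t]
      constructor
      · rintro ⟨i, hi, h0⟩
        rw [eval_sub, eval_X, eval_C, sub_eq_zero] at h0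
        exact ⟨i, hi, h0.symm⟩
      · rintro ⟨i, hi, h0⟩
        exact ⟨i, hi, by rw [eval_sub, eval_X, eval_C, h0, sub_self]⟩
  · obtain ⟨N, τ, J, hN, hL, hJ⟩ := hA.loc z₀ hz₀
    have h1 := (diff_coeff_prod J τ hL.diff k).differentiableAt (hL.isOpen.mem_nhds hL.mem)
    have h2 : (fun z => (qA A z).coeff k) =ᶠ[nhds z₀]
        fun z => (∏ i ∈ J, (X - C (τ i z)) : ℂ[X]).coeff k := by
      filter_upwards [hL.isOpen.mem_nhds hL.mem] with z hz
      rw [qA_eq_prod hL hJ hz]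
    exact (h1.congr_of_eventuallyEq h2).differentiableWithinAt

end MP8178
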