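import Mathlib

/-! # Simple roots of polynomials depend continuously on the coefficients -/

open Polynomial

namespace MP8178

section simpleRoot

open Filter Topology

/-- the universal polynomial -/
noncomputable def srF (d : ℕ) (v : (Fin (d + 1) → ℂ) × ℂ) : ℂ := ∑ i, v.1 i * v.2 ^ (i : ℕ)

theorem srF_contDiff (d : ℕ) : ContDiff ℂ 1 (srF d) := by
  unfold srF
  apply ContDiff.sum
  intro i _
  apply ContDiff.mul
  · exact (contDiff_apply ℂ ℂ i).comp contDiff_fst
  · exact contDiff_snd.pow _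

theorem srF_coeff (d : ℕ) (p : ℂ[X]) (hd : p.natDegree ≤ d) (t : ℂ) :
    srF d (fun i => p.coeff i, t) = p.eval t := by
  unfold srF
  rw [eval_eq_sum_range' (Nat.lt_succ_of_le hd), Finset.sum_range]

theorem sr_isInvertible (M : ℂ →L[ℂ] ℂ) (h : M 1 ≠ 0) : M.IsInvertible := by
  refine ⟨ContinuousLinearEquiv.equivOfInverse M ((M 1)⁻¹ • ContinuousLinearMap.id ℂ ℂ) ?_ ?_, ?_⟩
  · intro x
    have : M x = x * M 1 := by
      conv_lhs => rw [← mul_one x, ← smul_eq_mul, map_smul, smul_eq_mul]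
    simp only [smul_apply, ContinuousLinearMap.id_apply, smul_eq_mul]
    rw [this]
    field_simp
  · intro x
    have : ∀ y, M y = y * M 1 := by
      intro y
      conv_lhs => rw [← mul_one y, ← smul_eq_mul, map_smul, smul_eq_mul]
    simp only [smul_apply, ContinuousLinearMap.id_apply, smul_eq_mul]
    rw [this]
    field_simp
  · ext
    rfl

/-- the local root -/
theorem sr_local (d : ℕ) (p : ℂ[X]) (hd : p.natDegree ≤ d) (t : ℂ) (h0 : p.eval t = 0)
    (h1 : p.derivative.eval t ≠ 0) :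
    ∃ ψ : (Fin (d + 1) → ℂ) → ℂ,
      (∀ᶠ v in 𝓝 ((fun i : Fin (d + 1) => p.coeff i, t) : (Fin (d + 1) → ℂ) × ℂ),
        srF d v = 0 → ψ v.1 = v.2) ∧
      Tendsto ψ (𝓝 (fun i : Fin (d + 1) => p.coeff i)) (𝓝 t) ∧
      ∀ᶠ a in 𝓝 (fun i : Fin (d + 1) => p.coeff i), srF d (a, ψ a) = 0 := by
  set u : (Fin (d + 1) → ℂ) × ℂ := (fun i : Fin (d + 1) => p.coeff i, t) with hu
  have cdf : ContDiffAt ℂ 1 (srF d) u := (srF_contDiff d).contDiffAt
  have hfu : srF d u = 0 := by rw [hu, srF_coeff d p hd, h0]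
  have hinv : (fderiv ℂ (srF d) u ∘L .inr ℂ (Fin (d + 1) → ℂ) ℂ).IsInvertible := by
    apply sr_isInvertible
    have e1 : HasFDerivAt (srF d) (fderiv ℂ (srF d) u) u :=
      (cdf.differentiableAt (by norm_num)).hasFDerivAt
    have e2 : HasFDerivAt (fun s : ℂ => ((fun i : Fin (d + 1) => p.coeff i, s) :
        (Fin (d + 1) → ℂ) × ℂ)) (.inr ℂ (Fin (d + 1) → ℂ) ℂ) t := hasFDerivAt_prodMk_right _ _
    have e3 := (HasFDerivAt.comp t (g := srF d) (f := fun s : ℂ =>
      ((fun i : Fin (d + 1) => p.coeff i, s) : (Fin (d + 1) → ℂ) × ℂ)) e1 e2).hasDerivAt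
    have e4 : (srF d ∘ fun s : ℂ => ((fun i : Fin (d + 1) => p.coeff i, s) :
        (Fin (d + 1) → ℂ) × ℂ)) = fun s => p.eval s := by
      funext s
      exact srF_coeff d p hd s
    rw [e4] at e3
    rw [e3.unique (p.hasDerivAt t)]
    exact h1
  refine ⟨cdf.implicitFunction one_ne_zero hinv, ?_, ?_, ?_⟩
  · filter_upwards [cdf.eventually_apply_eq_iff_implicitFunction one_ne_zero hinv] with v hv h
    exact hv.1 (by rw [h, hfu])
  · have e1 := (cdf.hasStrictFDerivAt one_ne_zero).tendsto_implicitFunctionOfProdDomain hinv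
    exact e1
  · filter_upwards [cdf.eventually_apply_implicitFunction one_ne_zero hinv] with a ha
    rw [ha, hfu]

end simpleRoot

open Filter Topology in
/-- For a family `f` of complex polynomials of bounded degree, depending continuously on a
parameter, the space of pairs (parameter, simple root) is locally homeomorphic to the parameter
space. -/
theorem isLocalHomeomorph_simpleRoots {S : Type*} [TopologicalSpace S] (f : S → ℂ[X]) (d : ℕ)
    (hd : ∀ x, (f x).natDegree ≤ d) (hc : ∀ i, Continuous fun x => (f x).coeff i) :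
    IsLocalHomeomorph (fun p : {p : S × ℂ // (f p.1).eval p.2 = 0 ∧
      (f p.1).derivative.eval p.2 ≠ 0} => p.1.1) := by
  have hcoef : Continuous fun x : S => (fun i : Fin (d + 1) => (f x).coeff i) :=
    continuous_pi fun i => hc i
  have hder : Continuous fun p : S × ℂ => (f p.1).derivative.eval p.2 := by
    have e : (fun p : S × ℂ => (f p.1).derivative.eval p.2) = fun p : S × ℂ =>
        ∑ i ∈ Finset.range (d + 1), ((f p.1).coeff (i + 1) * (i + 1)) * p.2 ^ i := by
      funext p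
      rw [eval_eq_sum_range' (n := d + 1)]
      · apply Finset.sum_congr rfl
        intro i _
        rw [coeff_derivative]
      · exact Nat.lt_succ_of_le ((natDegree_derivative_le _).trans ((Nat.sub_le _ _).trans (hd _)))
    rw [e]
    apply continuous_finsetSum
    intro i _
    exact (((hc (i + 1)).comp continuous_fst).mul continuous_const).mul (continuous_snd.pow i)
  set Z := {p : S × ℂ // (f p.1).eval p.2 = 0 ∧ (f p.1).derivative.eval p.2 ≠ 0} with hZ
  have hcont : Continuous (fun p : Z => p.1.1) := continuous_fst.comp continuous_subtype_val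
  have hopen : IsOpenMap (fun p : Z => p.1.1) := by
    rw [isOpenMap_iff_nhds_le]
    rintro ⟨⟨x, t⟩, h0, h1⟩
    obtain ⟨ψ, -, hψ2, hψ3⟩ := sr_local d (f x) (hd x) t h0 h1
    intro W hW
    obtain ⟨W', hW', hsub⟩ := (mem_nhds_induced (Subtype.val : Z → S × ℂ) _ _).1
      (Filter.mem_map.1 hW)
    have ht : Tendsto (fun y : S => ((y, ψ (fun i : Fin (d + 1) => (f y).coeff i)) : S × ℂ))
        (𝓝 x) (𝓝 (x, t)) := by
      rw [nhds_prod_eq]
      exact tendsto_id.prodMk (hψ2.comp (hcoef.tendsto x))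
    filter_upwards [ht hW', (hcoef.tendsto x).eventually hψ3,
      ht.eventually (hder.continuousAt.eventually_ne h1)] with y hy1 hy2 hy3
    have hy4 : (f y).eval (ψ (fun i : Fin (d + 1) => (f y).coeff i)) = 0 := by
      rw [← srF_coeff d (f y) (hd y)]
      exact hy2
    exact hsub (show (⟨(y, ψ (fun i : Fin (d + 1) => (f y).coeff i)), hy4, hy3⟩ : Z) ∈
      Subtype.val ⁻¹' W' from hy1)
  rw [isLocalHomeomorph_iff_isOpenEmbedding_restrict]
  rintro ⟨⟨x, t⟩, h0, h1⟩
  obtain ⟨ψ, hψ1, -, -⟩ := sr_local d (f x) (hd x) t h0 h1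
  have hmap : Continuous fun p : Z =>
      ((fun i : Fin (d + 1) => (f p.1.1).coeff i, p.1.2) : (Fin (d + 1) → ℂ) × ℂ) :=
    (hcoef.comp hcont).prodMk (continuous_snd.comp continuous_subtype_val)
  have hev := hmap.continuousAt (x := (⟨(x, t), h0, h1⟩ : Z)) |>.eventually hψ1
  obtain ⟨U, hU, hUo, hxU⟩ := eventually_nhds_iff.1 hev
  refine ⟨U, hUo.mem_nhds hxU, ?_⟩
  refine IsOpenEmbedding.of_continuous_injective_isOpenMap ?_ ?_ ?_
  · exact hcont.comp continuous_subtype_val
  · rintro ⟨p, hp⟩ ⟨q, hq⟩ hpq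
    have hpq' : p.1.1 = q.1.1 := hpq
    have e1 := hU p hp (by
      show srF d (fun i : Fin (d + 1) => (f p.1.1).coeff i, p.1.2) = 0
      rw [srF_coeff d _ (hd _)]; exact p.2.1)
    have e2 := hU q hq (by
      show srF d (fun i : Fin (d + 1) => (f q.1.1).coeff i, q.1.2) = 0
      rw [srF_coeff d _ (hd _)]; exact q.2.1)
    simp only at e1 e2
    have e3 : p.1.2 = q.1.2 := by rw [← e1, ← e2, hpq']
    apply Subtype.ext
    apply Subtype.ext
    exact Prod.ext hpq' e3
  · exact hopen.domRestrict hUo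

end MP8178
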