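import Pool.Agent.Lib_MP_8178ab_ag.Ana.SimpleRoot
import Pool.Agent.Lib_MP_8178ab_ag.Ana.Aff

/-! # Standard étale algebras induce local homeomorphisms on complex points -/

open CategoryTheory Limits AlgebraicGeometry

namespace MP8178

namespace StdEtaleAux

open Polynomial

section

variable {A : Type} [CommRing A] [Algebra ℂ A]

/-- specialisation of a polynomial over `A` at a complex point of `A` -/
noncomputable def spA (f : A[X]) (x : A →ₐ[ℂ] ℂ) : ℂ[X] := f.map (x : A →+* ℂ)

lemma spA_coeff_continuous (f : A[X]) (i : ℕ) : Continuous fun x : A →ₐ[ℂ] ℂ => (spA f x).coeff i := by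
  simp only [spA, coeff_map]
  exact continuous_alg_apply (f.coeff i)

lemma spA_natDegree_le (f : A[X]) (x : A →ₐ[ℂ] ℂ) : (spA f x).natDegree ≤ f.natDegree :=
  natDegree_map_le

lemma spA_eval_continuous (f : A[X]) :
    Continuous fun p : (A →ₐ[ℂ] ℂ) × ℂ => (spA f p.1).eval p.2 := by
  have h : ∀ p : (A →ₐ[ℂ] ℂ) × ℂ, (spA f p.1).eval p.2 =
      ∑ i ∈ Finset.range (f.natDegree + 1), (spA f p.1).coeff i * p.2 ^ i := fun p =>
    eval_eq_sum_range' (Nat.lt_succ_of_le (spA_natDegree_le f p.1)) _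
  simp_rw [h]
  refine continuous_finsetSum _ fun i _ => ?_
  exact ((spA_coeff_continuous f i).comp continuous_fst).mul (continuous_snd.pow i)

variable {B : Type} [CommRing B] [Algebra A B] [Algebra ℂ B] [IsScalarTower ℂ A B]

lemma eval_spA (f : A[X]) (φ : B →ₐ[ℂ] ℂ) (b : B) :
    (spA f (φ.comp (IsScalarTower.toAlgHom ℂ A B))).eval (φ b) = φ (aeval b f) := by
  rw [spA, Polynomial.eval_map, aeval_def]
  change _ = (φ : B →+* ℂ) (eval₂ (algebraMap A B) b f)
  rw [hom_eval₂]
  rfl

/-- the space of simple roots of a polynomial -/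
abbrev ES (f : A[X]) : Type := {p : (A →ₐ[ℂ] ℂ) × ℂ // (spA f p.1).eval p.2 = 0 ∧
      (spA f p.1).derivative.eval p.2 ≠ 0}

/-- the embedding of the complex points of a standard étale algebra -/
noncomputable def jj (P : StandardEtalePresentation A B) (φ : B →ₐ[ℂ] ℂ) : ES P.f :=
  ⟨(φ.comp (IsScalarTower.toAlgHom ℂ A B), φ P.x), by
    have h1 : spA P.f.derivative (φ.comp (IsScalarTower.toAlgHom ℂ A B))
      = (spA P.f (φ.comp (IsScalarTower.toAlgHom ℂ A B))).derivative := by
      simp [spA, derivative_map]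
    constructor
    · change (spA P.f (φ.comp (IsScalarTower.toAlgHom ℂ A B))).eval (φ P.x) = 0
      rw [eval_spA, P.hasMap.1, map_zero]
    · change (spA P.f (φ.comp (IsScalarTower.toAlgHom ℂ A B))).derivative.eval (φ P.x) ≠ 0
      rw [← h1, eval_spA]
      exact ((P.hasMap.isUnit_derivative_f).map φ).ne_zero⟩

lemma jj_continuous (P : StandardEtalePresentation A B) : Continuous (jj P) := by
  refine Continuous.subtype_mk (Continuous.prodMk ?_ (continuous_alg_apply P.x)) _
  rw [continuous_alg_iff]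
  intro a
  exact continuous_alg_apply (B := B) (IsScalarTower.toAlgHom ℂ A B a)

lemma jj_eval (P : StandardEtalePresentation A B) (φ : B →ₐ[ℂ] ℂ) (q : A[X]) :
    (spA q (jj P φ).1.1).eval (jj P φ).1.2 = φ (aeval P.x q) := eval_spA q φ P.x

lemma g_ne (P : StandardEtalePresentation A B) (φ : B →ₐ[ℂ] ℂ) :
    (spA P.g (jj P φ).1.1).eval (jj P φ).1.2 ≠ 0 := by
  rw [jj_eval]
  exact (P.hasMap.2.map φ).ne_zero

lemma apply_eq (P : StandardEtalePresentation A B) (b : B) : ∃ (p : A[X]) (n : ℕ),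
    ∀ φ : B →ₐ[ℂ] ℂ, φ b = (spA p (jj P φ).1.1).eval (jj P φ).1.2 /
      ((spA P.g (jj P φ).1.1).eval (jj P φ).1.2) ^ n := by
  obtain ⟨p, n, h⟩ := P.exists_mul_aeval_x_g_pow_eq_aeval_x b
  refine ⟨p, n, fun φ => ?_⟩
  rw [eq_div_iff (pow_ne_zero _ (g_ne P φ)), jj_eval, jj_eval, ← h, map_mul, map_pow]

lemma jj_injective (P : StandardEtalePresentation A B) : Function.Injective (jj P) := by
  intro φ ψ h
  ext b
  obtain ⟨p, n, hb⟩ := apply_eq P b
  rw [hb φ, hb ψ, h]

lemma jj_inducing (P : StandardEtalePresentation A B) : Topology.IsInducing (jj P) := by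
  refine ⟨le_antisymm (jj_continuous P).le_induced ?_⟩
  have h : @Continuous (B →ₐ[ℂ] ℂ) (B →ₐ[ℂ] ℂ)
      (TopologicalSpace.induced (jj P) inferInstance) (algTop B) id := by
    letI : TopologicalSpace (B →ₐ[ℂ] ℂ) := TopologicalSpace.induced (jj P) inferInstance
    refine (@continuous_alg_iff B _ _ (B →ₐ[ℂ] ℂ) (TopologicalSpace.induced (jj P) inferInstance)
      id).2 fun b => ?_
    obtain ⟨p, n, hb⟩ := apply_eq P b
    simp only [id]
    have hj : Continuous (jj P) := continuous_induced_dom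
    have e1 : Continuous fun φ : B →ₐ[ℂ] ℂ => (spA p (jj P φ).1.1).eval (jj P φ).1.2 :=
      (spA_eval_continuous p).comp (continuous_subtype_val.comp hj)
    have e2 : Continuous fun φ : B →ₐ[ℂ] ℂ => (spA P.g (jj P φ).1.1).eval (jj P φ).1.2 :=
      (spA_eval_continuous P.g).comp (continuous_subtype_val.comp hj)
    have e3 := e1.div (e2.pow n) (fun φ => pow_ne_zero _ (g_ne P φ))
    refine e3.congr fun φ => (hb φ).symm
  exact continuous_id_iff_le.1 h

lemma jj_range (P : StandardEtalePresentation A B) :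
    Set.range (jj P) = {e : ES P.f | (spA P.g e.1.1).eval e.1.2 ≠ 0} := by
  apply Set.Subset.antisymm
  · rintro _ ⟨φ, rfl⟩
    exact g_ne P φ
  · rintro ⟨⟨x, t⟩, hf, hf'⟩ hg
    change (spA P.g x).eval t ≠ 0 at hg
    change (spA P.f x).eval t = 0 at hf
    letI : Algebra A ℂ := (x : A →+* ℂ).toAlgebra
    have htower : IsScalarTower ℂ A ℂ := IsScalarTower.of_algebraMap_eq fun z => (x.commutes z).symm
    have hev : ∀ q : A[X], aeval t q = (spA q x).eval t := by
      intro q
      rw [spA, Polynomial.eval_map, aeval_def]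
      rfl
    have hm : P.HasMap t := ⟨by rw [hev]; exact hf, by rw [hev]; exact isUnit_iff_ne_zero.2 hg⟩
    let ψ : B →ₐ[A] ℂ := (P.P.lift t hm).comp P.equivRing.toAlgHom
    have hψx : ψ P.x = t := by
      change P.P.lift t hm (P.equivRing P.x) = t
      rw [P.equivRing_x, StandardEtalePair.lift_X]
    refine ⟨ψ.restrictScalars ℂ, ?_⟩
    apply Subtype.ext
    apply Prod.ext
    · ext a
      change ψ (algebraMap A B a) = x a
      rw [ψ.commutes]
      rfl
    · exact hψx

lemma jj_openEmbedding (P : StandardEtalePresentation A B) : Topology.IsOpenEmbedding (jj P) := by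
  refine ⟨⟨jj_inducing P, jj_injective P⟩, ?_⟩
  rw [jj_range]
  exact isOpen_ne.preimage ((spA_eval_continuous P.g).comp continuous_subtype_val)

end

end StdEtaleAux

open StdEtaleAux in
theorem isLocalHomeomorph_stdEtale (A B : Type) [CommRing A] [CommRing B] [Algebra ℂ A]
    [Algebra A B] [Algebra ℂ B] [IsScalarTower ℂ A B] [Algebra.IsStandardEtale A B] :
    IsLocalHomeomorph (fun φ : B →ₐ[ℂ] ℂ => φ.comp (IsScalarTower.toAlgHom ℂ A B)) := by
  obtain ⟨P⟩ := Algebra.IsStandardEtale.nonempty_standardEtalePresentation (R := A) (S := B)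
  have h1 := isLocalHomeomorph_simpleRoots (S := A →ₐ[ℂ] ℂ) (fun x => spA P.f x) P.f.natDegree
    (fun x => spA_natDegree_le P.f x) (fun i => spA_coeff_continuous P.f i)
  exact h1.comp (jj_openEmbedding P).isLocalHomeomorph

end MP8178
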