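import Pool.Agent.Lib_MP_8178ab_ag.Ana.LocA
import Pool.Agent.Lib_MP_8178ab_ag.Ana.CoeffQA
import Pool.Agent.Lib_MP_8178ab_ag.Ana.Factor

/-! # The hypersurface of an irreducible polynomial is path connected -/

open Polynomial

namespace MP8178

variable {n : ℕ}

/-- The part `h ≠ 0` of the hypersurface `m = 0` of an irreducible polynomial, étale over
`h ≠ 0`, is path connected. -/
theorem isPathConnected_WS {h : MvPolynomial (Fin n) ℂ} (hh : h ≠ 0)
    {m : (MvPolynomial (Fin n) ℂ)[X]} (hm : m.Monic) (hi : Irreducible m)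
    (hs : ∀ z ∈ DS h, (sp m z).Separable) : IsPathConnected (WS h m) := by
  obtain ⟨z₀, hz₀⟩ := (dense_DS hh).nonempty
  have hd : m.natDegree ≠ 0 := by
    intro h0
    rw [hm.natDegree_eq_zero] at h0
    exact hi.not_isUnit (h0 ▸ isUnit_one)
  obtain ⟨t₀, ht₀⟩ : ∃ t, (sp m z₀).eval t = 0 := by
    obtain ⟨t, ht⟩ := Complex.exists_root (f := sp m z₀) (by
      rw [degree_eq_natDegree (sp_monic hm z₀).ne_zero, sp_natDegree hm]
      exact_mod_cast Nat.pos_of_ne_zero hd)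
    exact ⟨t, ht⟩
  have hw : (z₀, t₀) ∈ WS h m := ⟨hz₀, ht₀⟩
  refine ⟨(z₀, t₀), hw, ?_⟩
  rintro ⟨z, t⟩ hzt
  set A : Set ((Fin n → ℂ) × ℂ) := {w | JoinedIn (WS h m) (z₀, t₀) w} with hA
  have hLoc : LocA h m A := locA_joinedIn hm hs _
  obtain ⟨a, h1, h2⟩ := qA_props hh hLoc
  have ha : a ≠ 0 := by
    intro ha
    obtain ⟨h3, h4, h5, h6⟩ := h1 z₀ hz₀
    rw [ha, h3.natDegree_eq_zero] at h4
    have := (h6 t₀).2 (JoinedIn.refl hw)
    rw [h4] at this
    simp at this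
  have h3 := eq_sp_of_factor hh hm hi ha (fun z hz => ⟨(h1 z hz).1, (h1 z hz).2.1,
    (h1 z hz).2.2.1⟩) (fun i => exists_coeff_qA hh hm hLoc i) z hzt.1
  have h4 := ((h1 z hzt.1).2.2.2 t).1 (by rw [h3]; exact hzt.2)
  exact h4

end MP8178
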